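import Pool.Agent.H378.SF.Ev
import Pool.Agent.H378.AC.Main

/-!
# The sum for the whole group
-/

set_option autoImplicit false
set_option linter.unusedSectionVars false
set_option linter.unusedVariables false

open scoped Classical BigOperators Polynomial
open Polynomial
open Pool.Agent.Helper884.IC Pool.Agent.Y63.AWC Pool.Agent.Y63.KR Pool.Agent.X209.EQ
open Pool.Agent.X209.PJ hiding push
open Pool.Agent.X209.DI Pool.Agent.X209.DQ Pool.Agent.X209.NB Pool.Agent.H378.AC
open Pool.Agent.Y63.NV (IsClassFun IsBlock InZ centralValue redC conv classValue)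

noncomputable section

namespace Pool.Agent.H378.SF

attribute [-instance] MonoidHom.fintypeRange MonoidHom.decidableMemRange

section

variable {p : ℕ} [hp : Fact p.Prime] {F : Type} [Field F] [CharP F p]
  (red : integralClosure ℤ ℂ →+* F) {A : Type} [Group A] [Finite A]

/-- **The decomposition into blocks.** -/
theorem mmp_cd {Z : Set ((A → F) × F)} (hZ : ∀ z ∈ Z, IsClassFun z.1) :
    ∃ (s : Finset (A → F)) (β : (A → F) → (A → F) → F),
      (∀ w ∈ s, IsBlock (β w) ∧ ∀ z ∈ Z, β w z.1 = z.2) ∧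
      ∀ α : MulAut A,
        MMP p α (fun σ θ => Cd red Z (chainStabilizer σ) θ) =
          ∑ w ∈ s, MMP p α (fun σ θ => Induces red (β w) θ) := by
  have hfin : {w : A → F | ∃ σ : {σ : Set (Subgroup A) // IsPChain p σ},
      ∃ χ : chainStabilizer σ.1 → ℂ, IsIrrChar χ ∧
        Cd red Z (chainStabilizer σ.1) χ ∧ w = cval red χ}.Finite := by
    have h1 : ∀ σ : {σ : Set (Subgroup A) // IsPChain p σ},
        {w : A → F | ∃ χ : chainStabilizer σ.1 → ℂ, IsIrrChar χ ∧
        Cd red Z (chainStabilizer σ.1) χ ∧ w = cval red χ}.Finite := by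
      intro τ
      have h2 : {χ : chainStabilizer τ.1 → ℂ | IsIrrChar χ}.Finite := by
        have : Fintype (chainStabilizer τ.1) := Fintype.ofFinite _
        exact irr_finite
      refine (h2.image (fun χ => cval red χ)).subset ?_
      rintro v ⟨χ, hχ, _, rfl⟩
      exact ⟨χ, hχ, rfl⟩
    refine (Set.finite_iUnion h1).subset ?_
    rintro v ⟨τ, hv⟩
    exact Set.mem_iUnion.mpr ⟨τ, hv⟩
  have hex : ∀ w : A → F, ∃ β : (A → F) → F, w ∈ hfin.toFinset →
      (IsBlock β ∧ (∀ x, classValue β x = w x) ∧ ∀ z ∈ Z, β z.1 = z.2) := by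
    intro w
    by_cases hw : w ∈ hfin.toFinset
    · rw [Set.Finite.mem_toFinset] at hw
      obtain ⟨τ, χ, hχ, hcov, rfl⟩ := hw
      refine ⟨fun1 red χ, fun _ => ⟨?_, fun x => rfl, hcov⟩⟩
      exact induces_block (p := p) red τ.2.chain (fun P hP => τ.2.isPGroup P hP) hχ
        (fun _ _ => rfl)
    · exact ⟨fun _ => 0, fun h => absurd h hw⟩
  choose β hβ using hex
  refine ⟨hfin.toFinset, β, fun w hw => ⟨(hβ w hw).1, (hβ w hw).2.2⟩, fun α => ?_⟩
  unfold MMP
  rw [Finset.sum_comm]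
  refine Finset.sum_congr rfl fun τ _ => ?_
  rw [← Finset.mul_sum, ← Finset.mul_sum]
  congr 2
  have key : ∀ w ∈ hfin.toFinset, ∀ χ : chainStabilizer τ.1 → ℂ, IsIrrChar χ →
      (Induces red (β w) χ ↔ (Cd red Z (chainStabilizer τ.1) χ ∧ cval red χ = w)) := by
    intro w hw χ hχ
    obtain ⟨h1, h2, h3⟩ := hβ w hw
    constructor
    · intro h4
      refine ⟨fun z hz => ?_, ?_⟩
      · rw [← h3 z hz]
        exact h4 z.1 (hZ z hz)
      · funext x
        rw [← h2 x]
        exact (induces_iff red (pch_above τ.2) hχ h1).mp h4 x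
    · rintro ⟨_, h4⟩
      rw [induces_iff red (pch_above τ.2) hχ h1]
      intro x
      rw [h2, h4]
  refine gf_dec (p := p) hfin.toFinset (fun χ => cval red χ) ?_ ?_
  · intro χ hχ h
    rw [Set.Finite.mem_toFinset]
    exact ⟨τ, χ, hχ, h.1, rfl⟩
  · intro w hw χ hχ
    have h4 := key w hw χ hχ
    constructor
    · rintro ⟨h2, h3⟩
      exact ⟨⟨(h4.mp h2).1, h3⟩, (h4.mp h2).2⟩
    · rintro ⟨⟨h1, h2⟩, h3⟩
      exact ⟨h4.mpr ⟨h1, h3⟩, h2⟩

theorem mmp_cd_zero (hT : TT p red A) {Z : Set ((A → F) × F)} (hZ : ∀ z ∈ Z, IsClassFun z.1)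
    (hD : ∀ χ : A → ℂ, IsIrrChar χ → (∀ z ∈ Z, centralValue red χ z.1 = z.2) → dfc p χ ≠ 0)
    (α : MulAut A) : MMP p α (fun σ θ => Cd red Z (chainStabilizer σ) θ) = 0 := by
  obtain ⟨s, β, h1, h2⟩ := mmp_cd (p := p) red hZ
  rw [h2]
  refine Finset.sum_eq_zero fun w hw => hT α _ (h1 w hw).1 ?_
  intro χ hχ hb h0
  refine hD χ hχ (fun z hz => ?_) ((hasDefect_iff hχ).mp h0)
  rw [hb _ (hZ z hz)]
  exact (h1 w hw).2 z hz

end

section transport

variable {A B' : Type} [Group A] [Group B'] [Finite A] [Finite B'] {p : ℕ}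

lemma dfc_comp' (e : A ≃* B') {χ : B' → ℂ} (h : IsIrrChar χ) :
    dfc p (fun x => χ (e x)) = dfc p χ := by
  have : Fintype A := Fintype.ofFinite A
  have : Fintype B' := Fintype.ofFinite B'
  have h1 := (dg_spec (irr_comp e h)).1
  have h2 := (dg_spec h).1
  have h3 : ((dg (fun x => χ (e x)) : ℕ) : ℂ) = (dg χ : ℂ) := by
    rw [← h1, ← h2, map_one]
  unfold dfc
  have h4 : dg (fun x => χ (e x)) = dg χ := by exact_mod_cast h3
  rw [h4, Nat.card_congr e.toEquiv]

lemma irf_comp (e : A ≃* B') {P : (B' → ℂ) → Prop} {Q : (A → ℂ) → Prop}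
    (h : ∀ χ, IsIrrChar χ → (P χ ↔ Q (fun a => χ (e a)))) {R : Type} [AddCommMonoid R]
    (f : ℕ → R) :
    ∑ χ ∈ (IrF B').filter P, f (dfc p χ) = ∑ θ ∈ (IrF A).filter Q, f (dfc p θ) := by
  have : Fintype A := Fintype.ofFinite A
  have : Fintype B' := Fintype.ofFinite B'
  refine Finset.sum_bij' (fun χ _ => fun a => χ (e a)) (fun θ _ => fun b => θ (e.symm b))
    ?_ ?_ ?_ ?_ ?_
  · intro χ hχ
    rw [Finset.mem_filter, mem_IrF] at hχ ⊢
    exact ⟨irr_comp e hχ.1, (h χ hχ.1).mp hχ.2⟩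
  · intro θ hθ
    rw [Finset.mem_filter, mem_IrF] at hθ ⊢
    refine ⟨irr_comp e.symm hθ.1, (h _ (irr_comp e.symm hθ.1)).mpr ?_⟩
    have : (fun a => θ (e.symm (e a))) = θ := by
      funext a
      rw [e.symm_apply_apply]
    rw [this]
    exact hθ.2
  · intro χ _
    funext b
    simp
  · intro θ _
    funext a
    simp
  · intro χ hχ
    rw [Finset.mem_filter, mem_IrF] at hχ
    rw [dfc_comp' e hχ.1]

/-- a subgroup of a subgroup -/
def subEq {W : Type} [Group W] {D : Subgroup W} {T : Subgroup D} {H : Subgroup W} (hHD : H ≤ D)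
    (h : ∀ x : D, x ∈ T ↔ (x : W) ∈ H) : T ≃* H where
  toFun x := ⟨((x : D) : W), (h x).mp x.2⟩
  invFun y := ⟨⟨y, hHD y.2⟩, (h _).mpr y.2⟩
  left_inv x := rfl
  right_inv y := rfl
  map_mul' x y := rfl

end transport

section

variable {p : ℕ} [hp : Fact p.Prime] {F : Type} [Field F] [CharP F p]
  (red : integralClosure ℤ ℂ →+* F) {W : Type} [Group W] [Finite W]

/-- **The sum for the whole group.** -/
theorem blk {D : Subgroup W} (hT : TT p red D) {e : W}
    (he : e ∈ Subgroup.normalizer (D : Set W)) {Z : Set ((W → F) × F)}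
    (hZ : ∀ z ∈ Z, ∀ h ∈ D, ∀ x, z.1 (h * x * h⁻¹) = z.1 x)
    (hD : ∀ χ : D → ℂ, IsIrrChar χ → Cd red Z D χ → dfc p χ ≠ 0) (t : ℂ) :
    CS p D (fun S => (Nat.card (S ⊓ D : Subgroup W) : ℂ) *
      ∑ χ ∈ (IrF (S ⊓ D : Subgroup W)).filter
        (fun χ => Cd red Z (S ⊓ D) χ ∧ ∃ a ∈ S, e⁻¹ * a ∈ D ∧ Fxw χ a), t ^ dfc p χ) = 0 := by
  set i := D.subtype with hi
  have hinj : Function.Injective i := D.subtype_injective
  have hr : i.range = D := Subgroup.range_subtype D
  have hN : Subgroup.normalizer (D : Set W) ≤ Subgroup.normalizer (i.range : Set W) := by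
    rw [hr]
  have hle : i.range ≤ Subgroup.normalizer (D : Set W) := by
    rw [hr]
    exact Subgroup.le_normalizer
  set N := Subgroup.normalizer (D : Set W) with hNd
  set α : MulAut D := actI i hinj N hN ⟨e, he⟩ with hα
  set Z₀ : Set ((D → F) × F) := {w | ∃ z ∈ Z, w = (fun a : D => z.1 (a : W), z.2)} with hZ₀
  have hcl : ∀ z ∈ Z₀, IsClassFun z.1 := by
    rintro _ ⟨z, hz, rfl⟩
    intro g x
    exact hZ z hz g g.2 x
  have h0 := mmp_cd_zero (p := p) red hT hcl (fun χ hχ h => hD χ hχ fun z hz =>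
    h _ ⟨z, hz, rfl⟩) α
  rw [cs_hom i hinj hr]
  have h1 := congrArg (fun q : ℤ[X] => (q.map (Int.castRingHom ℂ)).eval t) h0
  simp only [Polynomial.map_zero, eval_zero] at h1
  rw [← h1]
  unfold MMP
  rw [Polynomial.map_sum, eval_finsetSum]
  refine Finset.sum_congr rfl fun σ _ => ?_
  rw [Polynomial.map_mul, Polynomial.map_mul, eval_mul, eval_mul, Polynomial.map_pow,
    Polynomial.map_neg, Polynomial.map_one, eval_pow, eval_neg, eval_one]
  congr 1
  have hm : ∀ x : D, x ∈ chainStabilizer σ.1 ↔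
      (x : W) ∈ chainStabilizer (Subgroup.map i '' σ.1) ⊓ D := by
    intro x
    rw [Subgroup.mem_inf, mem_stabA i hinj, mem_chainStabilizer]
    constructor
    · intro h
      refine ⟨?_, x.2⟩
      rintro _ ⟨P, hP, rfl⟩
      exact h P hP
    · rintro ⟨h, _⟩ P hP
      exact h _ ⟨P, hP, rfl⟩
  let ε : chainStabilizer σ.1 ≃* (chainStabilizer (Subgroup.map i '' σ.1) ⊓ D : Subgroup W) :=
    subEq inf_le_right hm
  have hε : ∀ x, ((ε x : W)) = ((x : D) : W) := fun x => rfl
  congr 1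
  · rw [← Nat.card_congr ε.toEquiv]
    simp
  · unfold gf
    rw [Polynomial.map_sum, eval_finsetSum]
    simp only [Polynomial.map_pow, map_X, eval_pow, eval_X]
    have key := irf_comp (p := p) ε (P := fun χ => Cd red Z
      (chainStabilizer (Subgroup.map i '' σ.1) ⊓ D) χ ∧
      ∃ a ∈ chainStabilizer (Subgroup.map i '' σ.1), e⁻¹ * a ∈ D ∧ Fxw χ a)
      (Q := fun θ => Cd red Z₀ (chainStabilizer σ.1) θ ∧
        ∃ a : D, FixAut σ.1 θ (α * MulAut.conj a)) ?_ (fun n => t ^ n)
    · refine Eq.trans (Finset.sum_congr ?_ fun _ _ => rfl) (key.trans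
        (Finset.sum_congr ?_ fun _ _ => rfl))
      · ext x
        simp only [Finset.mem_filter]
      · ext x
        simp only [Finset.mem_filter]
    intro χ hχ
    refine and_congr ?_ ?_
    · constructor
      · rintro h _ ⟨z, hz, rfl⟩
        have h2 := Pool.Agent.Y624.NV.centralValue_comp red ε hχ
          (f := fun x : (chainStabilizer (Subgroup.map i '' σ.1) ⊓ D : Subgroup W) => z.1 x)
          (fun g x => hZ z hz g g.2.2 x)
        exact h2.trans (h z hz)
      · intro h z hz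
        have h2 := Pool.Agent.Y624.NV.centralValue_comp red ε hχ
          (f := fun x : (chainStabilizer (Subgroup.map i '' σ.1) ⊓ D : Subgroup W) => z.1 x)
          (fun g x => hZ z hz g g.2.2 x)
        exact h2.symm.trans (h _ ⟨z, hz, rfl⟩)
    · have hmul : ∀ d : D, α * MulAut.conj d = actI i hinj N hN
          ⟨e * d, N.mul_mem he (hle ⟨d, rfl⟩)⟩ := by
        intro d
        rw [← actI_conj i hinj N hN hle d, hα, ← map_mul]
        rfl
      have hfx : ∀ d : D, (FixAut σ.1 (fun a => χ (ε a)) (α * MulAut.conj d) ↔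
          (e * (d : W) ∈ chainStabilizer (Subgroup.map i '' σ.1) ∧ Fxw χ (e * d))) := by
        intro d
        rw [hmul]
        unfold FixAut
        refine and_congr ?_ ?_
        · rw [mem_chainStabilizer]
          constructor
          · rintro h _ ⟨P, hP, rfl⟩
            exact (map_actI i hinj N hN _ P).mp (h P hP)
          · intro h P hP
            exact (map_actI i hinj N hN _ P).mpr (h _ ⟨P, hP, rfl⟩)
        · have hact := actI_apply i hinj N hN ⟨e * d, N.mul_mem he (hle ⟨d, rfl⟩)⟩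
          constructor
          · intro h x y hxy
            have h3 := h (ε.symm x) (ε.symm y) (by
              apply hinj
              rw [hact]
              exact hxy)
            simp only [ε.apply_symm_apply] at h3
            exact h3
          · intro h x y hxy
            refine h (ε x) (ε y) ?_
            have h3 := congrArg i hxy
            rw [hact] at h3
            exact h3
      constructor
      · rintro ⟨a, h2, h3, h4⟩
        refine ⟨⟨e⁻¹ * a, h3⟩, (hfx _).mpr ?_⟩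
        have h5 : e * (e⁻¹ * a) = a := by group
        change e * (e⁻¹ * a) ∈ _ ∧ Fxw χ (e * (e⁻¹ * a))
        rw [h5]
        exact ⟨h2, h4⟩
      · rintro ⟨d, h2⟩
        obtain ⟨h3, h4⟩ := (hfx d).mp h2
        refine ⟨e * d, h3, ?_, h4⟩
        have h5 : e⁻¹ * (e * (d : W)) = d := by group
        rw [h5]
        exact d.2

end

end Pool.Agent.H378.SF
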