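import Mathlib

/-!
# Induction along a chain with factors of order `p`
-/

set_option autoImplicit false

open scoped Classical

noncomputable section

namespace Pool.Agent.H378.SF

variable {W : Type} [Group W] [Finite W] {p : ℕ} [hp : Fact p.Prime]

/-- a central element of order `p` modulo `T` -/
lemma next_sub {T H : Subgroup W} (hTH : T ≤ H) (hn : H ≤ Subgroup.normalizer (T : Set W))
    (hpH : ∀ x ∈ H, ∃ k : ℕ, x ^ p ^ k ∈ T) (hne : T ≠ H) :
    ∃ T' : Subgroup W, T ≤ T' ∧ T' ≤ H ∧ H ≤ Subgroup.normalizer (T' : Set W) ∧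
      Nat.card T' = p * Nat.card T ∧ ∃ x ∈ T', ∀ y ∈ T', ∃ k : ℕ, y⁻¹ * x ^ k ∈ T := by
  set S := T.subgroupOf H with hS
  have hSn : S.Normal := by
    constructor
    intro n hn' g
    rw [hS, Subgroup.mem_subgroupOf] at hn' ⊢
    exact (Subgroup.mem_normalizer_iff.mp (hn g.2) _).mp hn'
  have hQp : IsPGroup p (H ⧸ S) := by
    intro q
    obtain ⟨x, rfl⟩ := QuotientGroup.mk_surjective q
    obtain ⟨k, hk⟩ := hpH x x.2
    refine ⟨k, ?_⟩
    rw [← QuotientGroup.mk_pow, QuotientGroup.eq_one_iff, hS, Subgroup.mem_subgroupOf]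
    exact hk
  have hnt : Nontrivial (H ⧸ S) := by
    by_contra h
    rw [not_nontrivial_iff_subsingleton] at h
    apply hne
    apply le_antisymm hTH
    intro x hx
    have h1 : (QuotientGroup.mk (⟨x, hx⟩ : H) : H ⧸ S) = 1 := Subsingleton.elim _ _
    rw [QuotientGroup.eq_one_iff, hS, Subgroup.mem_subgroupOf] at h1
    exact h1
  have hc := hQp.center_nontrivial
  have hcp : IsPGroup p (Subgroup.center (H ⧸ S)) := hQp.to_subgroup _
  have hdvd : p ∣ Nat.card (Subgroup.center (H ⧸ S)) := by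
    obtain ⟨n, hn⟩ := hcp.exists_card_eq
    rw [hn]
    refine dvd_pow_self p fun h0 => ?_
    rw [h0, pow_zero] at hn
    exact (Finite.one_lt_card_iff_nontrivial.mpr hc).ne' hn
  obtain ⟨c, hc1⟩ := exists_prime_orderOf_dvd_card' p hdvd
  have hco : orderOf (c : H ⧸ S) = p := by rw [Subgroup.orderOf_coe, hc1]
  obtain ⟨x, hx⟩ := QuotientGroup.mk_surjective (c : H ⧸ S)
  have hzn : (Subgroup.zpowers (c : H ⧸ S)).Normal := by
    constructor
    intro n hn g
    have h1 : n ∈ Subgroup.center (H ⧸ S) :=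
      (Subgroup.zpowers_le.mpr c.2) hn
    rw [Subgroup.mem_center_iff] at h1
    rw [h1 g, mul_inv_cancel_right]
    exact hn
  set V : Subgroup H := (Subgroup.zpowers (c : H ⧸ S)).comap (QuotientGroup.mk' S) with hV
  have hVn : V.Normal := hzn.comap _
  have hSV : S ≤ V := by
    intro s hs
    rw [hV, Subgroup.mem_comap]
    have : QuotientGroup.mk' S s = 1 := (QuotientGroup.eq_one_iff s).mpr hs
    rw [this]
    exact Subgroup.one_mem _
  have hcardV : Nat.card V = p * Nat.card T := by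
    have h1 : V.index = (Subgroup.zpowers (c : H ⧸ S)).index :=
      Subgroup.index_comap_of_surjective _ (QuotientGroup.mk'_surjective S)
    have h2 := V.card_mul_index
    have h3 := (Subgroup.zpowers (c : H ⧸ S)).card_mul_index
    have h4 := S.card_mul_index
    have h5 : Nat.card (H ⧸ S) = S.index := rfl
    have h6 : Nat.card S = Nat.card T := Nat.card_congr (Subgroup.subgroupOfEquivOfLe hTH).toEquiv
    rw [Nat.card_zpowers, hco, h5] at h3
    rw [h1] at h2
    rw [← h3, ← h2, h6] at h4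
    have h7 : (Subgroup.zpowers (c : H ⧸ S)).index ≠ 0 := Subgroup.index_ne_zero_of_finite
    apply Nat.eq_of_mul_eq_mul_right (Nat.pos_of_ne_zero h7)
    rw [← h4]
    ring
  refine ⟨V.map H.subtype, ?_, ?_, ?_, ?_, x, ⟨x, ?_, rfl⟩, ?_⟩
  · intro t ht
    exact ⟨⟨t, hTH ht⟩, hSV (Subgroup.mem_subgroupOf.mpr ht), rfl⟩
  · rintro _ ⟨v, _, rfl⟩
    exact v.2
  · intro h hh
    rw [Subgroup.mem_normalizer_iff]
    intro n
    constructor
    · rintro ⟨v, hv, rfl⟩
      exact ⟨_, hVn.conj_mem v hv ⟨h, hh⟩, rfl⟩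
    · rintro ⟨v, hv, hvn⟩
      refine ⟨_, hVn.conj_mem v hv ⟨h, hh⟩⁻¹, ?_⟩
      change h⁻¹ * (v : W) * h⁻¹⁻¹ = n
      have : (v : W) = h * n * h⁻¹ := hvn
      rw [this]
      group
  · rw [← hcardV]
    exact Nat.card_congr (Subgroup.equivMapOfInjective V _ H.subtype_injective).toEquiv.symm
  · change x ∈ V
    rw [hV, Subgroup.mem_comap]
    change (QuotientGroup.mk x : H ⧸ S) ∈ _
    rw [hx]
    exact Subgroup.mem_zpowers _
  · rintro _ ⟨v, hv, rfl⟩
    have h1 : (QuotientGroup.mk v : H ⧸ S) ∈ Subgroup.zpowers (c : H ⧸ S) := hv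
    rw [← mem_powers_iff_mem_zpowers] at h1
    obtain ⟨k, hk⟩ := h1
    refine ⟨k, ?_⟩
    have h2 : (QuotientGroup.mk v : H ⧸ S) = QuotientGroup.mk (x ^ k) := by
      rw [QuotientGroup.mk_pow, hx]
      exact hk.symm
    have h3 : v⁻¹ * x ^ k ∈ S := QuotientGroup.eq.mp h2
    exact Subgroup.mem_subgroupOf.mp h3

/-- **Induction.** -/
theorem chain_ind {N H : Subgroup W} (hNH : N ≤ H) (hn : H ≤ Subgroup.normalizer (N : Set W))
    (hpH : ∀ x ∈ H, ∃ k : ℕ, x ^ p ^ k ∈ N) (R : Subgroup W → Prop) (h0 : R N)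
    (hstep : ∀ T₁ T₂ : Subgroup W, N ≤ T₁ → T₁ ≤ T₂ → T₂ ≤ H →
      T₂ ≤ Subgroup.normalizer (T₁ : Set W) → Nat.card T₂ = p * Nat.card T₁ →
      (∃ x ∈ T₂, ∀ y ∈ T₂, ∃ k : ℕ, y⁻¹ * x ^ k ∈ T₁) → R T₁ → R T₂) : R H := by
  have key : ∀ (n : ℕ) (T : Subgroup W), Nat.card H - Nat.card T = n → N ≤ T → T ≤ H →
      H ≤ Subgroup.normalizer (T : Set W) → R T → R H := by
    intro n
    induction n using Nat.strong_induction_on with
    | _ n ih =>
    intro T hT h1 h2 h3 h4
    by_cases hne : T = H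
    · rw [← hne]
      exact h4
    · obtain ⟨T', a1, a2, a3, a4, a5⟩ := next_sub (p := p) h2 h3 (fun x hx => by
        obtain ⟨k, hk⟩ := hpH x hx
        exact ⟨k, h1 hk⟩) hne
      have h5 := Subgroup.card_le_of_le a2
      have h6 : 0 < Nat.card T := Nat.card_pos
      have h7 := hp.out.two_le
      have h8 : Nat.card T < Nat.card T' := by nlinarith
      exact ih (Nat.card H - Nat.card T') (by omega) T' rfl (h1.trans a1) a2 a3
        (hstep T T' h1 a1 a2 (a2.trans h3) a4 a5 h4)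
  exact key _ N rfl le_rfl hNH hn h0

end Pool.Agent.H378.SF
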