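import Pool.Agent.H378.SF.Tup

/-!
# The fibre product
-/

set_option autoImplicit false
set_option linter.unusedSectionVars false
set_option linter.unusedVariables false

open scoped Classical BigOperators
open Pool.Agent.Helper884.IC Pool.Agent.Y63.AWC Pool.Agent.Y63.KR Pool.Agent.X209.EQ
open Pool.Agent.X209.PJ hiding push
open Pool.Agent.X209.DI Pool.Agent.X209.DQ Pool.Agent.H378.AC
open Pool.Agent.Y63.NV (IsClassFun IsBlock InZ centralValue redC conv)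
open Pool.Agent.Q90.WR (box box_irr box_cover box_inj)

noncomputable section

namespace Pool.Agent.H378.SF

attribute [-instance] MonoidHom.fintypeRange MonoidHom.decidableMemRange

section pat

variable {V : Type} [Group V]

/-- the representatives of the cosets -/
def cc {g : ℕ} (e : V) (k₀ k : Fin g) : V := if k = k₀ then e else 1

/-- one entry of the tuple belongs to `e D`, all the others belong to `D` -/
def Pat {g : ℕ} (D : Subgroup V) (e : V) (k₀ : Fin g) (x : Fin g × Bool → V) : Prop :=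
  (∀ k, (cc e k₀ k)⁻¹ * x (k, false) ∈ D) ∧ ∀ k, x (k, true) ∈ D

lemma Pat.mem {g : ℕ} {D U : Subgroup V} {e : V} {k₀ : Fin g} {x : Fin g × Bool → V}
    (h : Pat D e k₀ x) (hD : D ≤ U) (he : e ∈ U) (i : Fin g × Bool) : x i ∈ U := by
  obtain ⟨k, b⟩ := i
  cases b
  · have h1 := hD (h.1 k)
    have h2 : cc e k₀ k ∈ U := by
      unfold cc
      split_ifs
      · exact he
      · exact U.one_mem
    have := U.mul_mem h2 h1
    rwa [mul_inv_cancel_left] at this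
  · exact hD (h.2 k)

lemma Pat.mul {g : ℕ} {D G : Subgroup V} {e : V} {k₀ : Fin g} {x y : Fin g × Bool → V}
    (h : Pat D e k₀ x) (hG : G ≤ D) (hxy : ∀ i, (x i)⁻¹ * y i ∈ G) : Pat D e k₀ y := by
  refine ⟨fun k => ?_, fun k => ?_⟩
  · have := D.mul_mem (h.1 k) (hG (hxy (k, false)))
    have e1 : (cc e k₀ k)⁻¹ * x (k, false) * ((x (k, false))⁻¹ * y (k, false)) =
      (cc e k₀ k)⁻¹ * y (k, false) := by group
    rwa [e1] at this
  · have := D.mul_mem (h.2 k) (hG (hxy (k, true)))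
    rwa [mul_inv_cancel_left] at this

variable {F : Type} [Field F] (red : integralClosure ℤ ℂ →+* F)

/-- the function of the stabilisers -/
def Phi [Finite V] (p : ℕ) {g : ℕ} (D M : Subgroup V) (e : V) (k₀ : Fin g)
    (Z : Set ((V → F) × F)) (S : Subgroup V) : ℂ :=
  ∑ x : Fin g × Bool → V, if (∀ i, x i ∈ S) ∧ Pat D e k₀ x then
    FF red p (2 * g - 2) Z (S ⊓ M) (ww (wd' g) x) else 0

variable [Finite V] {p : ℕ} [hp : Fact p.Prime] [CharP F p]

/-- **The sum for the whole group vanishes.** -/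
theorem phi_zero {g : ℕ} (hg : 0 < g) {D M : Subgroup V} (hT : TT p red D) {e : V}
    (he : e ∈ Subgroup.normalizer (D : Set V)) (k₀ : Fin g) (hMD : M ≤ D)
    (hn : D ≤ Subgroup.normalizer (M : Set V)) (hpD : ∀ x ∈ D, ∃ k : ℕ, x ^ p ^ k ∈ M)
    {Z : Set ((V → F) × F)} (hZ : Zok Z M D)
    (h : ∀ θ : M → ℂ, IsIrrChar θ → Cd red Z M θ → dfc p θ ≠ 0) :
    CS p D (Phi red p D M e k₀ Z) = 0 := by
  have h1 := blk (p := p) red hT he hZ.conj (dz_down red hMD hn hpD hZ h)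
    ((p : ℂ) ^ (2 * g - 2))
  rw [← h1]
  refine cs_congr D fun S => ?_
  have hff : ∀ y, FF red p (2 * g - 2) Z (S ⊓ M) y = FF red p (2 * g - 2) Z (S ⊓ D) y := by
    intro y
    have hle : S ⊓ M ≤ S ⊓ D := inf_le_inf_left _ hMD
    rw [ff_eq red (2 * g - 2) hle (N := S ⊓ M) (H := S ⊓ D) ?_ ?_ ?_ y]
    · split_ifs with hy
      · rfl
      · unfold FF
        rw [dif_neg hy]
    · intro s hs
      rw [Subgroup.mem_normalizer_iff]
      intro x
      have h3 := Subgroup.mem_normalizer_iff.mp (hn hs.2) x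
      rw [Subgroup.mem_inf, Subgroup.mem_inf, ← h3]
      refine and_congr_left fun _ => ?_
      constructor
      · intro hx
        exact S.mul_mem (S.mul_mem hs.1 hx) (S.inv_mem hs.1)
      · intro hx
        have := S.mul_mem (S.mul_mem (S.inv_mem hs.1) hx) hs.1
        have e1 : s⁻¹ * (s * x * s⁻¹) * s = x := by group
        rwa [e1] at this
    · intro x hx
      obtain ⟨k, hk⟩ := hpD x hx.2
      exact ⟨k, S.pow_mem hx.1 _, hk⟩
    · exact ⟨fun z hz s hs x => hZ.conj z hz s hs.2 x, fun z hz x hx hxM =>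
        hZ.supp z hz x hx.2 fun h2 => hxM ⟨hx.1, h2⟩⟩
  unfold Phi
  have h2 := ev' red (p := p) (Z := Z) (S := S) (K := D) hg (c := cc e k₀) (by
    intro k
    unfold cc
    split_ifs
    · exact he
    · exact Subgroup.one_mem _)
  have h3 : ∑ x : Fin g × Bool → V, (if (∀ i, x i ∈ S) ∧ Pat D e k₀ x then
      FF red p (2 * g - 2) Z (S ⊓ M) (ww (wd' g) x) else 0) =
      ∑ x : Fin g × Bool → V, (if (∀ i, x i ∈ S) ∧ ((∀ k, (cc e k₀ k)⁻¹ * x (k, false) ∈ D) ∧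
        ∀ k, x (k, true) ∈ D) then FF red p (2 * g - 2) Z (S ⊓ D) (ww (wd' g) x) else 0) := by
    refine Finset.sum_congr rfl fun x _ => ?_
    rw [hff]
    exact if_congr Iff.rfl rfl rfl
  rw [h3, h2]
  congr 1
  refine Finset.sum_congr ?_ fun _ _ => rfl
  refine Finset.filter_congr fun χ _ => and_congr_right fun _ => ?_
  constructor
  · intro h4
    have h5 := h4 k₀
    unfold cc at h5
    rwa [if_pos rfl] at h5
  · intro h4 k
    by_cases hk : k = k₀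
    · rw [hk]
      unfold cc
      rwa [if_pos rfl]
    · refine ⟨1, S.one_mem, ?_, ?_⟩
      · unfold cc
        rw [if_neg hk, inv_one, one_mul]
        exact D.one_mem
      · intro x y hxy
        rw [one_mul, inv_one, mul_one] at hxy
        rw [Subtype.ext hxy]

/-- the sum over the chains of `M` -/
lemma phi_as {g : ℕ} (D M : Subgroup V) (e : V) (k₀ : Fin g) (Z : Set ((V → F) × F)) :
    CS p M (Phi red p D M e k₀ Z) = ∑ x : Fin g × Bool → V, if Pat D e k₀ x then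
      As red p (2 * g - 2) (wd' g) Z M x else 0 := by
  unfold Phi
  rw [cs_sum]
  refine Finset.sum_congr rfl fun x _ => ?_
  unfold As
  rw [← cs_ite]
  refine cs_congr M fun S => ?_
  by_cases c1 : Pat D e k₀ x
  · by_cases c2 : ∀ i, x i ∈ S
    · rw [if_pos ⟨c2, c1⟩, if_pos c1, if_pos c2]
    · rw [if_neg (fun h => c2 h.1), if_pos c1, if_neg c2]
  · rw [if_neg (fun h => c1 h.2), if_neg c1]

/-- the sums for the complements -/
lemma phi_L {g : ℕ} (D M : Subgroup V) (e : V) (k₀ : Fin g) (Z : Set ((V → F) × F))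
    {M' L : Subgroup V} (hL : M' = M ⊓ L) :
    CS p M' (fun S => Phi red p D M e k₀ Z (S ⊓ L)) = ∑ x : Fin g × Bool → V,
      if Pat D e k₀ x ∧ ∀ i, x i ∈ L then As red p (2 * g - 2) (wd' g) Z M' x else 0 := by
  unfold Phi
  rw [cs_sum]
  refine Finset.sum_congr rfl fun x _ => ?_
  unfold As
  rw [← cs_ite]
  refine cs_congr M' fun S => ?_
  have h1 : S ⊓ L ⊓ M = S ⊓ M' := by
    rw [hL, inf_assoc, inf_comm L M]
  rw [h1]
  by_cases c1 : Pat D e k₀ x ∧ ∀ i, x i ∈ L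
  · by_cases c2 : ∀ i, x i ∈ S
    · rw [if_pos ⟨fun i => ⟨c2 i, c1.2 i⟩, c1.1⟩, if_pos c1, if_pos c2]
    · rw [if_neg (fun h => c2 fun i => (h.1 i).1), if_pos c1, if_neg c2]
  · rw [if_neg (fun h => c1 ⟨h.2, fun i => (h.1 i).2⟩), if_neg c1]

end pat

section delta

variable {W : Type} [Group W]

/-- the fibre product of `K` with itself over `K/G` -/
def DK (G K : Subgroup W) (h : K ≤ Subgroup.normalizer (G : Set W)) : Subgroup (W × W) where
  carrier := {x | x.1 ∈ K ∧ x.2 ∈ K ∧ x.1⁻¹ * x.2 ∈ G}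
  one_mem' := ⟨K.one_mem, K.one_mem, by
    change (1 : W)⁻¹ * 1 ∈ G
    rw [inv_one, one_mul]
    exact G.one_mem⟩
  mul_mem' := by
    rintro ⟨a, b⟩ ⟨c, d⟩ ⟨h1, h2, h3⟩ ⟨h4, h5, h6⟩
    refine ⟨K.mul_mem h1 h4, K.mul_mem h2 h5, ?_⟩
    change (a * c)⁻¹ * (b * d) ∈ G
    have h7 := (Subgroup.mem_normalizer_iff.mp (h (K.inv_mem h4)) (a⁻¹ * b)).mp h3
    have h8 := G.mul_mem h7 h6
    have e : c⁻¹ * (a⁻¹ * b) * c⁻¹⁻¹ * (c⁻¹ * d) = (a * c)⁻¹ * (b * d) := by group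
    rwa [e] at h8
  inv_mem' := by
    rintro ⟨a, b⟩ ⟨h1, h2, h3⟩
    refine ⟨K.inv_mem h1, K.inv_mem h2, ?_⟩
    change (a⁻¹)⁻¹ * b⁻¹ ∈ G
    have h7 := (Subgroup.mem_normalizer_iff.mp (h h1) (a⁻¹ * b)⁻¹).mp (G.inv_mem h3)
    have e : a * (a⁻¹ * b)⁻¹ * a⁻¹ = (a⁻¹)⁻¹ * b⁻¹ := by group
    rwa [e] at h7

lemma mem_DK {G K : Subgroup W} {h : K ≤ Subgroup.normalizer (G : Set W)} {a b : W} :
    (a, b) ∈ DK G K h ↔ a ∈ K ∧ b ∈ K ∧ a⁻¹ * b ∈ G := Iff.rfl

lemma prod_le_DK {G K : Subgroup W} {h : K ≤ Subgroup.normalizer (G : Set W)} (hGK : G ≤ K) :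
    G.prod G ≤ DK G K h := by
  rintro ⟨a, b⟩ hx
  rw [Subgroup.mem_prod] at hx
  exact mem_DK.mpr ⟨hGK hx.1, hGK hx.2, G.mul_mem (G.inv_mem hx.1) hx.2⟩

lemma norm_prod {G N : Subgroup W} (h : N ≤ Subgroup.normalizer (G : Set W)) :
    N.prod N ≤ Subgroup.normalizer ((G.prod G : Subgroup (W × W)) : Set (W × W)) := by
  rintro ⟨a, b⟩ hx
  rw [Subgroup.mem_prod] at hx
  rw [Subgroup.mem_normalizer_iff]
  rintro ⟨c, d⟩
  change (c, d) ∈ G.prod G ↔ (a * c * a⁻¹, b * d * b⁻¹) ∈ G.prod G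
  rw [Subgroup.mem_prod, Subgroup.mem_prod]
  exact and_congr (Subgroup.mem_normalizer_iff.mp (h hx.1) c)
    (Subgroup.mem_normalizer_iff.mp (h hx.2) d)

lemma norm_DK {G K : Subgroup W} {h : K ≤ Subgroup.normalizer (G : Set W)} {e : W}
    (heG : e ∈ Subgroup.normalizer (G : Set W)) (heK : e ∈ Subgroup.normalizer (K : Set W)) :
    (e, e) ∈ Subgroup.normalizer ((DK G K h : Subgroup (W × W)) : Set (W × W)) := by
  rw [Subgroup.mem_normalizer_iff]
  rintro ⟨c, d⟩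
  change (c, d) ∈ DK G K h ↔ (e * c * e⁻¹, e * d * e⁻¹) ∈ DK G K h
  rw [mem_DK, mem_DK]
  have e1 : (e * c * e⁻¹)⁻¹ * (e * d * e⁻¹) = e * (c⁻¹ * d) * e⁻¹ := by group
  rw [e1]
  exact and_congr (Subgroup.mem_normalizer_iff.mp heK c)
    (and_congr (Subgroup.mem_normalizer_iff.mp heK d) (Subgroup.mem_normalizer_iff.mp heG _))

lemma pow_DK {p : ℕ} {G K : Subgroup W} {h : K ≤ Subgroup.normalizer (G : Set W)}
    (hp : ∀ x ∈ K, ∃ k : ℕ, x ^ p ^ k ∈ G) : ∀ x ∈ DK G K h, ∃ k : ℕ, x ^ p ^ k ∈ G.prod G := by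
  rintro ⟨a, b⟩ hx
  obtain ⟨k, hk⟩ := hp a hx.1
  obtain ⟨l, hl⟩ := hp b hx.2.1
  refine ⟨k + l, ?_⟩
  rw [Prod.pow_mk, Subgroup.mem_prod]
  constructor
  · change a ^ p ^ (k + l) ∈ G
    rw [pow_add, pow_mul]
    exact G.pow_mem hk _
  · change b ^ p ^ (k + l) ∈ G
    rw [pow_add, mul_comm, pow_mul]
    exact G.pow_mem hl _

variable {F : Type} [Field F] (red : integralClosure ℤ ℂ →+* F) [Finite W] {p : ℕ}

/-- no characters of defect zero in the direct product -/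
lemma dz_prod {G : Subgroup W} {Z : Set ((W → F) × F)}
    (hZ : ∀ z ∈ Z, ∀ h ∈ G, ∀ x, z.1 (h * x * h⁻¹) = z.1 x)
    (hZ' : ∀ z ∈ Zd Z, ∀ h ∈ G, ∀ x, z.1 (h * x * h⁻¹) = z.1 x)
    (hD : ∀ θ : G → ℂ, IsIrrChar θ → Cd red Z G θ → dfc p θ ≠ 0) :
    ∀ θ : ↥(G.prod G : Subgroup (W × W)) → ℂ, IsIrrChar θ → Cd red (Zp Z (Zd Z)) (G.prod G) θ →
      dfc p θ ≠ 0 := by
  intro χ hχ hC h0
  have : Fintype G := Fintype.ofFinite G
  have h1 := irr_comp (G.prodEquiv G).symm hχ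
  obtain ⟨θ, ψ, h2, h3, h4⟩ := box_cover h1
  have h5 : χ = fun x => box θ ψ (G.prodEquiv G x) := by
    funext x
    rw [← h4]
    simp
  rw [h5] at hC h0
  have h6 := (cd_prod red hZ hZ' h2 h3).mp hC
  have h7 := dfc_comp (p := p) (G.prodEquiv G) (box_irr h2 h3)
  rw [h7, dfc_box h2 h3] at h0
  exact hD θ h2 h6.1 (by omega)

end delta

end Pool.Agent.H378.SF
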