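import Pool.Agent.H378.SF.Ff
import Pool.Graph.R_pool_sql_team_seeded_620a6dc7.H297.WP.B2
import Pool.Graph.R_seed8.Q90.WR.Dad

/-!
# Dual characters and direct products
-/

set_option autoImplicit false
set_option linter.unusedSectionVars false
set_option linter.unusedVariables false

open scoped Classical BigOperators
open Pool.Agent.Helper884.IC Pool.Agent.Y63.AWC Pool.Agent.Y63.KR Pool.Agent.X209.EQ
open Pool.Agent.X209.PJ hiding push
open Pool.Agent.X209.DI Pool.Agent.X209.DQ Pool.Agent.H378.AC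
open Pool.Agent.Y63.NV (IsClassFun IsBlock InZ centralValue redC conv)
open Pool.Agent.Q90.WR (irr_of_norm B_nat deg_pos box box_irr box_cover box_inj sum_Irr_prod B_box)

noncomputable section

namespace Pool.Agent.H378.SF

section dual

variable {G : Type} [Group G] [Finite G]

theorem irr_inv {χ : G → ℂ} (h : IsIrrChar χ) : IsIrrChar (fun x => χ x⁻¹) := by
  have : Fintype G := Fintype.ofFinite G
  have hB : ∀ f g : G → ℂ, B (fun x => f x⁻¹) (fun x => g x⁻¹) = B f g := by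
    intro f g
    unfold B
    congr 1
    exact Fintype.sum_equiv (Equiv.inv G) _ _ fun x => rfl
  refine irr_of_norm ?_ ?_ ?_ ?_
  · intro g y
    have := h.isClass g⁻¹ y
    change χ (y * g * y⁻¹)⁻¹ = χ g⁻¹
    rw [← this]
    congr 1
    group
  · intro ψ hψ
    obtain ⟨V₁, _, _, _, ρ₁, _, rfl⟩ := id h
    obtain ⟨V, _, _, _, σ, _, rfl⟩ := hψ
    obtain ⟨n, hn⟩ := B_nat (Representation.dual ρ₁) σ
    refine ⟨n, ?_⟩
    rw [Int.cast_natCast, ← hn]
    congr 1
    funext x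
    exact (Representation.char_dual ρ₁ x).symm
  · rw [hB, B_irr h h, if_pos rfl]
  · obtain ⟨m, -, hm⟩ := deg_pos h
    exact ⟨m, by rw [inv_one, hm]⟩

/-- the classes of the inverses -/
def ccInv (G : Type) [Group G] : ConjClasses G ≃ ConjClasses G where
  toFun := Quotient.map (fun x => x⁻¹) (fun a b (h : IsConj a b) => by
    obtain ⟨c, hc⟩ := isConj_iff.1 h
    exact isConj_iff.2 ⟨c, by rw [← hc]; group⟩)
  invFun := Quotient.map (fun x => x⁻¹) (fun a b (h : IsConj a b) => by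
    obtain ⟨c, hc⟩ := isConj_iff.1 h
    exact isConj_iff.2 ⟨c, by rw [← hc]; group⟩)
  left_inv C := by
    obtain ⟨x, rfl⟩ := ConjClasses.exists_rep C
    change ConjClasses.mk (x⁻¹⁻¹) = ConjClasses.mk x
    rw [inv_inv]
  right_inv C := by
    obtain ⟨x, rfl⟩ := ConjClasses.exists_rep C
    change ConjClasses.mk (x⁻¹⁻¹) = ConjClasses.mk x
    rw [inv_inv]

lemma ccInv_mk (x : G) : ccInv G (ConjClasses.mk x) = ConjClasses.mk x⁻¹ := rfl

lemma ccInv_out (C : ConjClasses G) : IsConj C.out⁻¹ (ccInv G C).out := by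
  have h1 : ConjClasses.mk ((ccInv G C).out) = ccInv G C := Quotient.out_eq _
  have h2 : ConjClasses.mk (C.out) = C := Quotient.out_eq _
  have h3 : ConjClasses.mk (C.out⁻¹) = ccInv G C := by
    rw [← ccInv_mk, h2]
  exact ConjClasses.mk_eq_mk_iff_isConj.1 (h3.trans h1.symm)

lemma ccInv_card (C : ConjClasses G) :
    Nat.card C.carrier = Nat.card (ccInv G C).carrier := by
  refine Nat.card_congr ((Equiv.inv G).subtypeEquiv fun x => ?_)
  change x ∈ C.carrier ↔ x⁻¹ ∈ (ccInv G C).carrier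
  rw [ConjClasses.mem_carrier_iff_mk_eq, ConjClasses.mem_carrier_iff_mk_eq, ← ccInv_mk]
  exact (ccInv G).injective.eq_iff.symm

theorem cv_inv {F : Type} [Field F] (red : integralClosure ℤ ℂ →+* F) {χ : G → ℂ}
    (hχ : IsIrrChar χ) {f : G → F} (hf : IsClassFun f) :
    centralValue red (fun x => χ x⁻¹) f = centralValue red χ (fun x => f x⁻¹) := by
  have : Fintype G := Fintype.ofFinite G
  unfold centralValue
  rw [← finsum_comp_equiv (ccInv G)]
  refine finsum_congr fun C => ?_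
  have h0 := ccInv_out C
  have h0' : IsConj C.out (ccInv G C).out⁻¹ := by
    obtain ⟨c, hc⟩ := isConj_iff.1 h0
    exact isConj_iff.2 ⟨c, by rw [← hc]; group⟩
  have h1 : f (ccInv G C).out = f C.out⁻¹ := (Pool.Agent.Y624.NV.class_isConj hf h0).symm
  have h2 : χ (ccInv G C).out⁻¹ = χ C.out :=
    (Pool.Agent.Y624.NV.class_isConj (fun g x => hχ.isClass x g) h0').symm
  simp only []
  rw [h1, h2, ← ccInv_card C, inv_one]

lemma star_irr {χ : G → ℂ} (h : IsIrrChar χ) (g : G) : χ g⁻¹ = (starRingEnd ℂ) (χ g) := by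
  have : Fintype G := Fintype.ofFinite G
  exact Pool.Agent.Y62.conj_char h g

end dual

section prodg

variable {A B' : Type} [Group A] [Group B'] [Finite A] [Finite B']

lemma dg_box {θ : A → ℂ} {ψ : B' → ℂ} (h1 : IsIrrChar θ) (h2 : IsIrrChar ψ) :
    dg (box θ ψ) = dg θ * dg ψ := by
  have : Fintype A := Fintype.ofFinite A
  have : Fintype B' := Fintype.ofFinite B'
  have e1 := (dg_spec (box_irr h1 h2)).1
  have e2 := (dg_spec h1).1
  have e3 := (dg_spec h2).1
  have e4 : (dg (box θ ψ) : ℂ) = ((dg θ * dg ψ : ℕ) : ℂ) := by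
    rw [← e1]
    push_cast
    rw [← e2, ← e3]
    rfl
  exact_mod_cast e4

lemma dfc_box {p : ℕ} {θ : A → ℂ} {ψ : B' → ℂ} (h1 : IsIrrChar θ) (h2 : IsIrrChar ψ) :
    dfc p (box θ ψ) = dfc p θ + dfc p ψ := by
  have : Fintype A := Fintype.ofFinite A
  have : Fintype B' := Fintype.ofFinite B'
  unfold dfc
  rw [dg_box h1 h2, Nat.card_prod, Nat.factorization_mul Nat.card_pos.ne' Nat.card_pos.ne',
    Nat.factorization_mul (dg_spec h1).2.ne' (dg_spec h2).2.ne', Finsupp.add_apply,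
    Finsupp.add_apply]
  have h3 := dg_le (p := p) h1
  have h4 := dg_le (p := p) h2
  omega

lemma rr_box {p : ℕ} {θ : A → ℂ} {ψ : B' → ℂ} (h1 : IsIrrChar θ) (h2 : IsIrrChar ψ) :
    rr p (box θ ψ) = rr p θ * rr p ψ := by
  unfold rr
  rw [dfc_box h1 h2, dg_box h1 h2, Nat.card_prod, pow_add]
  push_cast
  have hA : (Nat.card A : ℂ) ≠ 0 := by exact_mod_cast Nat.card_pos.ne'
  have hB : (Nat.card B' : ℂ) ≠ 0 := by exact_mod_cast Nat.card_pos.ne'
  field_simp

lemma dg_comp (e : A ≃* B') {χ : B' → ℂ} (h : IsIrrChar χ) : dg (fun x => χ (e x)) = dg χ := by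
  have : Fintype A := Fintype.ofFinite A
  have : Fintype B' := Fintype.ofFinite B'
  have h1 := (dg_spec (irr_comp e h)).1
  have h2 := (dg_spec h).1
  have h3 : ((dg (fun x => χ (e x)) : ℕ) : ℂ) = (dg χ : ℂ) := by
    rw [← h1, ← h2, map_one]
  exact_mod_cast h3

lemma dfc_comp {p : ℕ} (e : A ≃* B') {χ : B' → ℂ} (h : IsIrrChar χ) :
    dfc p (fun x => χ (e x)) = dfc p χ := by
  unfold dfc
  rw [dg_comp e h, Nat.card_congr e.toEquiv]

lemma rr_comp {p : ℕ} (e : A ≃* B') {χ : B' → ℂ} (h : IsIrrChar χ) :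
    rr p (fun x => χ (e x)) = rr p χ := by
  unfold rr
  rw [dfc_comp e h, dg_comp e h, Nat.card_congr e.toEquiv]

variable {F : Type} [Field F] (red : integralClosure ℤ ℂ →+* F)

/-- the delta function -/
def dl {A : Type} [Group A] (F : Type) [Field F] (x : A) : F := if x = 1 then 1 else 0

lemma dl_iff {A A' : Type} [Group A] [Group A'] {x : A} {y : A'} (h : x = 1 ↔ y = 1) :
    dl F x = dl F y := by
  unfold dl
  simp only [h]

lemma cv_one {χ : A → ℂ} (h : IsIrrChar χ) :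
    centralValue red χ (fun x => dl F x) = 1 := by
  have : Fintype A := Fintype.ofFinite A
  have h1 := (Pool.Agent.Y930.NV.cvh F red A _ h).one
  have e : (fun x : A => dl F x) = Pi.single 1 1 := by
    funext x
    unfold dl
    rw [Pi.single_apply]
  rw [e]
  exact h1

lemma cf_one {A : Type} [Group A] : IsClassFun (fun x : A => dl F x) := by
  intro g x
  refine dl_iff ?_
  rw [mul_inv_eq_one]
  exact mul_eq_left

lemma cv_box_left {θ : A → ℂ} {ψ : B' → ℂ} (h1 : IsIrrChar θ) (h2 : IsIrrChar ψ) {z : A → F}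
    (hz : IsClassFun z) :
    centralValue red (box θ ψ) (fun x => z x.1 * dl F x.2) =
      centralValue red θ z := by
  have : Fintype A := Fintype.ofFinite A
  have : Fintype B' := Fintype.ofFinite B'
  have h := Pool.Agent.H297.WP.cvalue_ten red h1 h2 hz (cf_one (F := F) (A := B'))
  rw [cv_one red h2, mul_one] at h
  exact h

lemma cv_box_right {θ : A → ℂ} {ψ : B' → ℂ} (h1 : IsIrrChar θ) (h2 : IsIrrChar ψ) {z : B' → F}
    (hz : IsClassFun z) :
    centralValue red (box θ ψ) (fun x => dl F x.1 * z x.2) =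
      centralValue red ψ z := by
  have : Fintype A := Fintype.ofFinite A
  have : Fintype B' := Fintype.ofFinite B'
  have h := Pool.Agent.H297.WP.cvalue_ten red h1 h2 (cf_one (F := F) (A := A)) hz
  rw [cv_one red h1, one_mul] at h
  exact h

end prodg

section ffprod

variable {F : Type} [Field F] (red : integralClosure ℤ ℂ →+* F) {Y Y' : Type} [Group Y]
  [Group Y'] [Finite Y] [Finite Y'] {p : ℕ}

/-- the functions on the direct product -/
def Zp (Z₁ : Set ((Y → F) × F)) (Z₂ : Set ((Y' → F) × F)) : Set ((Y × Y' → F) × F) :=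
  {w | (∃ z ∈ Z₁, w = (fun x => z.1 x.1 * dl F x.2, z.2)) ∨
    ∃ z ∈ Z₂, w = (fun x => dl F x.1 * z.1 x.2, z.2)}

lemma cd_prod {Z₁ : Set ((Y → F) × F)} {Z₂ : Set ((Y' → F) × F)} {T₁ : Subgroup Y}
    {T₂ : Subgroup Y'} (hZ₁ : ∀ z ∈ Z₁, ∀ h ∈ T₁, ∀ x, z.1 (h * x * h⁻¹) = z.1 x)
    (hZ₂ : ∀ z ∈ Z₂, ∀ h ∈ T₂, ∀ x, z.1 (h * x * h⁻¹) = z.1 x) {θ : T₁ → ℂ} {ψ : T₂ → ℂ}
    (h1 : IsIrrChar θ) (h2 : IsIrrChar ψ) :
    Cd red (Zp Z₁ Z₂) (T₁.prod T₂) (fun x => box θ ψ (T₁.prodEquiv T₂ x)) ↔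
      Cd red Z₁ T₁ θ ∧ Cd red Z₂ T₂ ψ := by
  have : Fintype T₁ := Fintype.ofFinite _
  have : Fintype T₂ := Fintype.ofFinite _
  have hb := box_irr h1 h2
  have e1 : ∀ z ∈ Z₁, centralValue red (fun x => box θ ψ (T₁.prodEquiv T₂ x))
      (fun t : (T₁.prod T₂ : Subgroup (Y × Y')) =>
        (fun x : Y × Y' => z.1 x.1 * dl F x.2) t) =
      centralValue red θ (fun t : T₁ => z.1 t) := by
    intro z hz
    have hc : IsClassFun (fun t : T₁ => z.1 t) := fun g x => hZ₁ z hz g g.2 x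
    have e3 := Pool.Agent.Y624.NV.centralValue_comp red
      (T₁.prodEquiv T₂) hb (f := fun x : T₁ × T₂ => z.1 x.1 * dl F x.2) (by
        rintro ⟨g, g'⟩ ⟨x, x'⟩
        have h5 := hc g x
        have h6 := cf_one (F := F) g' x'
        change z.1 ((g * x * g⁻¹ : T₁) : Y) * dl F (g' * x' * g'⁻¹) = z.1 (x : Y) * dl F x'
        simp only at h5 h6
        rw [h5, h6])
    refine Eq.trans ?_ (e3.trans (cv_box_left red h1 h2 hc))
    congr 1
    funext t
    have h3 : ((T₁.prodEquiv T₂ t).1 : Y) = (t : Y × Y').1 := rfl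
    have h4 : dl F (T₁.prodEquiv T₂ t).2 = dl F (t : Y × Y').2 := by
      refine dl_iff ?_
      rw [Subtype.ext_iff]
      rfl
    simp only [h3, h4]
  have e2 : ∀ z ∈ Z₂, centralValue red (fun x => box θ ψ (T₁.prodEquiv T₂ x))
      (fun t : (T₁.prod T₂ : Subgroup (Y × Y')) =>
        (fun x : Y × Y' => dl F x.1 * z.1 x.2) t) =
      centralValue red ψ (fun t : T₂ => z.1 t) := by
    intro z hz
    have hc : IsClassFun (fun t : T₂ => z.1 t) := fun g x => hZ₂ z hz g g.2 x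
    have e3 := Pool.Agent.Y624.NV.centralValue_comp red
      (T₁.prodEquiv T₂) hb (f := fun x : T₁ × T₂ => dl F x.1 * z.1 x.2) (by
        rintro ⟨g, g'⟩ ⟨x, x'⟩
        have h5 := hc g' x'
        have h6 := cf_one (F := F) g x
        change dl F (g * x * g⁻¹) * z.1 ((g' * x' * g'⁻¹ : T₂) : Y') = dl F x * z.1 (x' : Y')
        simp only at h5 h6
        rw [h5, h6])
    refine Eq.trans ?_ (e3.trans (cv_box_right red h1 h2 hc))
    congr 1
    funext t
    have h3 : ((T₁.prodEquiv T₂ t).2 : Y') = (t : Y × Y').2 := rfl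
    have h4 : dl F (T₁.prodEquiv T₂ t).1 = dl F (t : Y × Y').1 := by
      refine dl_iff ?_
      rw [Subtype.ext_iff]
      rfl
    simp only [h3, h4]
  constructor
  · intro h
    refine ⟨fun z hz => ?_, fun z hz => ?_⟩
    · rw [← e1 z hz]
      exact h _ (Or.inl ⟨z, hz, rfl⟩)
    · rw [← e2 z hz]
      exact h _ (Or.inr ⟨z, hz, rfl⟩)
  · rintro ⟨h3, h4⟩ _ (⟨z, hz, rfl⟩ | ⟨z, hz, rfl⟩)
    · rw [e1 z hz]
      exact h3 z hz
    · rw [e2 z hz]
      exact h4 z hz

/-- **The function of a direct product.** -/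
theorem ff_prod (m : ℕ) {Z₁ : Set ((Y → F) × F)} {Z₂ : Set ((Y' → F) × F)} {T₁ : Subgroup Y}
    {T₂ : Subgroup Y'} (hZ₁ : ∀ z ∈ Z₁, ∀ h ∈ T₁, ∀ x, z.1 (h * x * h⁻¹) = z.1 x)
    (hZ₂ : ∀ z ∈ Z₂, ∀ h ∈ T₂, ∀ x, z.1 (h * x * h⁻¹) = z.1 x) (y : Y × Y') :
    FF red p m (Zp Z₁ Z₂) (T₁.prod T₂) y = FF red p m Z₁ T₁ y.1 * FF red p m Z₂ T₂ y.2 := by
  have : Fintype T₁ := Fintype.ofFinite _
  have : Fintype T₂ := Fintype.ofFinite _
  have : Fintype (T₁.prod T₂ : Subgroup (Y × Y')) := Fintype.ofFinite _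
  unfold FF
  by_cases hy1 : y.1 ∈ T₁
  · by_cases hy2 : y.2 ∈ T₂
    · rw [dif_pos (Subgroup.mem_prod.mpr ⟨hy1, hy2⟩), dif_pos hy1, dif_pos hy2,
        Finset.sum_filter, Finset.sum_filter, Finset.sum_filter, IrF_eq, IrF_eq, IrF_eq,
        Finset.sum_mul_sum, ← Finset.sum_product']
      symm
      refine Finset.sum_bij (fun t _ => fun x => box t.1 t.2 (T₁.prodEquiv T₂ x)) ?_ ?_ ?_ ?_
      · intro t ht
        rw [Finset.mem_product, mem_Irr, mem_Irr] at ht
        exact mem_Irr.mpr (irr_comp _ (box_irr ht.1 ht.2))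
      · intro t ht u hu h
        rw [Finset.mem_product, mem_Irr, mem_Irr] at ht hu
        have h1 : box t.1 t.2 = box u.1 u.2 := by
          funext x
          have := congrFun h ((T₁.prodEquiv T₂).symm x)
          simpa using this
        have := box_inj ht.1 ht.2 hu.1 hu.2 h1
        exact Prod.ext this.1 this.2
      · intro χ hχ
        have h1 := irr_comp (T₁.prodEquiv T₂).symm (mem_Irr.mp hχ)
        obtain ⟨θ, ψ, h2, h3, h4⟩ := box_cover h1
        refine ⟨(θ, ψ), Finset.mem_product.mpr ⟨mem_Irr.mpr h2, mem_Irr.mpr h3⟩, ?_⟩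
        funext x
        rw [← h4]
        simp
      · intro t ht
        rw [Finset.mem_product, mem_Irr, mem_Irr] at ht
        have h1 := cd_prod red hZ₁ hZ₂ ht.1 ht.2
        have h2 := rr_comp (p := p) (T₁.prodEquiv T₂) (box_irr ht.1 ht.2)
        have hc : Nat.card (T₁.prod T₂ : Subgroup (Y × Y')) = Nat.card T₁ * Nat.card T₂ := by
          rw [Nat.card_congr (T₁.prodEquiv T₂).toEquiv, Nat.card_prod]
        have hA : (Nat.card T₁ : ℂ) ≠ 0 := by exact_mod_cast Nat.card_pos.ne'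
        have hB : (Nat.card T₂ : ℂ) ≠ 0 := by exact_mod_cast Nat.card_pos.ne'
        by_cases c1 : Cd red Z₁ T₁ t.1
        · by_cases c2 : Cd red Z₂ T₂ t.2
          · rw [if_pos c1, if_pos c2, if_pos (h1.mpr ⟨c1, c2⟩), h2, rr_box ht.1 ht.2, hc]
            have h3 : box t.1 t.2 ((T₁.prodEquiv T₂) 1) = t.1 1 * t.2 1 := by
              rw [map_one]
              rfl
            have h4 : box t.1 t.2 ((T₁.prodEquiv T₂) ⟨y, Subgroup.mem_prod.mpr ⟨hy1, hy2⟩⟩) =
              t.1 ⟨y.1, hy1⟩ * t.2 ⟨y.2, hy2⟩ := rfl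
            simp only [h3, h4]
            push_cast
            field_simp
            ring
          · rw [if_neg c2, if_neg (fun h => c2 (h1.mp h).2), mul_zero]
        · rw [if_neg c1, if_neg (fun h => c1 (h1.mp h).1), zero_mul]
    · rw [dif_neg (fun h => hy2 (Subgroup.mem_prod.mp h).2), dif_neg hy2, mul_zero]
  · rw [dif_neg (fun h => hy1 (Subgroup.mem_prod.mp h).1), dif_neg hy1, zero_mul]

/-- the dual family -/
def Zd (Z : Set ((Y → F) × F)) : Set ((Y → F) × F) :=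
  (fun z : (Y → F) × F => (fun x => z.1 x⁻¹, z.2)) '' Z

lemma cd_dual {Z : Set ((Y → F) × F)} {T : Subgroup Y}
    (hZ : ∀ z ∈ Z, ∀ h ∈ T, ∀ x, z.1 (h * x * h⁻¹) = z.1 x) {θ : T → ℂ} (h : IsIrrChar θ) :
    Cd red (Zd Z) T θ ↔ Cd red Z T (fun x => θ x⁻¹) := by
  have key : ∀ z ∈ Z, centralValue red (fun x => θ x⁻¹) (fun t : T => z.1 t) =
      centralValue red θ (fun t : T => z.1 (t : Y)⁻¹) := by
    intro z hz
    exact cv_inv red h (fun g x => hZ z hz g g.2 x)
  constructor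
  · intro h1 z hz
    rw [key z hz]
    exact h1 _ ⟨z, hz, rfl⟩
  · rintro h1 _ ⟨z, hz, rfl⟩
    have h2 := h1 z hz
    rw [key z hz] at h2
    exact h2

theorem ff_dual (m : ℕ) {Z : Set ((Y → F) × F)} {T : Subgroup Y}
    (hZ : ∀ z ∈ Z, ∀ h ∈ T, ∀ x, z.1 (h * x * h⁻¹) = z.1 x) (y : Y) :
    FF red p m (Zd Z) T y = (starRingEnd ℂ) (FF red p m Z T y) := by
  have : Fintype T := Fintype.ofFinite _
  unfold FF
  by_cases hy : y ∈ T
  · rw [dif_pos hy, dif_pos hy, map_sum, Finset.sum_filter, Finset.sum_filter, IrF_eq]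
    refine Finset.sum_bij' (fun θ _ => fun x => θ x⁻¹) (fun θ _ => fun x => θ x⁻¹) ?_ ?_ ?_ ?_ ?_
    · intro θ hθ
      exact mem_Irr.mpr (irr_inv (mem_Irr.mp hθ))
    · intro θ hθ
      exact mem_Irr.mpr (irr_inv (mem_Irr.mp hθ))
    · intro θ _
      funext x
      simp
    · intro θ _
      funext x
      simp
    · intro θ hθ
      have h0 := mem_Irr.mp hθ
      have h1 := cd_dual red hZ h0
      have hd : dg (fun x => θ x⁻¹) = dg θ := by
        have a1 := (dg_spec (irr_inv h0)).1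
        have a2 := (dg_spec h0).1
        have a3 : ((dg (fun x => θ x⁻¹) : ℕ) : ℂ) = (dg θ : ℂ) := by
          rw [← a1, ← a2, inv_one]
        exact_mod_cast a3
      have hr : rr p (fun x => θ x⁻¹) = rr p θ := by
        unfold rr dfc
        rw [hd]
      have hrs : (starRingEnd ℂ) (rr p θ) = rr p θ := by
        unfold rr
        simp
      have h1s : (starRingEnd ℂ) (θ 1) = θ 1 := by
        rw [(dg_spec h0).1]
        simp
      by_cases c : Cd red (Zd Z) T θ
      · rw [if_pos c, if_pos (h1.mp c), hr, map_div₀, map_mul, map_mul, map_pow, hrs]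
        simp only [inv_one]
        rw [h1s, star_irr h0, Complex.conj_conj, map_natCast]
      · rw [if_neg c, if_neg (fun h => c (h1.mpr h))]
  · rw [dif_neg hy, dif_neg hy, map_zero]

end ffprod

end Pool.Agent.H378.SF
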