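import Pool.Agent.H378.SF.Ff

/-!
# Sums over tuples
-/

set_option autoImplicit false
set_option linter.unusedSectionVars false
set_option linter.unusedVariables false

open scoped Classical BigOperators
open Pool.Agent.Helper884.IC Pool.Agent.Y63.AWC Pool.Agent.Y63.KR Pool.Agent.X209.EQ
open Pool.Agent.X209.PJ hiding push
open Pool.Agent.X209.DI Pool.Agent.X209.DQ Pool.Agent.H378.AC
open Pool.Agent.Y63.NV (IsClassFun IsBlock InZ centralValue redC conv)

noncomputable section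

namespace Pool.Agent.H378.SF

section tw

variable {H : Type} [Group H]

/-- the product of the twisted commutators -/
def tw {g : ℕ} (α : Fin g → H ≃* H) (u : Fin g → H × H) : H :=
  (List.ofFn fun k => α k ((u k).1 * (u k).2 * (u k).1⁻¹) * ((u k).2)⁻¹).prod

variable [Fintype H]

lemma tw_one {χ : H → ℂ} (hχ : IsIrrChar χ) (α : H ≃* H) (w : H) :
    (∑ u : H × H, χ (w * (α (u.1 * u.2 * u.1⁻¹) * u.2⁻¹))) * (χ 1) ^ 2 =
      if (fun x => χ (α x)) = χ then (Nat.card H : ℂ) ^ 2 * χ w else 0 := by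
  have h1 : ∀ b : H, (∑ h : H, χ (w * (α (h * b * h⁻¹) * b⁻¹))) * χ 1 =
      (Nat.card H : ℂ) * (χ (b⁻¹ * w) * χ (α b)) := by
    intro b
    rw [← Pool.Agent.Q100.CQ.mul_formula hχ (b⁻¹ * w) (α b)]
    congr 1
    refine Fintype.sum_equiv α.toEquiv _ _ fun h => ?_
    have h2 := hχ.isClass (w * (α (h * b * h⁻¹) * b⁻¹)) b⁻¹
    rw [← h2]
    congr 1
    simp only [map_mul, map_inv]
    change _ = b⁻¹ * w * (α h * α b * (α h)⁻¹)
    group
  have h2 := Pool.Agent.Q100.CQ.conv_irr hχ (irr_comp α hχ) w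
  rw [Fintype.sum_prod_type_right, sq, ← mul_assoc, Finset.sum_mul]
  rw [Finset.sum_congr rfl fun b _ => h1 b, ← Finset.mul_sum]
  have h3 : ∑ b : H, χ (b⁻¹ * w) * χ (α b) = ∑ x : H, (fun x => χ (α x)) x * χ (x⁻¹ * w) :=
    Finset.sum_congr rfl fun b _ => mul_comm _ _
  rw [h3, mul_assoc, h2]
  split_ifs
  · ring
  · ring

lemma sum_fin {α R : Type} [Fintype α] [AddCommMonoid R] (n : ℕ) (f : (Fin (n + 1) → α) → R) :
    ∑ u, f u = ∑ a : α, ∑ v : Fin n → α, f (Fin.cons a v) := by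
  rw [← Fintype.sum_prod_type']
  exact (Fintype.sum_equiv (Fin.consEquiv (fun _ => α)) _ _ fun _ => rfl).symm

lemma tw_sum {χ : H → ℂ} (hχ : IsIrrChar χ) : ∀ (g : ℕ) (α : Fin g → H ≃* H) (w : H),
    (∑ u : Fin g → H × H, χ (w * tw α u)) * (χ 1) ^ (2 * g) =
      (∏ k, if (fun x => χ (α k x)) = χ then (Nat.card H : ℂ) ^ 2 else 0) * χ w := by
  intro g
  induction g with
  | zero =>
    intro α w
    simp [tw]
  | succ n ih =>
    intro α w
    rw [sum_fin, Fin.prod_univ_succ]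
    have h1 : ∀ (a : H × H) (v : Fin n → H × H), tw α (Fin.cons a v) =
        (α 0 (a.1 * a.2 * a.1⁻¹) * a.2⁻¹) * tw (fun k => α k.succ) v := by
      intro a v
      unfold tw
      rw [List.ofFn_succ, List.prod_cons]
      rfl
    have h2 : ∀ a : H × H, (∑ v : Fin n → H × H, χ (w * tw α (Fin.cons a v))) *
        (χ 1) ^ (2 * n) = (∏ k : Fin n, if (fun x => χ (α k.succ x)) = χ then
          (Nat.card H : ℂ) ^ 2 else 0) * χ (w * (α 0 (a.1 * a.2 * a.1⁻¹) * a.2⁻¹)) := by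
      intro a
      rw [← ih (fun k => α k.succ)]
      congr 1
      refine Finset.sum_congr rfl fun v _ => ?_
      rw [h1, mul_assoc w]
    have h3 : 2 * (n + 1) = 2 * n + 2 := by ring
    rw [h3, pow_add, ← mul_assoc, Finset.sum_mul, Finset.sum_congr rfl fun a _ => h2 a,
      ← Finset.mul_sum, mul_assoc, tw_one hχ]
    split_ifs
    · ring
    · ring

end tw

/-- the value of a word -/
def ww {ι W : Type} [Group W] (w : FreeGroup ι) (x : ι → W) : W := FreeGroup.lift x w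

lemma ww_map {ι W V : Type} [Group W] [Group V] (f : W →* V) (w : FreeGroup ι) (x : ι → W) :
    f (ww w x) = ww w (fun i => f (x i)) := by
  have h : f.comp (FreeGroup.lift x) = FreeGroup.lift (fun i => f (x i)) := by
    ext i
    simp
  exact DFunLike.congr_fun h w

lemma ww_mem {ι W : Type} [Group W] (w : FreeGroup ι) {x : ι → W} {S : Subgroup W}
    (h : ∀ i, x i ∈ S) : ww w x ∈ S := by
  have := ww_map S.subtype w (fun i => ⟨x i, h i⟩)
  unfold ww at this ⊢
  have h2 : (fun i => S.subtype ⟨x i, h i⟩) = x := rfl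
  rw [h2] at this
  rw [← this]
  exact (FreeGroup.lift (fun i => (⟨x i, h i⟩ : S)) w).2

/-- the product of commutators -/
def wd' (g : ℕ) : FreeGroup (Fin g × Bool) :=
  (List.ofFn fun k => FreeGroup.of (k, false) * FreeGroup.of (k, true) *
    (FreeGroup.of (k, false))⁻¹ * (FreeGroup.of (k, true))⁻¹).prod

lemma ww_wd {g : ℕ} {W : Type} [Group W] (x : Fin g × Bool → W) :
    ww (wd' g) x = (List.ofFn fun k => x (k, false) * x (k, true) * (x (k, false))⁻¹ *
      (x (k, true))⁻¹).prod := by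
  unfold ww wd'
  rw [map_list_prod, List.map_ofFn]
  congr 1
  congr 1
  funext k
  simp

instance (priority := low) instTup {ι W : Type} [Finite ι] [Finite W] : Fintype (ι → W) :=
  Fintype.ofFinite _

/-- the element `a` fixes the function `χ` -/
def Fxw {W : Type} [Group W] {T : Subgroup W} (χ : T → ℂ) (a : W) : Prop :=
  ∀ x y : T, (y : W) = a * x * a⁻¹ → χ y = χ x

section ev

variable {F : Type} [Field F] (red : integralClosure ℤ ℂ →+* F) {W : Type} [Group W] [Finite W]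
  {p : ℕ} [hp : Fact p.Prime] {Z : Set ((W → F) × F)}

lemma ev_char {S K H : Subgroup W} (hH : H = S ⊓ K) (hn : S ≤ Subgroup.normalizer (K : Set W))
    {g : ℕ} (c : Fin g → W) {χ : H → ℂ} (hχ : IsIrrChar χ) :
    (∑ x : Fin g × Bool → W, if h : (∀ i, x i ∈ S) ∧ ((∀ k, (c k)⁻¹ * x (k, false) ∈ K) ∧
        ∀ k, x (k, true) ∈ K) ∧ ww (wd' g) x ∈ H then χ ⟨ww (wd' g) x, h.2.2⟩ else 0) *
      (χ 1) ^ (2 * g) =
      if ∀ k, ∃ a ∈ S, (c k)⁻¹ * a ∈ K ∧ Fxw χ a then
        (Nat.card H : ℂ) ^ (2 * g) * χ 1 else 0 := by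
  have : Fintype H := Fintype.ofFinite _
  have hm : ∀ x : W, x ∈ H ↔ x ∈ S ∧ x ∈ K := fun x => by rw [hH, Subgroup.mem_inf]
  have hSH : S ≤ Subgroup.normalizer (H : Set W) := by
    intro s hs
    rw [Subgroup.mem_normalizer_iff]
    intro x
    rw [hm, hm]
    constructor
    · intro hx
      exact ⟨S.mul_mem (S.mul_mem hs hx.1) (S.inv_mem hs),
        (Subgroup.mem_normalizer_iff.mp (hn hs) x).mp hx.2⟩
    · intro hx
      refine ⟨?_, (Subgroup.mem_normalizer_iff.mp (hn hs) x).mpr hx.2⟩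
      have := S.mul_mem (S.mul_mem (S.inv_mem hs) hx.1) hs
      have e : s⁻¹ * (s * x * s⁻¹) * s = x := by group
      rwa [e] at this
  by_cases hc : ∀ k, ∃ a ∈ S, (c k)⁻¹ * a ∈ K
  · choose a haS haK using hc
    let α : Fin g → H ≃* H := fun k => Subgroup.normalizerMonoidHom H ⟨a k, hSH (haS k)⟩
    have hα : ∀ k (x : H), (α k x : W) = a k * x * (a k)⁻¹ := fun k x =>
      Subgroup.normalizerMonoidHom_apply_apply_coe H _ x
    let X : (Fin g → H × H) → (Fin g × Bool → W) := fun u i =>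
      if i.2 then ((u i.1).2 : W) else a i.1 * (u i.1).1
    have hX1 : ∀ u k, X u (k, false) = a k * (u k).1 := fun u k => rfl
    have hX2 : ∀ u k, X u (k, true) = (u k).2 := fun u k => rfl
    have hXw : ∀ u : Fin g → H × H, ww (wd' g) (X u) = ((tw α u : H) : W) := by
      intro u
      rw [ww_wd]
      unfold tw
      change _ = H.subtype _
      rw [map_list_prod, List.map_ofFn]
      congr 1
      congr 1
      funext k
      simp only [Function.comp, hX1, hX2]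
      change _ = ((α k ((u k).1 * (u k).2 * (u k).1⁻¹) * ((u k).2)⁻¹ : H) : W)
      rw [Subgroup.coe_mul, hα]
      push_cast
      group
    have hcond : ∀ u, (∀ i, X u i ∈ S) ∧ ((∀ k, (c k)⁻¹ * X u (k, false) ∈ K) ∧
        ∀ k, X u (k, true) ∈ K) ∧ ww (wd' g) (X u) ∈ H := by
      intro u
      refine ⟨?_, ⟨fun k => ?_, fun k => ?_⟩, ?_⟩
      · rintro ⟨k, b⟩
        cases b
        · rw [hX1]
          exact S.mul_mem (haS k) ((hm _).mp (u k).1.2).1
        · rw [hX2]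
          exact ((hm _).mp (u k).2.2).1
      · rw [hX1, ← mul_assoc]
        exact K.mul_mem (haK k) ((hm _).mp (u k).1.2).2
      · rw [hX2]
        exact ((hm _).mp (u k).2.2).2
      · rw [hXw]
        exact (tw α u).2
    have e1 : (∑ x : Fin g × Bool → W, if h : (∀ i, x i ∈ S) ∧ ((∀ k, (c k)⁻¹ * x (k, false) ∈ K) ∧
        ∀ k, x (k, true) ∈ K) ∧ ww (wd' g) x ∈ H then χ ⟨ww (wd' g) x, h.2.2⟩ else 0) =
        ∑ u : Fin g → H × H, χ (1 * tw α u) := by
      symm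
      rw [← Finset.sum_filter_add_sum_filter_not (s := (Finset.univ : Finset (Fin g × Bool → W)))
        (fun x => ∃ u, X u = x)]
      have e2 : (∑ x ∈ (Finset.univ : Finset (Fin g × Bool → W)).filter (fun x => ¬ ∃ u, X u = x),
          if h : (∀ i, x i ∈ S) ∧ ((∀ k, (c k)⁻¹ * x (k, false) ∈ K) ∧
          ∀ k, x (k, true) ∈ K) ∧ ww (wd' g) x ∈ H then χ ⟨ww (wd' g) x, h.2.2⟩ else 0) = 0 := by
        refine Finset.sum_eq_zero fun x hx => ?_
        rw [Finset.mem_filter] at hx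
        rw [dif_neg]
        rintro ⟨h1, ⟨h2, h3⟩, h4⟩
        apply hx.2
        refine ⟨fun k => (⟨(a k)⁻¹ * x (k, false), (hm _).mpr
          ⟨S.mul_mem (S.inv_mem (haS k)) (h1 _), ?_⟩⟩,
          ⟨x (k, true), (hm _).mpr ⟨h1 _, h3 k⟩⟩), ?_⟩
        · have h5 := K.mul_mem (K.inv_mem (haK k)) (h2 k)
          have e : ((c k)⁻¹ * a k)⁻¹ * ((c k)⁻¹ * x (k, false)) = (a k)⁻¹ * x (k, false) := by
            group
          rwa [e] at h5
        · funext i
          obtain ⟨k, b⟩ := i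
          cases b
          · change a k * ((a k)⁻¹ * x (k, false)) = _
            group
          · rfl
      rw [e2, add_zero]
      refine Finset.sum_bij (fun u _ => X u) ?_ ?_ ?_ ?_
      · intro u _
        rw [Finset.mem_filter]
        exact ⟨Finset.mem_univ _, u, rfl⟩
      · intro u _ v _ h
        funext k
        refine Prod.ext ?_ ?_
        · have := congrFun h (k, false)
          simp only [hX1] at this
          exact Subtype.ext (mul_left_cancel this)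
        · have := congrFun h (k, true)
          simp only [hX2] at this
          exact Subtype.ext this
      · intro x hx
        rw [Finset.mem_filter] at hx
        obtain ⟨u, hu⟩ := hx.2
        exact ⟨u, Finset.mem_univ _, hu⟩
      · intro u _
        rw [dif_pos (hcond u), one_mul]
        congr 1
        exact Subtype.ext (hXw u).symm
    rw [e1, tw_sum hχ]
    have hfix : ∀ k, ((fun x => χ (α k x)) = χ) ↔ ∃ b ∈ S, (c k)⁻¹ * b ∈ K ∧ Fxw χ b := by
      intro k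
      constructor
      · intro h
        refine ⟨a k, haS k, haK k, fun x y hxy => ?_⟩
        rw [← hα] at hxy
        rw [Subtype.ext hxy]
        exact congrFun h x
      · rintro ⟨b, hbS, hbK, hb⟩
        funext x
        -- `a k = (a k * b⁻¹) * b`
        have h1 : a k * b⁻¹ ∈ K := by
          have h5 := K.mul_mem (K.inv_mem hbK) (haK k)
          have e : ((c k)⁻¹ * b)⁻¹ * ((c k)⁻¹ * a k) = b⁻¹ * a k := by group
          rw [e] at h5
          have h6 := (Subgroup.mem_normalizer_iff.mp (hn hbS) _).mp h5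
          have e' : b * (b⁻¹ * a k) * b⁻¹ = a k * b⁻¹ := by group
          rwa [e'] at h6
        have h2 : a k * b⁻¹ ∈ H := (hm _).mpr ⟨S.mul_mem (haS k) (S.inv_mem hbS), h1⟩
        have h3 : b * x * b⁻¹ ∈ H := (Subgroup.mem_normalizer_iff.mp (hSH hbS) _).mp x.2
        have h4 := hb x ⟨_, h3⟩ rfl
        have h5 := hχ.isClass ⟨_, h3⟩ ⟨_, h2⟩
        rw [h4] at h5
        rw [← h5]
        congr 1
        apply Subtype.ext
        rw [hα]
        change _ = (a k * b⁻¹) * (b * x * b⁻¹) * (a k * b⁻¹)⁻¹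
        group
    by_cases hall : ∀ k, ∃ b ∈ S, (c k)⁻¹ * b ∈ K ∧ Fxw χ b
    · rw [if_pos hall, Finset.prod_congr rfl fun k _ => if_pos ((hfix k).mpr (hall k)),
        Finset.prod_const, Finset.card_univ, Fintype.card_fin, ← pow_mul]
    · rw [if_neg hall]
      push Not at hall
      obtain ⟨k, hk⟩ := hall
      rw [Finset.prod_eq_zero (Finset.mem_univ k), zero_mul]
      rw [if_neg]
      intro h
      obtain ⟨b, h1, h2, h3⟩ := (hfix k).mp h
      exact hk b h1 h2 h3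
  · rw [if_neg, Finset.sum_eq_zero, zero_mul]
    · intro x _
      rw [dif_neg]
      rintro ⟨h1, ⟨h2, h3⟩, h4⟩
      exact hc fun k => ⟨x (k, false), h1 _, h2 k⟩
    · intro h
      exact hc fun k => by
        obtain ⟨a, h1, h2, h3⟩ := h k
        exact ⟨a, h1, h2⟩

/-- **The sum over the tuples.** -/
theorem ev {S K H : Subgroup W} (hH : H = S ⊓ K) (hn : S ≤ Subgroup.normalizer (K : Set W))
    {g : ℕ} (hg : 0 < g) (c : Fin g → W) :
    ∑ x : Fin g × Bool → W, (if (∀ i, x i ∈ S) ∧ ((∀ k, (c k)⁻¹ * x (k, false) ∈ K) ∧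
        ∀ k, x (k, true) ∈ K) then FF red p (2 * g - 2) Z H (ww (wd' g) x) else 0) =
      (Nat.card H : ℂ) * ∑ χ ∈ (IrF H).filter
        (fun χ => Cd red Z H χ ∧ ∀ k, ∃ a ∈ S, (c k)⁻¹ * a ∈ K ∧ Fxw χ a),
          ((p : ℂ) ^ (2 * g - 2)) ^ dfc p χ := by
  have : Fintype H := Fintype.ofFinite _
  have hH0 : (Nat.card H : ℂ) ≠ 0 := by exact_mod_cast Nat.card_pos.ne'
  have h1 : ∀ x : Fin g × Bool → W, (if (∀ i, x i ∈ S) ∧ ((∀ k, (c k)⁻¹ * x (k, false) ∈ K) ∧
        ∀ k, x (k, true) ∈ K) then FF red p (2 * g - 2) Z H (ww (wd' g) x) else 0) =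
      ∑ χ ∈ (IrF H).filter (Cd red Z H), rr p χ ^ (2 * g - 2) * χ 1 / (Nat.card H : ℂ) *
        (if h : (∀ i, x i ∈ S) ∧ ((∀ k, (c k)⁻¹ * x (k, false) ∈ K) ∧
        ∀ k, x (k, true) ∈ K) ∧ ww (wd' g) x ∈ H then χ ⟨ww (wd' g) x, h.2.2⟩ else 0) := by
    intro x
    by_cases hx : (∀ i, x i ∈ S) ∧ ((∀ k, (c k)⁻¹ * x (k, false) ∈ K) ∧ ∀ k, x (k, true) ∈ K)
    · rw [if_pos hx]
      unfold FF
      by_cases hw : ww (wd' g) x ∈ H
      · rw [dif_pos hw]
        refine Finset.sum_congr rfl fun χ _ => ?_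
        rw [dif_pos ⟨hx.1, hx.2, hw⟩]
        ring
      · rw [dif_neg hw]
        symm
        refine Finset.sum_eq_zero fun χ _ => ?_
        rw [dif_neg (fun h => hw h.2.2), mul_zero]
    · rw [if_neg hx]
      symm
      refine Finset.sum_eq_zero fun χ _ => ?_
      rw [dif_neg (fun h => hx ⟨h.1, h.2.1⟩), mul_zero]
  rw [Finset.sum_congr rfl fun x _ => h1 x, Finset.sum_comm, ← Finset.filter_filter,
    Finset.sum_filter (fun χ : H → ℂ => ∀ k, ∃ a ∈ S, (c k)⁻¹ * a ∈ K ∧ Fxw χ a),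
    Finset.mul_sum]
  refine Finset.sum_congr rfl fun χ hχ => ?_
  have hχ' : IsIrrChar χ := mem_IrF.mp (Finset.mem_filter.mp hχ).1
  rw [← Finset.mul_sum]
  have h2 := ev_char hH hn c hχ'
  have hd := dg_spec hχ'
  have hd0 : χ 1 ≠ 0 := by
    rw [hd.1]
    exact_mod_cast hd.2.ne'
  have h3 : (∑ x : Fin g × Bool → W, if h : (∀ i, x i ∈ S) ∧ ((∀ k, (c k)⁻¹ * x (k, false) ∈ K) ∧
        ∀ k, x (k, true) ∈ K) ∧ ww (wd' g) x ∈ H then χ ⟨ww (wd' g) x, h.2.2⟩ else 0) =
      (if ∀ k, ∃ a ∈ S, (c k)⁻¹ * a ∈ K ∧ Fxw χ a then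
        (Nat.card H : ℂ) ^ (2 * g) * χ 1 else 0) / (χ 1) ^ (2 * g) := by
    rw [eq_div_iff (pow_ne_zero _ hd0)]
    exact h2
  rw [h3]
  by_cases hf : ∀ k, ∃ a ∈ S, (c k)⁻¹ * a ∈ K ∧ Fxw χ a
  · rw [if_pos hf, if_pos hf]
    obtain ⟨n, rfl⟩ : ∃ n, g = n + 1 := ⟨g - 1, by omega⟩
    have e1 : 2 * (n + 1) - 2 = 2 * n := by omega
    have e2 : 2 * (n + 1) = 2 * n + 2 := by ring
    rw [e1, e2]
    unfold rr
    rw [← hd.1]
    have e3 : ((p : ℂ) ^ dfc p χ * χ 1 / (Nat.card H : ℂ)) ^ (2 * n) =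
        ((p : ℂ) ^ (2 * n)) ^ dfc p χ * (χ 1) ^ (2 * n) / (Nat.card H : ℂ) ^ (2 * n) := by
      rw [div_pow, mul_pow, ← pow_mul, ← pow_mul, mul_comm (dfc p χ)]
    rw [e3]
    field_simp
    ring
  · rw [if_neg hf, if_neg hf, zero_div, mul_zero, mul_zero]

/-- the same without the condition for `S` -/
theorem ev' {S K : Subgroup W} {g : ℕ} (hg : 0 < g) {c : Fin g → W}
    (hc : ∀ k, c k ∈ Subgroup.normalizer (K : Set W)) :
    ∑ x : Fin g × Bool → W, (if (∀ i, x i ∈ S) ∧ ((∀ k, (c k)⁻¹ * x (k, false) ∈ K) ∧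
        ∀ k, x (k, true) ∈ K) then FF red p (2 * g - 2) Z (S ⊓ K) (ww (wd' g) x) else 0) =
      (Nat.card (S ⊓ K : Subgroup W) : ℂ) * ∑ χ ∈ (IrF (S ⊓ K : Subgroup W)).filter
        (fun χ => Cd red Z (S ⊓ K) χ ∧ ∀ k, ∃ a ∈ S, (c k)⁻¹ * a ∈ K ∧ Fxw χ a),
          ((p : ℂ) ^ (2 * g - 2)) ^ dfc p χ := by
  have hK : K ≤ Subgroup.normalizer (K : Set W) := Subgroup.le_normalizer
  have hm : ∀ k, ∀ a : W, (c k)⁻¹ * a ∈ K → a ∈ Subgroup.normalizer (K : Set W) := by
    intro k a h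
    have h1 := Subgroup.mul_mem _ (hc k) (hK h)
    rwa [mul_inv_cancel_left] at h1
  have h := ev red (p := p) (Z := Z) (S := S ⊓ Subgroup.normalizer (K : Set W)) (K := K)
    (H := S ⊓ K) (by rw [inf_assoc, inf_eq_right.mpr hK]) inf_le_right hg c
  refine Eq.trans (Finset.sum_congr rfl fun x _ => ?_) (h.trans ?_)
  · refine if_congr ?_ rfl rfl
    constructor
    · rintro ⟨h1, h2, h3⟩
      refine ⟨?_, h2, h3⟩
      rintro ⟨k, b⟩
      cases b
      · exact ⟨h1 _, hm k _ (h2 k)⟩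
      · exact ⟨h1 _, hK (h3 k)⟩
    · rintro ⟨h1, h2⟩
      exact ⟨fun i => (h1 i).1, h2⟩
  · congr 1
    refine Finset.sum_congr ?_ fun _ _ => rfl
    refine Finset.filter_congr fun χ _ => and_congr_right fun _ => forall_congr' fun k =>
      exists_congr fun a => ?_
    constructor
    · rintro ⟨h1, h2⟩
      exact ⟨h1.1, h2⟩
    · rintro ⟨h1, h2, h3⟩
      exact ⟨⟨h1, hm k a h2⟩, h2, h3⟩

end ev

end Pool.Agent.H378.SF
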