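import Pool.Agent.H378.SF.Fn
import Pool.Agent.H378.SF.Chn

/-!
# Functions on subgroups
-/

set_option autoImplicit false
set_option linter.unusedSectionVars false
set_option linter.unusedVariables false

open scoped Classical BigOperators
open Pool.Agent.Helper884.IC Pool.Agent.Y63.AWC Pool.Agent.Y63.KR Pool.Agent.X209.EQ
open Pool.Agent.X209.PJ hiding push
open Pool.Agent.X209.DI Pool.Agent.X209.DQ Pool.Agent.H378.AC
open Pool.Agent.Q100.CQ (push push_apply push_zero sum_push mlt mlt_conj SS_all CJ)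
open Pool.Agent.Y63.NV (IsClassFun IsBlock InZ centralValue redC conv)

noncomputable section

namespace Pool.Agent.H378.SF

attribute [-instance] MonoidHom.fintypeRange MonoidHom.decidableMemRange

section

variable {F : Type} [Field F] (red : integralClosure ℤ ℂ →+* F) {W : Type} [Group W]

/-- the values of the central character at the functions of `Z` -/
def Cd (Z : Set ((W → F) × F)) (T : Subgroup W) (χ : T → ℂ) : Prop :=
  ∀ z ∈ Z, centralValue red χ (fun t : T => z.1 t) = z.2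

/-- the function of the subgroup `T` -/
def FF [Finite W] (p m : ℕ) (Z : Set ((W → F) × F)) (T : Subgroup W) (y : W) : ℂ :=
  if h : y ∈ T then ∑ χ ∈ (IrF T).filter (Cd red Z T),
    rr p χ ^ m * (χ 1 * χ ⟨y, h⟩) / (Nat.card T : ℂ) else 0

/-- the functions of `Z` are invariant under `H` and vanish on `H` outside `N` -/
structure Zok (Z : Set ((W → F) × F)) (N H : Subgroup W) : Prop where
  conj : ∀ z ∈ Z, ∀ h ∈ H, ∀ x, z.1 (h * x * h⁻¹) = z.1 x
  supp : ∀ z ∈ Z, ∀ x ∈ H, x ∉ N → z.1 x = 0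

lemma Zok.mono {Z : Set ((W → F) × F)} {N H N' H' : Subgroup W} (h : Zok Z N H) (hH : H' ≤ H)
    (hN : N ⊓ H' ≤ N') : Zok Z N' H' :=
  ⟨fun z hz x hx => h.conj z hz x (hH hx), fun z hz x hx hxN =>
    h.supp z hz x (hH hx) fun h1 => hxN (hN ⟨h1, hx⟩)⟩

variable [Finite W] {p : ℕ} [hp : Fact p.Prime] {Z : Set ((W → F) × F)}

lemma cd_iff {T₁ T₂ : Subgroup W} (h12 : T₁ ≤ T₂) (hZ : Zok Z T₁ T₂)
    [hn : (Subgroup.inclusion h12).range.Normal] [Fintype T₁] [Fintype T₂] {χ : T₂ → ℂ}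
    {θ : T₁ → ℂ} (hχ : IsIrrChar χ) (hθ : IsIrrChar θ)
    (ho : Ov (Subgroup.inclusion h12) (Subgroup.inclusion_injective h12) χ θ) :
    Cd red Z T₂ χ ↔ Cd red Z T₁ θ := by
  unfold Cd
  refine forall_congr' fun z => imp_congr_right fun hz => ?_
  have h1 := cv_over_hom (Subgroup.inclusion h12) (Subgroup.inclusion_injective h12) red hχ hθ ho
    (f := fun t : T₂ => z.1 t) (fun a x => hZ.conj z hz a a.2 x) (fun t ht => by
      refine hZ.supp z hz t t.2 fun h2 => ht ⟨⟨t, h2⟩, Subtype.ext rfl⟩)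
  rw [h1]
  rfl

lemma cd_conj {T₁ T₂ : Subgroup W} (h12 : T₁ ≤ T₂) (hZ : Zok Z T₁ T₂) {y : W} (hy : y ∈ T₂)
    (α : T₁ ≃* T₁) (hα : ∀ a : T₁, (α a : W) = y * a * y⁻¹) {θ : T₁ → ℂ} (hθ : IsIrrChar θ)
    (h : Cd red Z T₁ θ) : Cd red Z T₁ (fun a => θ (α a)) := by
  intro z hz
  have hcl : IsClassFun (fun t : T₁ => z.1 t) := fun a x => hZ.conj z hz a (h12 a.2) x
  have h1 := Pool.Agent.Y624.NV.centralValue_comp red α hθ hcl
  have h2 : (fun x : T₁ => (fun t : T₁ => z.1 t) (α x)) = fun t : T₁ => z.1 t := by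
    funext a
    change z.1 (α a : W) = z.1 a
    rw [hα, hZ.conj z hz y hy]
  rw [h2] at h1
  rw [h1]
  exact h z hz

/-- **One step.** -/
lemma ff_step (m : ℕ) {T₁ T₂ : Subgroup W} (h12 : T₁ ≤ T₂) (hZ : Zok Z T₁ T₂)
    (hn : T₂ ≤ Subgroup.normalizer (T₁ : Set W)) (hcard : Nat.card T₂ = p * Nat.card T₁)
    (hgen : ∃ x ∈ T₂, ∀ y ∈ T₂, ∃ k : ℕ, y⁻¹ * x ^ k ∈ T₁) (y : W) :
    FF red p m Z T₂ y = if y ∈ T₁ then FF red p m Z T₁ y else 0 := by
  have : Fintype T₁ := Fintype.ofFinite _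
  have : Fintype T₂ := Fintype.ofFinite _
  set i := Subgroup.inclusion h12 with hi
  have hinj : Function.Injective i := Subgroup.inclusion_injective h12
  have hmem : ∀ t : T₂, t ∈ i.range ↔ (t : W) ∈ T₁ := by
    intro t
    constructor
    · rintro ⟨a, rfl⟩
      exact a.2
    · intro h
      exact ⟨⟨t, h⟩, Subtype.ext rfl⟩
  have hnr : i.range.Normal := by
    constructor
    intro n hn' g
    rw [hmem] at hn' ⊢
    exact (Subgroup.mem_normalizer_iff.mp (hn g.2) _).mp hn'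
  obtain ⟨x, hx, hxg⟩ := hgen
  have hg : ∀ y : T₂, ∃ k : ℕ, y⁻¹ * (⟨x, hx⟩ : T₂) ^ k ∈ i.range := by
    intro y
    obtain ⟨k, hk⟩ := hxg y y.2
    exact ⟨k, (hmem _).mpr hk⟩
  by_cases hy : y ∈ T₂
  · have h1 := step_fn i hinj hg m hcard (Cd red Z T₂) (Cd red Z T₁)
      (fun χ θ hχ hθ ho => cd_iff red h12 hZ hχ hθ ho)
      (fun y α hα θ hθ hQ => cd_conj red h12 hZ y.2 α (fun a => congrArg Subtype.val (hα a)) hθ hQ)
      ⟨y, hy⟩
    unfold FF
    rw [dif_pos hy, h1]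
    by_cases hy1 : y ∈ T₁
    · rw [if_pos hy1, dif_pos hy1]
      exact push_apply hinj _ (⟨y, hy1⟩ : T₁)
    · rw [if_neg hy1]
      exact push_zero _ (fun h => hy1 ((hmem _).mp h))
  · unfold FF
    rw [dif_neg hy, if_neg (fun h => hy (h12 h))]

/-- **The functions of `H` and `N`.** -/
theorem ff_eq (m : ℕ) {N H : Subgroup W} (hNH : N ≤ H)
    (hn : H ≤ Subgroup.normalizer (N : Set W)) (hpH : ∀ x ∈ H, ∃ k : ℕ, x ^ p ^ k ∈ N)
    (hZ : Zok Z N H) (y : W) :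
    FF red p m Z H y = if y ∈ N then FF red p m Z N y else 0 := by
  revert y
  refine chain_ind hNH hn hpH (fun T => ∀ y, FF red p m Z T y =
    if y ∈ N then FF red p m Z N y else 0) ?_ ?_
  · intro y
    split_ifs with h
    · rfl
    · unfold FF
      rw [dif_neg h]
  · intro T₁ T₂ h1 h2 h3 h4 h5 h6 h7 y
    rw [ff_step red m h2 (hZ.mono h3 (inf_le_left.trans h1)) h4 h5 h6 y]
    split_ifs with h8 h9 h9
    · rw [h7 y, if_pos h9]
    · rw [h7 y, if_neg h9]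
    · exact absurd (h1 h9) h8
    · rfl

/-- defect zero goes down -/
lemma dz_step {T₁ T₂ : Subgroup W} (h12 : T₁ ≤ T₂) (hZ : Zok Z T₁ T₂)
    (hn : T₂ ≤ Subgroup.normalizer (T₁ : Set W))
    (hgen : ∃ x ∈ T₂, ∀ y ∈ T₂, ∃ k : ℕ, y⁻¹ * x ^ k ∈ T₁)
    (h : ∀ θ : T₁ → ℂ, IsIrrChar θ → Cd red Z T₁ θ → dfc p θ ≠ 0) :
    ∀ χ : T₂ → ℂ, IsIrrChar χ → Cd red Z T₂ χ → dfc p χ ≠ 0 := by
  intro χ hχ hC h0
  have : Fintype T₁ := Fintype.ofFinite _
  have : Fintype T₂ := Fintype.ofFinite _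
  set i := Subgroup.inclusion h12 with hi
  have hinj : Function.Injective i := Subgroup.inclusion_injective h12
  have hmem : ∀ t : T₂, t ∈ i.range ↔ (t : W) ∈ T₁ := by
    intro t
    constructor
    · rintro ⟨a, rfl⟩
      exact a.2
    · intro h
      exact ⟨⟨t, h⟩, Subtype.ext rfl⟩
  have hnr : i.range.Normal := by
    constructor
    intro n hn' g
    rw [hmem] at hn' ⊢
    exact (Subgroup.mem_normalizer_iff.mp (hn g.2) _).mp hn'
  obtain ⟨x, hx, hxg⟩ := hgen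
  have hg : ∀ y : T₂, ∃ k : ℕ, y⁻¹ * (⟨x, hx⟩ : T₂) ^ k ∈ i.range := by
    intro y
    obtain ⟨k, hk⟩ := hxg y y.2
    exact ⟨k, (hmem _).mpr hk⟩
  obtain ⟨θ', hθ', hm⟩ := mult_exists i.range hχ
  let e := MonoidHom.ofInjective hinj
  have hθ : IsIrrChar (fun a : T₁ => θ' (e a)) := irr_comp e hθ'
  have ho : Ov i hinj χ (fun a : T₁ => θ' (e a)) := by
    unfold Ov
    have h1 : (fun u => (fun a => θ' (e a)) ((MonoidHom.ofInjective hinj).symm u)) = θ' := by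
      funext u
      change θ' (e (e.symm u)) = θ' u
      rw [e.apply_symm_apply]
    rw [h1]
    exact hm
  have h2 := dfc_over (p := p) i hinj hg hχ hθ ho
  refine h _ hθ ((cd_iff red h12 hZ hχ hθ ho).mp hC) ?_
  omega

/-- **Defect zero.** -/
theorem dz_down {N H : Subgroup W} (hNH : N ≤ H)
    (hn : H ≤ Subgroup.normalizer (N : Set W)) (hpH : ∀ x ∈ H, ∃ k : ℕ, x ^ p ^ k ∈ N)
    (hZ : Zok Z N H) (h : ∀ θ : N → ℂ, IsIrrChar θ → Cd red Z N θ → dfc p θ ≠ 0) :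
    ∀ χ : H → ℂ, IsIrrChar χ → Cd red Z H χ → dfc p χ ≠ 0 := by
  refine chain_ind hNH hn hpH (fun T => ∀ χ : T → ℂ, IsIrrChar χ → Cd red Z T χ → dfc p χ ≠ 0)
    h ?_
  intro T₁ T₂ h1 h2 h3 h4 h5 h6 h7
  exact dz_step red h2 (hZ.mono h3 (inf_le_left.trans h1)) h4 h6 h7

end

end Pool.Agent.H378.SF
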