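import Pool.Agent.H378.SF.Tz
import Pool.Agent.H378.AC.Fin

/-!
# From the tuples to the characters
-/

set_option autoImplicit false
set_option linter.unusedSectionVars false
set_option linter.unusedVariables false

open scoped Classical BigOperators Polynomial
open Polynomial
open Pool.Agent.Helper884.IC Pool.Agent.Y63.AWC Pool.Agent.Y63.KR Pool.Agent.X209.EQ
open Pool.Agent.X209.PJ hiding push
open Pool.Agent.X209.DI Pool.Agent.X209.DQ Pool.Agent.X209.NB Pool.Agent.H378.AC
open Pool.Agent.Y63.NV (IsClassFun IsBlock InZ centralValue redC conv classValue)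

noncomputable section

namespace Pool.Agent.H378.SF

attribute [-instance] MonoidHom.fintypeRange MonoidHom.decidableMemRange

/-- `U/G` has a normal `p`-subgroup `K/G` with cyclic quotient `U/K`, generated by the image of
`e` -/
def Hyp {E : Type} [Group E] (p : ℕ) (G U : Subgroup E) : Prop :=
  ∃ K : Subgroup E, G ≤ K ∧ K ≤ U ∧ U ≤ Subgroup.normalizer (K : Set E) ∧
    (∀ x ∈ K, ∃ k : ℕ, x ^ p ^ k ∈ G) ∧ ∃ e ∈ U, ∀ x ∈ U, ∃ k : ℕ, x⁻¹ * e ^ k ∈ K

lemma poly_zero {p : ℕ} (hp : p.Prime) (r : ℕ) (q : ℤ[X])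
    (h : ∀ s : ℕ, (q.map (Int.castRingHom ℂ)).eval ((p : ℂ) ^ (2 * (r + s))) = 0) : q = 0 := by
  have h1 : q.map (Int.castRingHom ℂ) = 0 := by
    refine Polynomial.eq_zero_of_infinite_isRoot _ ?_
    refine Set.infinite_of_injective_forall_mem (f := fun s : ℕ => (p : ℂ) ^ (2 * (r + s))) ?_ h
    intro a b hab
    have h2 : p ^ (2 * (r + a)) = p ^ (2 * (r + b)) := by
      have h3 : ((p ^ (2 * (r + a)) : ℕ) : ℂ) = ((p ^ (2 * (r + b)) : ℕ) : ℂ) := by
        push_cast
        exact hab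
      exact_mod_cast h3
    have h3 := Nat.pow_right_injective hp.two_le h2
    omega
  exact (Polynomial.map_eq_zero_iff (RingHom.injective_int _)).mp h1

section

variable {p : ℕ} [hp : Fact p.Prime] {F : Type} [Field F] [CharP F p]
  (red : integralClosure ℤ ℂ →+* F) {E : Type} [Group E] [Finite E] {G : Subgroup E}
  [hG : G.Normal]

/-- the family of the invariant functions and the values of the block -/
def ZU (B : (G → F) → F) (U : Subgroup E) : Set ((E → F) × F) :=
  {w | ∃ z : E → F, (∀ u ∈ U, ∀ x, z (u * x * u⁻¹) = z x) ∧ (∀ x, x ∉ G → z x = 0) ∧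
    w = (z, B (fun a : G => z a))}

lemma zok_ZU (B : (G → F) → F) (U : Subgroup E) : Zok (ZU B U) G U := by
  constructor
  · rintro _ ⟨z, h1, h2, rfl⟩ h hh x
    exact h1 h hh x
  · rintro _ ⟨z, h1, h2, rfl⟩ x _ hx
    exact h2 x hx

/-- a block which agrees with a stable block at the invariant functions -/
lemma uniq_U {B B' : (G → F) → F} (hB : IsBlock B) (hB' : IsBlock B') {U : Subgroup E}
    (hGU : G ≤ U)
    (hI : ∀ u ∈ U, ∀ f : G → F, IsClassFun f → B (fun x => f (MulAut.conjNormal u x)) = B f)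
    (h : ∀ w ∈ ZU B U, B' (fun a : G => w.1 a) = w.2) {f : G → F} (hf : IsClassFun f) :
    B' f = B f := by
  refine uniq_aut ((MulAut.conjNormal : E →* MulAut G).comp U.subtype) hB hB'
    (fun u f hf => hI u u.2 f hf) ?_ hf
  intro z hz hza
  let z' : E → F := fun x => if hx : x ∈ G then z ⟨x, hx⟩ else 0
  have hz' : ∀ a : G, z' a = z a := fun a => dif_pos a.2
  have h1 : ∀ u ∈ U, ∀ x, z' (u * x * u⁻¹) = z' x := by
    intro u hu x
    by_cases hx : x ∈ G
    · have hx' : u * x * u⁻¹ ∈ G := hG.conj_mem x hx u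
      have h2 := hza ⟨u, hu⟩ ⟨x, hx⟩
      change z (MulAut.conjNormal u ⟨x, hx⟩) = _ at h2
      have h3 : (MulAut.conjNormal u ⟨x, hx⟩ : G) = ⟨u * x * u⁻¹, hx'⟩ := Subtype.ext (by
        rw [MulAut.conjNormal_apply])
      rw [h3] at h2
      change (if hx : u * x * u⁻¹ ∈ G then z ⟨_, hx⟩ else 0) = if hx : x ∈ G then z ⟨x, hx⟩ else 0
      rw [dif_pos hx', dif_pos hx, h2]
    · have hx' : u * x * u⁻¹ ∉ G := by
        intro h2
        apply hx
        have h3 := hG.conj_mem _ h2 u⁻¹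
        have e : u⁻¹ * (u * x * u⁻¹) * u⁻¹⁻¹ = x := by group
        rwa [e] at h3
      change (if hx : u * x * u⁻¹ ∈ G then z ⟨_, hx⟩ else 0) = if hx : x ∈ G then z ⟨x, hx⟩ else 0
      rw [dif_neg hx', dif_neg hx]
  have h2 := h (z', B (fun a : G => z' a)) ⟨z', h1, fun x hx => dif_neg hx, rfl⟩
  have h3 : (fun a : G => z' a) = z := funext hz'
  change B' (fun a : G => z' a) = B (fun a : G => z' a) at h2
  rwa [h3] at h2

/-- the stabilisers in the two forms -/
lemma fix_iff' {σ : Set (Subgroup G)}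
    (ε : chainStabilizer σ ≃* (chainStabilizer (Subgroup.map G.subtype '' σ) ⊓ G : Subgroup E))
    (hε : ∀ x, ((ε x : E)) = ((x : G) : E))
    (χ : (chainStabilizer (Subgroup.map G.subtype '' σ) ⊓ G : Subgroup E) → ℂ) (b : E) :
    Fixes G σ (fun a => χ (ε a)) b ↔
      b ∈ chainStabilizer (Subgroup.map G.subtype '' σ) ∧ Fxw χ b := by
  unfold Fixes
  refine and_congr ?_ ?_
  · rw [mem_chainStabilizer]
    constructor
    · rintro h _ ⟨P, hP, rfl⟩
      exact h P hP
    · intro h P hP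
      exact h _ ⟨P, hP, rfl⟩
  · constructor
    · intro h x y hxy
      have h3 := h (ε.symm x) (ε.symm y) (by
        rw [← hε, ← hε, ε.apply_symm_apply, ε.apply_symm_apply]
        exact hxy)
      simp only [ε.apply_symm_apply] at h3
      exact h3
    · intro h x y hxy
      refine h (ε x) (ε y) ?_
      rw [hε, hε]
      exact hxy

/-- the polynomial of a subgroup `U` -/
def gU (p : ℕ) (B : (G → F) → F) (U : Subgroup E) : ℤ[X] :=
  ∑ σ : {σ : Set (Subgroup G) // IsPChain p σ}, (-1) ^ σ.1.ncard *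
    ((Nat.card (chainStabilizer σ.1) : ℤ[X]) *
      gf p (fun ψ : chainStabilizer σ.1 → ℂ => Induces red B ψ ∧
        ∀ u ∈ U, ∃ b : E, Fixes G σ.1 ψ b ∧ b⁻¹ * u ∈ G))

/-- **The stable case.** -/
theorem gU_stable (hT : ∀ (A : Type) [Group A] [Finite A], TT p red A) {B : (G → F) → F}
    (hB : IsBlock B) (hD : NoDZ p red B) {U : Subgroup E} (hU : Hyp p G U)
    (hI : ∀ u ∈ U, ∀ f : G → F, IsClassFun f → B (fun x => f (MulAut.conjNormal u x)) = B f) :
    gU red p B U = 0 := by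
  obtain ⟨K, hGK, hKU, hUK, hpK, e, heU, hgen⟩ := hU
  have hGU : G ≤ U := hGK.trans hKU
  have hUG : U ≤ Subgroup.normalizer (G : Set E) := by
    rw [Subgroup.normalizer_eq_top_iff.mpr hG]
    exact le_top
  have _ : Fintype K := Fintype.ofFinite K
  let r := Fintype.card K
  let f : Fin r ≃ K := (Fintype.equivFin K).symm
  let c : ℕ → E := fun k => if k = 0 then e else if h : k - 1 < r then f ⟨k - 1, h⟩ else 1
  have hc0 : c 0 = e := if_pos rfl
  have hcK : ∀ k, k ≠ 0 → c k ∈ K := by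
    intro k hk
    have : c k = if h : k - 1 < r then (f ⟨k - 1, h⟩ : E) else 1 := if_neg hk
    rw [this]
    split_ifs
    · exact (f _).2
    · exact K.one_mem
  have hcs : ∀ y ∈ K, ∃ k, k < 1 + r ∧ c k = y := by
    intro y hy
    refine ⟨(f.symm ⟨y, hy⟩).1 + 1, ?_, ?_⟩
    · have := (f.symm ⟨y, hy⟩).2
      omega
    · have h1 : c ((f.symm ⟨y, hy⟩).1 + 1) = if h : (f.symm ⟨y, hy⟩).1 + 1 - 1 < r then
        (f ⟨(f.symm ⟨y, hy⟩).1 + 1 - 1, h⟩ : E) else 1 := if_neg (by omega)
      rw [h1, dif_pos (by simp)]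
      have h2 : (⟨(f.symm ⟨y, hy⟩).1 + 1 - 1, by simp⟩ : Fin r) = f.symm ⟨y, hy⟩ :=
        Fin.ext (by simp)
      rw [h2, f.apply_symm_apply]
  have hcU : ∀ k, c k ∈ U := by
    intro k
    by_cases hk : k = 0
    · rw [hk, hc0]
      exact heU
    · exact hKU (hcK k hk)
  refine poly_zero hp.out r _ fun s => ?_
  set g := 1 + r + s with hg
  have hg0 : 0 < g := by omega
  let k₀ : Fin g := ⟨0, hg0⟩
  let x₀ : Fin g × Bool → E := fun i => if i.2 then 1 else c i.1.1
  have hD' : ∀ θ : G → ℂ, IsIrrChar θ → Cd red (ZU B U) G θ → dfc p θ ≠ 0 := by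
    intro θ hθ hC h0
    refine hD θ hθ (fun f hf => ?_) ((hasDefect_iff hθ).mpr h0)
    have : Fintype G := Fintype.ofFinite G
    exact uniq_U hB (Pool.Agent.Y930.NV.cvh F red G _ hθ) hGU hI (fun w hw => hC w hw) hf
  have h1 := tz red hT hg0 k₀ _ E G K U rfl hGK hKU hUG hUK hpK (ZU B U) (zok_ZU B U) hD' x₀
    (by
      rintro ⟨k, b⟩
      cases b
      · exact hcU k.1
      · exact U.one_mem) (by
      rintro ⟨k, b⟩ hi
      cases b
      · refine hcK k.1 fun h => hi ?_
        have : k = k₀ := Fin.ext h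
        rw [this]
      · exact K.one_mem)
  -- the sum over the tuples inside
  have h2 : Zs red p (2 * g - 2) (wd' g) (ZU B U) G x₀ = CS p G (fun S =>
      (Nat.card (S ⊓ G : Subgroup E) : ℂ) * ∑ χ ∈ (IrF (S ⊓ G : Subgroup E)).filter
        (fun χ => Cd red (ZU B U) (S ⊓ G) χ ∧
          ∀ k : Fin g, ∃ a ∈ S, (c k.1)⁻¹ * a ∈ G ∧ Fxw χ a),
          ((p : ℂ) ^ (2 * g - 2)) ^ dfc p χ) := by
    have h3 : Zs red p (2 * g - 2) (wd' g) (ZU B U) G x₀ = CS p G (fun S =>
        ∑ x : Fin g × Bool → E, if (∀ i, x i ∈ S) ∧ ((∀ k : Fin g, (c k.1)⁻¹ * x (k, false) ∈ G) ∧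
        ∀ k, x (k, true) ∈ G) then FF red p (2 * g - 2) (ZU B U) (S ⊓ G) (ww (wd' g) x)
          else 0) := by
      unfold Zs
      rw [cs_sum]
      refine Finset.sum_congr rfl fun x _ => ?_
      unfold As
      rw [← cs_ite]
      refine cs_congr G fun S => ?_
      have h4 : (∀ i, (x₀ i)⁻¹ * x i ∈ G) ↔ ((∀ k : Fin g, (c k.1)⁻¹ * x (k, false) ∈ G) ∧
          ∀ k, x (k, true) ∈ G) := by
        constructor
        · intro h
          refine ⟨fun k => h (k, false), fun k => ?_⟩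
          have h5 := h (k, true)
          change (1 : E)⁻¹ * x (k, true) ∈ G at h5
          rwa [inv_one, one_mul] at h5
        · rintro ⟨h5, h6⟩ ⟨k, b⟩
          cases b
          · exact h5 k
          · change (1 : E)⁻¹ * x (k, true) ∈ G
            rw [inv_one, one_mul]
            exact h6 k
      by_cases c1 : ∀ i, (x₀ i)⁻¹ * x i ∈ G
      · by_cases c2 : ∀ i, x i ∈ S
        · rw [if_pos c1, if_pos c2, if_pos ⟨c2, h4.mp c1⟩]
        · rw [if_pos c1, if_neg c2, if_neg (fun h => c2 h.1)]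
      · rw [if_neg c1, if_neg (fun h => c1 (h4.mpr h.2))]
    rw [h3]
    refine cs_congr G fun S => ?_
    exact ev' red (p := p) (Z := ZU B U) (S := S) (K := G) hg0 (c := fun k : Fin g => c k.1)
      (fun k => hUG (hcU k.1))
  rw [h2, cs_hom G.subtype G.subtype_injective (Subgroup.range_subtype G)] at h1
  rw [← h1]
  unfold gU
  rw [Polynomial.map_sum, eval_finsetSum]
  refine Finset.sum_congr rfl fun σ _ => ?_
  rw [Polynomial.map_mul, Polynomial.map_mul, eval_mul, eval_mul, Polynomial.map_pow,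
    Polynomial.map_neg, Polynomial.map_one, eval_pow, eval_neg, eval_one]
  congr 1
  have hm : ∀ x : G, x ∈ chainStabilizer σ.1 ↔
      (x : E) ∈ chainStabilizer (Subgroup.map G.subtype '' σ.1) ⊓ G := by
    intro x
    rw [Subgroup.mem_inf, mem_stabA G.subtype G.subtype_injective, mem_chainStabilizer]
    constructor
    · intro h
      refine ⟨?_, x.2⟩
      rintro _ ⟨P, hP, rfl⟩
      exact h P hP
    · rintro ⟨h, _⟩ P hP
      exact h _ ⟨P, hP, rfl⟩
  let ε : chainStabilizer σ.1 ≃* (chainStabilizer (Subgroup.map G.subtype '' σ.1) ⊓ G :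
    Subgroup E) := subEq inf_le_right hm
  have hε : ∀ x, ((ε x : E)) = ((x : G) : E) := fun x => rfl
  congr 1
  · rw [← Nat.card_congr ε.toEquiv]
    simp
  unfold gf
  rw [Polynomial.map_sum, eval_finsetSum]
  simp only [Polynomial.map_pow, map_X, eval_pow, eval_X]
  have hgs : 2 * g - 2 = 2 * (r + s) := by omega
  rw [hgs]
  symm
  have key := irf_comp (p := p) ε (P := fun χ => Cd red (ZU B U)
      (chainStabilizer (Subgroup.map G.subtype '' σ.1) ⊓ G) χ ∧
      ∀ k : Fin g, ∃ a ∈ chainStabilizer (Subgroup.map G.subtype '' σ.1),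
        (c k.1)⁻¹ * a ∈ G ∧ Fxw χ a)
      (Q := fun ψ => Induces red B ψ ∧
        ∀ u ∈ U, ∃ b : E, Fixes G σ.1 ψ b ∧ b⁻¹ * u ∈ G) ?_
        (fun n => ((p : ℂ) ^ (2 * (r + s))) ^ n)
  · refine Eq.trans (Finset.sum_congr ?_ fun _ _ => rfl) (key.trans
        (Finset.sum_congr ?_ fun _ _ => rfl))
    · ext x
      simp only [Finset.mem_filter]
    · ext x
      simp only [Finset.mem_filter]
  intro χ hχ
  have hirr : IsIrrChar (fun a => χ (ε a)) := by
    have : Fintype (chainStabilizer σ.1) := Fintype.ofFinite _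
    have : Fintype (chainStabilizer (Subgroup.map G.subtype '' σ.1) ⊓ G : Subgroup E) :=
      Fintype.ofFinite _
    exact irr_comp ε hχ
  refine and_congr ?_ ?_
  · have h4 : ∀ w ∈ ZU B U, centralValue red (fun a => χ (ε a)) (fun x => w.1 ((x : G) : E)) =
        centralValue red χ (fun x => w.1 x) := by
      intro w hw
      exact Pool.Agent.Y624.NV.centralValue_comp red ε hχ
          (f := fun x : (chainStabilizer (Subgroup.map G.subtype '' σ.1) ⊓ G : Subgroup E) => w.1 x)
          (fun g x => (zok_ZU B U).conj w hw g (hGU g.2.2) x)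
    constructor
    · intro h f hf
      have hB' : IsBlock (fun1 red (fun a => χ (ε a))) :=
        induces_block (p := p) red σ.2.chain (fun P hP => σ.2.isPGroup P hP) hirr (fun _ _ => rfl)
      refine uniq_U hB hB' hGU hI (fun w hw => ?_) hf
      exact (h4 w hw).trans (h w hw)
    · rintro h _ ⟨z, h5, h6, rfl⟩
      have h7 := h4 _ ⟨z, h5, h6, rfl⟩
      refine h7.symm.trans ?_
      refine h (fun a : G => z a) ?_
      intro a x
      exact h5 a (hGU a.2) x
  · have key2 : ∀ u : E, (∃ b : E, Fixes G σ.1 (fun a => χ (ε a)) b ∧ b⁻¹ * u ∈ G) ↔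
        u ∈ FixSub σ.1 (fun a => χ (ε a)) ⊔ G := fun u =>
      (((stabIs_iff' (FixSub σ.1 (fun a => χ (ε a)) ⊔ G) σ.1 (fun a => χ (ε a))).mpr rfl) u).symm
    have key3 : ∀ u : E, (∃ a ∈ chainStabilizer (Subgroup.map G.subtype '' σ.1),
        u⁻¹ * a ∈ G ∧ Fxw χ a) ↔ u ∈ FixSub σ.1 (fun a => χ (ε a)) ⊔ G := by
      intro u
      rw [← key2]
      refine exists_congr fun b => ?_
      rw [fix_iff' ε hε]
      have h5 : u⁻¹ * b ∈ G ↔ b⁻¹ * u ∈ G := by
        rw [← G.inv_mem_iff, mul_inv_rev, inv_inv]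
      rw [h5]
      tauto
    simp only [key2, key3]
    constructor
    · intro h u hu
      have hK : K ≤ FixSub σ.1 (fun a => χ (ε a)) ⊔ G := by
        intro y hy
        obtain ⟨k, hk, rfl⟩ := hcs y hy
        exact h ⟨k, by omega⟩
      have he : e ∈ FixSub σ.1 (fun a => χ (ε a)) ⊔ G := by
        have := h k₀
        change c 0 ∈ _ at this
        rwa [hc0] at this
      obtain ⟨k, hk⟩ := hgen u hu
      have h5 := Subgroup.mul_mem _ (Subgroup.pow_mem _ he k) (Subgroup.inv_mem _ (hK hk))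
      have e1 : e ^ k * (u⁻¹ * e ^ k)⁻¹ = u := by group
      rwa [e1] at h5
    · intro h k
      exact h _ (hcU k.1)

end

end Pool.Agent.H378.SF
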