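import Pool.Agent.H378.SF.FinA

/-!
# The alternating sums for `p`-hypoelementary groups of operators
-/

set_option autoImplicit false
set_option linter.unusedSectionVars false
set_option linter.unusedVariables false

open scoped Classical BigOperators Polynomial
open Polynomial
open Pool.Agent.Helper884.IC Pool.Agent.Y63.AWC Pool.Agent.Y63.KR Pool.Agent.X209.EQ
open Pool.Agent.X209.PJ hiding push
open Pool.Agent.X209.DI Pool.Agent.X209.DQ Pool.Agent.X209.NB Pool.Agent.H378.AC
open Pool.Agent.Y63.NV (IsClassFun IsBlock InZ centralValue redC conv classValue)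
open Pool.Agent.Q100.IV (Op NP op_np le_op)

noncomputable section

namespace Pool.Agent.H378.SF

attribute [-instance] MonoidHom.fintypeRange MonoidHom.decidableMemRange

section defs

variable {F : Type} [Field F] (red : integralClosure ℤ ℂ →+* F) {E : Type} [Group E]

/-- The number of the irreducible characters `ψ` of `N_G(σ)` of defect `d` in blocks which induce
`B`, such that `U ≤ N_E(σ, ψ) G`: each coset `u G` with `u ∈ U` contains an element which
normalises the members of the chain `σ` and fixes `ψ`. -/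
def kU (p : ℕ) {G : Subgroup E} (B : (G → F) → F) (d : ℕ) (U : Subgroup E)
    (σ : Set (Subgroup G)) : ℕ :=
  Nat.card {ψ : chainStabilizer σ → ℂ // IsIrrChar ψ ∧ HasDefect p d ψ ∧ Induces red B ψ ∧
    ∀ u ∈ U, ∃ b : E, Pool.Agent.X209.NB.Fixes G σ ψ b ∧ b⁻¹ * u ∈ G}

/-- the same number as a function of subgroups -/
def PsU (p : ℕ) {G : Subgroup E} (B : (G → F) → F) (d : ℕ) (U : Subgroup E)
    (S : Subgroup E) (T : Subgroup G) : ℤ :=
  (Nat.card T : ℤ) * (Nat.card {ψ : T → ℂ // IsIrrChar ψ ∧ HasDefect p d ψ ∧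
    (∀ f : G → F, IsClassFun f → centralValue red ψ (fun x => f x) = B f) ∧
    ∀ u ∈ U, ∃ b : E, (b ∈ S ∧ ∀ x y : T, ((y : G) : E) = b * ((x : G) : E) * b⁻¹ →
      ψ y = ψ x) ∧ b⁻¹ * u ∈ G} : ℤ)

end defs

section

variable {p : ℕ} [hp : Fact p.Prime] {F : Type} [Field F] [CharP F p]
  (red : integralClosure ℤ ℂ →+* F) {E : Type} [Group E] [Finite E] {G : Subgroup E}
  [hG : G.Normal] {B : (G → F) → F} {d : ℕ}

lemma psU_eq (U : Subgroup E) (σ : Set (Subgroup G)) :
    PsU red p B d U (chainStabilizer (Subgroup.map G.subtype '' σ))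
      ((chainStabilizer (Subgroup.map G.subtype '' σ)).comap G.subtype) =
      (Nat.card (chainStabilizer σ) : ℤ) * (kU red p B d U σ : ℤ) := by
  rw [stab_comap]
  unfold PsU kU
  congr 2
  refine Nat.card_congr (Equiv.subtypeEquivRight fun χ => ?_)
  refine and_congr_right fun _ => and_congr_right fun _ => and_congr Iff.rfl ?_
  refine forall_congr' fun u => imp_congr_right fun _ =>
    exists_congr fun b => and_congr_left fun _ => ?_
  unfold Pool.Agent.X209.NB.Fixes
  rw [mem_chainStabilizer]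
  refine and_congr ?_ Iff.rfl
  constructor
  · intro h P hP
    exact h _ ⟨P, hP, rfl⟩
  · rintro h _ ⟨P, hP, rfl⟩
    exact h P hP

lemma kU_conj (U : Subgroup E) (g : G) (σ : Set (Subgroup G))
    (hσ : IsChainAbove p (⊥ : Subgroup G) σ) :
    kU red p B d U (conjSub g '' σ) = kU red p B d U σ := by
  have h1 : Natural p (⊥ : Subgroup G) (fun σ ψ => HasDefect p d ψ ∧ Induces red B ψ ∧
      ∀ u ∈ U, ∃ b : E, Pool.Agent.X209.NB.Fixes G σ ψ b ∧ b⁻¹ * u ∈ G) := by
    intro g σ hσ χ hχ h2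
    refine ⟨defect_cj g σ h2.1, ?_, ?_⟩
    · intro f hf
      rw [cv_cj red g σ hχ hf]
      exact h2.2.1 f hf
    · intro u hu
      rw [exists_iff]
      exact (inU_conj _ g σ χ u).mp ((exists_iff _ χ u).mp (h2.2.2 u hu))
  exact kAll_conj h1 g σ hσ

/-- the block of a pair fixed by `U` modulo `G` is stable -/
lemma stable_of_pair {U : Subgroup E} {σ : Set (Subgroup G)} {ψ : chainStabilizer σ → ℂ}
    (h : IsIrrChar ψ) (hind : Induces red B ψ)
    (hU : ∀ u ∈ U, ∃ b : E, Fixes G σ ψ b ∧ b⁻¹ * u ∈ G) (u : E) (hu : u ∈ U)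
    (f : G → F) (hf : IsClassFun f) : B (fun x => f (MulAut.conjNormal u x)) = B f := by
  have h1 := (exists_iff σ ψ u).mp (hU u hu)
  obtain ⟨a, ha⟩ := h1
  have h2 := fix_stab red h hind ha hf
  rw [← h2]
  have h3 : IsClassFun (fun x : G => f (MulAut.conjNormal u x)) := by
    intro g x
    simp only [map_mul, map_inv]
    exact hf _ _
  congr 1
  funext x
  exact (h3 a x).symm

/-- the polynomial vanishes in all cases -/
theorem gU_zero (hT : ∀ (A : Type) [Group A] [Finite A], TT p red A) {B : (G → F) → F}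
    (hB : IsBlock B) (hD : NoDZ p red B) {U : Subgroup E} (hU : Hyp p G U) :
    gU red p B U = 0 := by
  by_cases hI : ∀ u ∈ U, ∀ f : G → F, IsClassFun f →
      B (fun x => f (MulAut.conjNormal u x)) = B f
  · exact gU_stable red hT hB hD hU hI
  · unfold gU
    refine Finset.sum_eq_zero fun σ _ => ?_
    rw [gf_zero, mul_zero, mul_zero]
    rintro ψ hψ ⟨h1, h2⟩
    exact hI fun u hu f hf => stable_of_pair red hψ h1 h2 u hu f hf

/-- **The alternating sums of the characters whose stabilisers contain `U` modulo `G`.** -/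
theorem alt_kU
    (hOrd : ∀ (H : Type) [Group H] [Finite H], IsCore p (⊥ : Subgroup H) → Ord red p H)
    (hcore : IsCore p (⊥ : Subgroup G)) (hB : IsBlock B) (hD : NoDZ p red B) (d : ℕ)
    {U : Subgroup E} (hU : Hyp p G U) :
    altW p (IsRad p) (fun σ : Set (Subgroup G) => (kU red p B d U σ : ℤ)) = 0 := by
  have : Fintype {σ : Set (Subgroup G) // IsChainAbove p (⊥ : Subgroup G) σ} := Fintype.ofFinite _
  have h1 := card_mul_altC (p := p) (A := (⊥ : Subgroup G))
    (fun σ => if IsRad p σ then (kU red p B d U σ : ℤ) else 0) (by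
      intro g σ hσ
      simp only [isRad_conj, kU_conj red U g σ hσ])
  have hO : Op p G = ⊥ := by
    have h2 := op_np (p := p) G
    have h3 : ((Op p G).subgroupOf G) ≤ ⊥ := by
      apply hcore.max
      · constructor
        intro n hn g
        rw [Subgroup.mem_subgroupOf] at hn ⊢
        have h4 := h2.nrm g g.2
        have h5 : (g : E) * n * (g : E)⁻¹ ∈ conjSub (g : E) (Op p G) := ⟨_, hn, rfl⟩
        rw [h4] at h5
        exact h5
      · exact h2.pg.comap_subtype
    rw [le_bot_iff, Subgroup.subgroupOf_eq_bot] at h3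
    rw [eq_bot_iff]
    exact h3 le_rfl h2.le
  have h2 := gU_zero red (fun A _ _ => tt_all red hOrd A) hB hD hU
  have h3 : ∑ σ : {σ : Set (Subgroup G) // IsPChain p σ}, (-1 : ℤ) ^ σ.1.ncard *
      ((Nat.card (chainStabilizer σ.1) : ℤ) * (kU red p B d U σ.1 : ℤ)) = 0 := by
    have h4 := congrArg (fun q : ℤ[X] => q.coeff d) h2
    simp only [coeff_zero] at h4
    unfold gU at h4
    rw [finsetSum_coeff] at h4
    refine (Finset.sum_congr rfl fun σ _ => ?_).trans h4
    have h5 : ((-1 : ℤ[X]) ^ σ.1.ncard) = C ((-1 : ℤ) ^ σ.1.ncard) := by simp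
    have h6 : (Nat.card (chainStabilizer σ.1) : ℤ[X]) =
          C ((Nat.card (chainStabilizer σ.1) : ℕ) : ℤ) := by simp
    rw [h5, coeff_C_mul, h6, coeff_C_mul, coeff_gf]
    rfl
  have h4 := cs_rad_hom G.subtype G.subtype_injective (Subgroup.range_subtype G) hO
    (fun S => PsU red p B d U S (S.comap G.subtype))
  simp only [psU_eq] at h4
  rw [h3] at h4
  have h5 : ∑ σ : {σ : Set (Subgroup G) // IsChainAbove p (⊥ : Subgroup G) σ},
      (-1 : ℤ) ^ σ.1.ncard * ((Nat.card (chainStabilizer σ.1) : ℤ) *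
        (if IsRad p σ.1 then (kU red p B d U σ.1 : ℤ) else 0)) = 0 := by
    refine (Fintype.sum_equiv (Equiv.subtypeEquivRight fun σ => ⟨above_pch, pch_above⟩) _ _
      fun σ => ?_).trans h4
    change _ = (-1 : ℤ) ^ σ.1.ncard * (if IsRad p σ.1 then
      (Nat.card (chainStabilizer σ.1) : ℤ) * (kU red p B d U σ.1 : ℤ) else 0)
    split_ifs
    · rfl
    · rw [mul_zero]
  rw [h5] at h1
  unfold altW
  refine (mul_eq_zero.mp h1).resolve_left ?_
  exact_mod_cast Nat.card_pos.ne'

/-- the decomposition by the stabilisers -/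
lemma kU_sum [Fintype (Subgroup E)] (U : Subgroup E) (σ : Set (Subgroup G)) :
    kU red p B d U σ = ∑ V : Subgroup E, if U ≤ V then kI red p B d V σ else 0 := by
  obtain ⟨Q, hQ⟩ : ∃ Q : (chainStabilizer σ → ℂ) → Prop, ∀ θ, Q θ ↔
    (HasDefect p d θ ∧ Induces red B θ) := ⟨fun θ => HasDefect p d θ ∧ Induces red B θ,
      fun _ => Iff.rfl⟩
  have h1 : kU red p B d U σ = ((IrF (chainStabilizer σ)).filter
      (fun θ => Q θ ∧ U ≤ FixSub σ θ ⊔ G)).card := by
    unfold kU
    rw [← Fintype.card_coe, ← Nat.card_eq_fintype_card]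
    refine Nat.card_congr (Equiv.subtypeEquivRight fun χ => ?_)
    rw [Finset.mem_filter, mem_IrF, hQ]
    have h2 : U ≤ FixSub σ χ ⊔ G ↔
        ∀ u ∈ U, ∃ b : E, Pool.Agent.X209.NB.Fixes G σ χ b ∧ b⁻¹ * u ∈ G :=
      forall_congr' fun u => imp_congr_right fun _ =>
        ((stabIs_iff' (FixSub σ χ ⊔ G) σ χ).mpr rfl) u
    rw [h2]
    tauto
  rw [h1, Finset.card_eq_sum_card_fiberwise (f := fun θ => FixSub σ θ ⊔ G)
    (t := (Finset.univ : Finset (Subgroup E))) (fun θ _ => Finset.mem_coe.mpr (Finset.mem_univ _))]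
  refine Finset.sum_congr rfl fun V _ => ?_
  split_ifs with h
  · unfold kI
    rw [← Fintype.card_coe, ← Nat.card_eq_fintype_card]
    refine Nat.card_congr (Equiv.subtypeEquivRight fun χ => ?_)
    rw [Finset.mem_filter, Finset.mem_filter, mem_IrF, stabIs_iff', hQ]
    constructor
    · rintro ⟨⟨h2, h3, h4⟩, h5⟩
      exact ⟨h2, h3.1, h3.2, h5.symm⟩
    · rintro ⟨h2, h3, h4, h5⟩
      exact ⟨⟨h2, ⟨h3, h4⟩, by rwa [← h5]⟩, h5.symm⟩
  · rw [Finset.card_eq_zero, Finset.filter_eq_empty_iff]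
    intro χ hχ h2
    apply h
    rw [← h2]
    exact (Finset.mem_filter.mp hχ).2.2

lemma alt_kU_sum [Fintype (Subgroup E)] (U : Subgroup E) :
    altW p (IsRad p) (fun σ : Set (Subgroup G) => (kU red p B d U σ : ℤ)) =
      ∑ V : Subgroup E, if U ≤ V then
        altW p (IsRad p) (fun σ : Set (Subgroup G) => (kI red p B d V σ : ℤ)) else 0 := by
  have h1 : (fun σ : Set (Subgroup G) => (kU red p B d U σ : ℤ)) = fun σ =>
      ∑ V : Subgroup E, (fun (V : Subgroup E) (σ : Set (Subgroup G)) =>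
        if U ≤ V then (kI red p B d V σ : ℤ) else 0) V σ := by
    funext σ
    rw [kU_sum]
    push_cast
    rfl
  rw [h1, altW_sum]
  refine Finset.sum_congr rfl fun V _ => ?_
  split_ifs
  · rfl
  · exact Pool.Agent.H378.AC.altW_zero _

/-- the subgroups of a `p`-hypoelementary group -/
lemma hyp_sub (h : Hyp p G (⊤ : Subgroup E)) {U : Subgroup E} (hGU : G ≤ U) : Hyp p G U := by
  obtain ⟨K, hGK, _, hK, hpK, e, _, hgen⟩ := h
  have hKn : K.Normal := Subgroup.normalizer_eq_top_iff.mp (top_le_iff.mp hK)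
  obtain ⟨y₁, hy⟩ := gen_sub (G := K) ⟨e, fun y => hgen y (Subgroup.mem_top _)⟩ U (K ⊓ U)
    (fun x hx => ⟨fun h => ⟨h, hx⟩, fun h => h.1⟩)
  refine ⟨K ⊓ U, le_inf hGK hGU, inf_le_right, ?_, fun x hx => hpK x hx.1, y₁, y₁.2, ?_⟩
  · intro u hu
    rw [Subgroup.mem_normalizer_iff]
    intro x
    rw [Subgroup.mem_inf, Subgroup.mem_inf]
    constructor
    · rintro ⟨h1, h2⟩
      exact ⟨hKn.conj_mem x h1 u, U.mul_mem (U.mul_mem hu h2) (U.inv_mem hu)⟩
    · rintro ⟨h1, h2⟩
      have e1 : u⁻¹ * (u * x * u⁻¹) * u⁻¹⁻¹ = x := by group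
      refine ⟨?_, ?_⟩
      · have := hKn.conj_mem _ h1 u⁻¹
        rwa [e1] at this
      · have := U.mul_mem (U.mul_mem (U.inv_mem hu) h2) (U.inv_mem (U.inv_mem hu))
        rwa [e1] at this
  · intro x hx
    obtain ⟨k, hk⟩ := hy ⟨x, hx⟩
    exact ⟨k, Subgroup.mem_subgroupOf.mp hk⟩

/-- **From the cosets to the stabilisers.** -/
theorem inv_of_kU (hc : Hyp p G (⊤ : Subgroup E))
    (h : ∀ U : Subgroup E, Hyp p G U → ∀ B : (G → F) → F, IsBlock B → NoDZ p red B → ∀ d : ℕ,
      altW p (IsRad p) (fun σ : Set (Subgroup G) => (kU red p B d U σ : ℤ)) = 0) :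
    Invt red p G := by
  have : Fintype (Subgroup E) := Fintype.ofFinite _
  intro B hB hD d
  have key : ∀ (n : ℕ) (U : Subgroup E), Nat.card E - Nat.card U = n →
      altW p (IsRad p) (fun σ : Set (Subgroup G) => (kI red p B d U σ : ℤ)) = 0 := by
    intro n
    induction n using Nat.strong_induction_on with
    | _ n ih =>
    intro U hU
    by_cases hGU : G ≤ U
    · have h1 := h U (hyp_sub hc hGU) B hB hD d
      rw [alt_kU_sum red U, Finset.sum_eq_single U] at h1
      · rwa [if_pos le_rfl] at h1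
      · intro V _ hVU
        split_ifs with huV
        · have h3 : Nat.card U < Nat.card V := by
            have h4 := Subgroup.card_le_of_le huV
            refine lt_of_le_of_ne h4 fun h5 => hVU ?_
            exact (Subgroup.eq_of_le_of_card_ge huV h5.ge).symm
          have h4 : Nat.card V ≤ Nat.card E := Nat.le_of_dvd Nat.card_pos V.card_subgroup_dvd_card
          exact ih (Nat.card E - Nat.card V) (by omega) V rfl
        · rfl
      · intro h2
        exact absurd (Finset.mem_univ _) h2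
    · simp only [kI_zero red hGU, Nat.cast_zero]
      exact Pool.Agent.H378.AC.altW_zero _
  exact fun U => key _ U rfl

end

section

variable {p : ℕ} [hp : Fact p.Prime] {F : Type} [Field F] [CharP F p]
  (red : integralClosure ℤ ℂ →+* F)

lemma hyp_cyc {E : Type} [Group E] [Finite E] {G : Subgroup E} [G.Normal]
    (h : ∃ e₀ : E, G ⊔ Subgroup.zpowers e₀ = ⊤) : Hyp p G (⊤ : Subgroup E) := by
  have hc := cyc_gen h
  obtain ⟨q, hq⟩ := hc.exists_generator
  obtain ⟨e, rfl⟩ := QuotientGroup.mk_surjective q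
  refine ⟨G, le_rfl, le_top, ?_, fun x hx => ⟨0, by simpa using hx⟩, e, Subgroup.mem_top _, ?_⟩
  · rw [Subgroup.normalizer_eq_top_iff.mpr inferInstance]
  · intro x _
    have h1 := hq (QuotientGroup.mk x)
    rw [← mem_powers_iff_mem_zpowers] at h1
    obtain ⟨k, hk⟩ := h1
    exact ⟨k, QuotientGroup.eq.mp ((hk : (QuotientGroup.mk (e ^ k) : E ⧸ G) =
      QuotientGroup.mk x).symm)⟩

/-- **The equivalence.** -/
theorem hypoelementary : List.TFAE [
    ∀ (H : Type) [Group H] [Finite H], IsCore p (⊥ : Subgroup H) → Ord red p H,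
    ∀ (E : Type) [Group E] [Finite E] (G : Subgroup E) [G.Normal], IsCore p (⊥ : Subgroup G) →
      Hyp p G (⊤ : Subgroup E) → Invt red p G,
    ∀ (E : Type) [Group E] [Finite E] (G : Subgroup E) [G.Normal], IsCore p (⊥ : Subgroup G) →
      ∀ U : Subgroup E, Hyp p G U → ∀ B : (G → F) → F, IsBlock B → NoDZ p red B → ∀ d : ℕ,
        altW p (IsRad p) (fun σ : Set (Subgroup G) => (kU red p B d U σ : ℤ)) = 0] := by
  tfae_have 1 → 3 := by
    intro h E _ _ G _ hc U hU B hB hD d
    exact alt_kU red h hc hB hD d hU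
  tfae_have 3 → 2 := by
    intro h E _ _ G _ hc hcyc
    exact inv_of_kU red hcyc (h E G hc)
  tfae_have 2 → 1 := by
    intro h H _ _ hc
    exact ord_of_inv red (fun E _ _ G _ hcore _ hE => h E G hcore (hyp_cyc hE)) hc
  tfae_finish

end

end Pool.Agent.H378.SF
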