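import Pool.Agent.H378.SF.Kun
import Pool.Agent.H378.AC.Loc
import Pool.Graph.R_pool_sql_team_seeded_2aa45f1a.Q100.CQ.Cliff

/-!
# The functions `∑ w(χ) χ(1) χ / |H|` and subgroups of index `p`
-/

set_option autoImplicit false
set_option linter.unusedSectionVars false
set_option linter.unusedVariables false

open scoped Classical BigOperators
open Pool.Agent.Helper884.IC Pool.Agent.Y63.AWC Pool.Agent.Y63.KR Pool.Agent.X209.EQ
open Pool.Agent.X209.PJ hiding push
open Pool.Agent.X209.DI Pool.Agent.X209.DQ Pool.Agent.H378.AC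
open Pool.Agent.Q100.CQ (push push_apply push_zero sum_push mlt mlt_conj SS_all CJ)
open Pool.Agent.Y63.NV (IsClassFun IsBlock InZ centralValue redC conv)

noncomputable section

namespace Pool.Agent.H378.SF

attribute [-instance] MonoidHom.fintypeRange MonoidHom.decidableMemRange

/-- `p ^ d(χ) χ(1) / |H|` -/
def rr (p : ℕ) {H : Type} [Group H] (χ : H → ℂ) : ℂ :=
  (p : ℂ) ^ dfc p χ * (dg χ : ℂ) / (Nat.card H : ℂ)

section

variable {A Y : Type} [Group A] [Group Y] [Fintype A] [Fintype Y] (i : A →* Y)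
  (hi : Function.Injective i) [hn : i.range.Normal]

lemma mlt_eq {θ : A → ℂ} {χ : Y → ℂ} (hθ : IsIrrChar θ) (hχ : IsIrrChar χ) :
    mlt i θ χ = (mult i.range χ (fun u => θ ((MonoidHom.ofInjective hi).symm u)) : ℂ) := by
  let E := MonoidHom.ofInjective hi
  have ht : IsIrrChar (fun u => θ (E.symm u)) := irr_comp E.symm hθ
  rw [← mult_spec i.range hχ ht, B_comm]
  unfold mlt B
  have h1 : (Nat.card A : ℂ) = Nat.card i.range := by
    rw [Nat.card_congr E.toEquiv]
  rw [h1]
  congr 1
  refine Fintype.sum_equiv E.toEquiv _ _ fun a => ?_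
  change θ a * χ (i a⁻¹) = θ (E.symm (E a)) * res i.range χ (E a)⁻¹
  rw [E.symm_apply_apply, ← map_inv]
  rfl

lemma ov_of_mlt {θ : A → ℂ} {χ : Y → ℂ} (hθ : IsIrrChar θ) (hχ : IsIrrChar χ)
    (h : mlt i θ χ ≠ 0) : Ov i hi χ θ := by
  intro h1
  apply h
  rw [mlt_eq i hi hθ hχ, h1, Nat.cast_zero]

variable {g : Y} (hg : ∀ y : Y, ∃ k : ℕ, y⁻¹ * g ^ k ∈ i.range)

include hg in
lemma dg_over {χ : Y → ℂ} {θ : A → ℂ} (hc : IsIrrChar χ) (h : IsIrrChar θ) (ho : Ov i hi χ θ) :
    dg χ * (wd i θ * Nat.card A) = Nat.card Y * dg θ := by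
  let E := MonoidHom.ofInjective hi
  have ht : IsIrrChar (fun u => θ (E.symm u)) := irr_comp E.symm h
  obtain ⟨hd1, hd2⟩ := dg_spec hc
  obtain ⟨hd3, hd4⟩ := dg_spec h
  have hd3' : (fun u => θ (E.symm u)) 1 = (dg θ : ℂ) := by
    simp only [map_one]
    exact hd3
  have h2 := deg_eq i.range hc ht ho hd1 hd3'
  have h3 : mult i.range χ (fun u => θ (E.symm u)) = 1 :=
    le_antisymm (mult_le_one i.range hg ht hc) (Nat.pos_of_ne_zero ho)
  rw [h3, mul_one] at h2
  have h4 := card_Orb_mul i.range (fun u => θ (E.symm u))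
  have h5 : Nat.card (St i.range (fun u => θ (E.symm u))) = wd i θ * Nat.card A := by
    rw [← wd_mul i hi h]
    exact Nat.card_congr (Equiv.subtypeEquivRight fun y => St_iff i hi θ y)
  rw [h5] at h4
  rw [h2, ← h4]
  ring

include hg in
lemma rr_over {p : ℕ} [hp : Fact p.Prime] (hcard : Nat.card Y = p * Nat.card A) {χ : Y → ℂ}
    {θ : A → ℂ} (hc : IsIrrChar χ) (h : IsIrrChar θ) (ho : Ov i hi χ θ) : rr p χ = rr p θ := by
  have h1 := dfc_over (p := p) i hi hg hc h ho
  have h2 := dg_over i hi hg hc h ho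
  have hd : wd i θ ∣ p := by
    have h3 := h2
    rw [hcard] at h3
    have hA : 0 < Nat.card A := Nat.card_pos
    have h4 : dg χ * wd i θ = p * dg θ := by
      apply Nat.eq_of_mul_eq_mul_right hA
      rw [mul_assoc, h3]
      ring
    -- the order of the stabiliser divides the order of `Y`
    have h5 := wd_mul i hi h
    let E := MonoidHom.ofInjective hi
    have h6 : Nat.card {y : Y // Fx i y θ} = Nat.card (St i.range (fun u => θ (E.symm u))) :=
      Nat.card_congr (Equiv.subtypeEquivRight fun y => (St_iff i hi θ y).symm)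
    have h7 : Nat.card (St i.range (fun u => θ (E.symm u))) ∣ Nat.card Y :=
      Subgroup.card_subgroup_dvd_card _
    rw [← h6, h5, hcard] at h7
    exact Nat.dvd_of_mul_dvd_mul_right hA h7
  have hw : ((p : ℂ)) ^ (wd i θ).factorization p = (wd i θ : ℂ) := by
    rcases (Nat.dvd_prime hp.out).mp hd with h3 | h3
    · rw [h3]
      simp
    · rw [h3, hp.out.factorization_self, pow_one]
  have hA : (Nat.card A : ℂ) ≠ 0 := by exact_mod_cast Nat.card_pos.ne'
  have hY : (Nat.card Y : ℂ) ≠ 0 := by exact_mod_cast Nat.card_pos.ne'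
  have h2' : (dg χ : ℂ) * ((wd i θ : ℂ) * (Nat.card A : ℂ)) = (Nat.card Y : ℂ) * (dg θ : ℂ) := by
    exact_mod_cast h2
  unfold rr
  rw [h1, pow_add, hw]
  rw [div_eq_div_iff hY hA]
  linear_combination (p : ℂ) ^ dfc p θ * h2'

include hi hg in
/-- **The functions of `Y` and `A`.** -/
theorem step_fn {p : ℕ} [hp : Fact p.Prime] (m : ℕ) (hcard : Nat.card Y = p * Nat.card A)
    (P : (Y → ℂ) → Prop) (Q : (A → ℂ) → Prop)
    (hPQ : ∀ χ θ, IsIrrChar χ → IsIrrChar θ → Ov i hi χ θ → (P χ ↔ Q θ))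
    (hQ : ∀ (y : Y) (α : A ≃* A), (∀ a, i (α a) = y * i a * y⁻¹) → ∀ θ, IsIrrChar θ → Q θ →
      Q (fun a => θ (α a))) (y : Y) :
    ∑ χ ∈ (IrF Y).filter P, rr p χ ^ m * (χ 1 * χ y) / (Nat.card Y : ℂ) =
      push i (fun a => ∑ θ ∈ (IrF A).filter Q, rr p θ ^ m * (θ 1 * θ a) / (Nat.card A : ℂ)) y := by
  have hY := cardG_ne (G := Y)
  have hA := cardG_ne (G := A)
  set w : (A → ℂ) → ℂ := fun θ => if Q θ then rr p θ ^ m * θ 1 / (Nat.card A : ℂ) else 0 with hw
  set f : A → ℂ := fun a => ∑ θ ∈ (IrF A).filter Q, rr p θ ^ m * (θ 1 * θ a) / (Nat.card A : ℂ)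
    with hf
  have hfw : ∀ a, f a = ∑ θ ∈ Irr A, w θ * θ a := by
    intro a
    simp only [hf, hw]
    rw [IrF_eq, Finset.sum_filter]
    refine Finset.sum_congr rfl fun θ _ => ?_
    split_ifs <;> ring
  -- conjugation
  have hfc : ∀ (y : Y) (α : A ≃* A), (∀ a, i (α a) = y * i a * y⁻¹) → ∀ a, f (α a) = f a := by
    intro y α hα a
    have hα' : ∀ a, i (α.symm a) = y⁻¹ * i a * y⁻¹⁻¹ := by
      intro a
      have h1 := hα (α.symm a)
      rw [α.apply_symm_apply] at h1
      rw [h1]
      group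
    have hwc : ∀ θ, IsIrrChar θ → w (fun a => θ (α a)) = w θ := by
      intro θ hθ
      have hd : dg (fun a => θ (α a)) = dg θ := by
        have h1 := (dg_spec (irr_comp α hθ)).1
        have h2 := (dg_spec hθ).1
        have h3 : ((dg (fun a => θ (α a)) : ℕ) : ℂ) = (dg θ : ℂ) := by
          rw [← h1, ← h2, map_one]
        exact_mod_cast h3
      have h4 : Q (fun a => θ (α a)) ↔ Q θ := by
        constructor
        · intro h
          have h5 := hQ y⁻¹ α.symm hα' _ (irr_comp α hθ) h
          simp only [α.apply_symm_apply] at h5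
          exact h5
        · exact hQ y α hα θ hθ
      simp only [hw, h4]
      unfold rr dfc
      rw [hd, map_one]
    rw [hfw, hfw]
    refine Finset.sum_bij' (fun θ _ => fun a => θ (α a)) (fun θ _ => fun a => θ (α.symm a))
      ?_ ?_ ?_ ?_ ?_
    · intro θ hθ
      exact mem_Irr.mpr (irr_comp α (mem_Irr.mp hθ))
    · intro θ hθ
      exact mem_Irr.mpr (irr_comp α.symm (mem_Irr.mp hθ))
    · intro θ _
      funext a
      simp
    · intro θ _
      funext a
      simp
    · intro θ hθ
      rw [hwc θ (mem_Irr.mp hθ)]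
  have hnorm : ∀ y : Y, ∃ α : A ≃* A, ∀ a, i (α a) = y * i a * y⁻¹ := by
    intro y
    let E := MonoidHom.ofInjective hi
    refine ⟨(E.trans (MulAut.conjNormal y)).trans E.symm, fun a => ?_⟩
    have hE : ∀ a, ((E a : i.range) : Y) = i a := fun a => rfl
    change i (E.symm (MulAut.conjNormal y (E a))) = _
    rw [← hE, E.apply_symm_apply, MulAut.conjNormal_apply, hE]
  choose α hα using hnorm
  have hCJ : CJ i α := ⟨hi, hα⟩
  have hclass : IsClass (push i f) := by
    intro z y
    unfold push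
    refine Fintype.sum_equiv (α y).symm.toEquiv _ _ fun x => ?_
    change (if i x = y * z * y⁻¹ then f x else 0) =
      if i ((α y).symm x) = z then f ((α y).symm x) else 0
    have e1 : x = α y ((α y).symm x) := by simp
    have e2 : f x = f ((α y).symm x) := by
      conv_lhs => rw [e1]
      exact hfc y (α y) (hα y) _
    have e3 : i x = y * z * y⁻¹ ↔ i ((α y).symm x) = z := by
      conv_lhs => rw [e1, hα]
      constructor
      · intro h
        have := mul_left_cancel (mul_right_cancel h)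
        exact this
      · intro h
        rw [h]
    rw [e2]
    simp only [e3]
  have key : (∑ χ ∈ (Irr Y).filter P, (rr p χ ^ m * χ 1 / (Nat.card Y : ℂ)) • χ) - push i f = 0 := by
    refine class_eq_zero _ ?_ ?_
    · intro x y
      simp only [Pi.sub_apply]
      rw [hclass x y, Finset.sum_apply, Finset.sum_apply]
      congr 1
      refine Finset.sum_congr rfl fun χ hχ => ?_
      simp only [Pi.smul_apply]
      rw [(mem_Irr.mp (Finset.mem_filter.mp hχ).1).isClass]
    · intro χ hχ
      rw [B_sub_left, B_sum_left]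
      have h1 : ∀ ψ ∈ (Irr Y).filter P, B ((rr p ψ ^ m * ψ 1 / (Nat.card Y : ℂ)) • ψ) χ =
          if ψ = χ then rr p χ ^ m * χ 1 / (Nat.card Y : ℂ) else 0 := by
        intro ψ hψ
        rw [B_smul_left, B_irr (mem_Irr.mp (Finset.mem_filter.mp hψ).1) hχ]
        by_cases h3 : ψ = χ
        · rw [if_pos h3, if_pos h3, h3, mul_one]
        · rw [if_neg h3, if_neg h3, mul_zero]
      rw [Finset.sum_congr rfl h1, Finset.sum_ite_eq' ((Irr Y).filter P) χ]
      have h2 : B (push i f) χ = (Nat.card Y : ℂ)⁻¹ * ∑ θ ∈ Irr A,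
          (Nat.card A : ℂ) * (w θ * mlt i θ χ) := by
        unfold B
        rw [sum_push i f (fun g => χ g⁻¹)]
        congr 1
        simp only [hfw, Finset.sum_mul]
        rw [Finset.sum_comm]
        refine Finset.sum_congr rfl fun θ _ => ?_
        unfold mlt B
        have e : (Nat.card A : ℂ) * (w θ * ((Nat.card A : ℂ)⁻¹ * ∑ g : A, θ g * χ (i g⁻¹))) =
            w θ * ∑ g : A, θ g * χ (i g⁻¹) := by
          field_simp
        rw [e, Finset.mul_sum]
        refine Finset.sum_congr rfl fun a _ => ?_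
        rw [map_inv]
        ring
      rw [h2]
      have h3 : ∀ θ ∈ Irr A, (Nat.card A : ℂ) * (w θ * mlt i θ χ) =
          (if P χ then rr p χ ^ m else 0) * (θ 1 * mlt i θ χ) := by
        intro θ hθ
        have hθ' := mem_Irr.mp hθ
        by_cases h0 : mlt i θ χ = 0
        · rw [h0]
          ring
        · have ho := ov_of_mlt i hi hθ' hχ h0
          have h4 := hPQ χ θ hχ hθ' ho
          have h5 := rr_over i hi hg (p := p) hcard hχ hθ' ho
          simp only [hw, h4, h5]
          split_ifs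
          · field_simp
          · ring
      rw [Finset.sum_congr rfl h3, ← Finset.mul_sum]
      have h4 := SS_all (ι := i) χ (Pool.Agent.Q100.CQ.res_class hCJ hχ.isClass)
      unfold Pool.Agent.Q100.CQ.SS' at h4
      rw [h4]
      by_cases hP : P χ
      · rw [if_pos (Finset.mem_filter.mpr ⟨mem_Irr.mpr hχ, hP⟩), if_pos hP]
        ring
      · rw [if_neg (fun h => hP (Finset.mem_filter.mp h).2), if_neg hP]
        ring
  have h5 := congrFun key y
  simp only [Pi.sub_apply, Pi.zero_apply, Finset.sum_apply, Pi.smul_apply, smul_eq_mul] at h5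
  rw [IrF_eq, ← sub_eq_zero.mp h5]
  refine Finset.sum_congr rfl fun χ _ => ?_
  ring

end

end Pool.Agent.H378.SF
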