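import Pool.Agent.H378.SF.Pos

/-!
# Sums over the chains of a direct product of subgroups
-/

set_option autoImplicit false
set_option linter.unusedSectionVars false

open scoped Classical BigOperators

noncomputable section

namespace Pool.Agent.H378.SF

open Pool.Agent.Q100.IV Pool.Agent.Q100.PX Pool.Agent.Y63.KR Pool.Agent.H378.AC
open Pool.Agent.Q90.WR (exists_moebius)
open Pool.Agent.N22.DD

section wt

variable {W : Type} [Group W] [Finite W] {p : ℕ}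

/-- the `p`-subgroups of `X` normalised by `L` -/
def iv (p : ℕ) (L : Set W) (X : Subgroup W) : Finset (Subgroup W) :=
  fs {P : Subgroup W | IsPGroup p P ∧ P ≤ X ∧ ∀ x ∈ L, conjSub x P = P}

lemma mem_iv {L : Set W} {X P : Subgroup W} :
    P ∈ iv p L X ↔ IsPGroup p P ∧ P ≤ X ∧ ∀ x ∈ L, conjSub x P = P := by
  unfold iv
  rw [mem_fs]
  exact Iff.rfl

lemma iv_above {L : Set W} {X P : Subgroup W} (hP : P ∈ iv p L X) :
    (iv p L X).filter (P ≤ ·) = insert P (SS p L X P) := by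
  ext Q
  rw [Finset.mem_filter, Finset.mem_insert, mem_SS, mem_iv]
  constructor
  · rintro ⟨⟨h1, h2, h3⟩, h4⟩
    rcases h4.eq_or_lt with h5 | h5
    · exact Or.inl h5.symm
    · exact Or.inr ⟨h1, h5, h2, h3⟩
  · rintro (rfl | ⟨h1, h2, h3, h4⟩)
    · exact ⟨mem_iv.mp hP, le_rfl⟩
    · exact ⟨⟨h1, h3, h4⟩, h2.le⟩

lemma notMem_SS {L : Set W} {X P : Subgroup W} : P ∉ SS p L X P := by
  rw [mem_SS]
  exact fun h => lt_irrefl _ h.2.1

lemma w_one {L : Set W} {X P : Subgroup W} (hP : P ∈ iv p L X) :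
    ∑ Q ∈ (iv p L X).filter (P ≤ ·), alt (· ≤ ·) (SS p L X Q) = 1 := by
  rw [iv_above hP, Finset.sum_insert notMem_SS]
  have h := alt_least po_le (SS p L X P)
  have h2 : ∀ Q ∈ SS p L X P, alt (· ≤ ·) (up (· ≤ ·) (SS p L X P) Q) =
      alt (· ≤ ·) (SS p L X Q) := fun Q hQ => by rw [up_SS hQ]
  rw [Finset.sum_congr rfl h2] at h
  rw [h]
  ring

lemma w_unique {L : Set W} {X : Subgroup W} (g : Subgroup W → ℤ)
    (hg : ∀ P ∈ iv p L X, ∑ Q ∈ (iv p L X).filter (P ≤ ·), g Q = 1) :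
    ∀ P ∈ iv p L X, g P = alt (· ≤ ·) (SS p L X P) := by
  have key : ∀ (n : ℕ) (P : Subgroup W), Nat.card W - Nat.card P = n → P ∈ iv p L X →
      g P = alt (· ≤ ·) (SS p L X P) := by
    intro n
    induction n using Nat.strong_induction_on with
    | _ n ih =>
    intro P hn hP
    have h1 := hg P hP
    have h2 := w_one hP
    rw [iv_above hP, Finset.sum_insert notMem_SS] at h1 h2
    have h3 : ∑ Q ∈ SS p L X P, g Q = ∑ Q ∈ SS p L X P, alt (· ≤ ·) (SS p L X Q) := by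
      refine Finset.sum_congr rfl fun Q hQ => ?_
      rw [mem_SS] at hQ
      have h7 : Nat.card P < Nat.card Q := by
        refine lt_of_le_of_ne (Subgroup.card_le_of_le hQ.2.1.le) fun h8 => hQ.2.1.ne ?_
        exact Subgroup.eq_of_le_of_card_ge hQ.2.1.le h8.ge
      have h8 : Nat.card Q ≤ Nat.card W := Nat.le_of_dvd Nat.card_pos Q.card_subgroup_dvd_card
      exact ih (Nat.card W - Nat.card Q) (by omega) Q rfl (mem_iv.mpr ⟨hQ.1, hQ.2.2.1, hQ.2.2.2⟩)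
    rw [h3] at h1
    linarith
  exact fun P hP => key _ P rfl hP

end wt

section prod

variable {Y Y' : Type} [Group Y] [Group Y'] [Finite Y] [Finite Y'] {p : ℕ}

lemma alt_prod (L : Subgroup (Y × Y')) (X₁ : Subgroup Y) (X₂ : Subgroup Y') :
    alt (· ≤ ·) (SS p (L : Set (Y × Y')) (X₁.prod X₂) ⊥) =
      alt (· ≤ ·) (SS p (f1 L : Set Y) X₁ ⊥) * alt (· ≤ ·) (SS p (f2 L : Set Y') X₂ ⊥) := by
  have hb1 : (⊥ : Subgroup Y) ∈ iv p (f1 L : Set Y) X₁ :=
    mem_iv.mpr ⟨IsPGroup.of_bot, bot_le, fun x _ => conjSub_bot x⟩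
  have hb2 : (⊥ : Subgroup Y') ∈ iv p (f2 L : Set Y') X₂ :=
    mem_iv.mpr ⟨IsPGroup.of_bot, bot_le, fun x _ => conjSub_bot x⟩
  have hb : (⊥ : Subgroup (Y × Y')) ∈ iv p (L : Set (Y × Y')) (X₁.prod X₂) :=
    mem_iv.mpr ⟨IsPGroup.of_bot, bot_le, fun x _ => conjSub_bot x⟩
  have h := w_unique (p := p) (L := (L : Set (Y × Y'))) (X := X₁.prod X₂)
    (fun P => if P = (f1 P).prod (f2 P) then alt (· ≤ ·) (SS p (f1 L : Set Y) X₁ (f1 P)) *
      alt (· ≤ ·) (SS p (f2 L : Set Y') X₂ (f2 P)) else 0) ?_ ⊥ hb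
  · rw [← h]
    simp only [f1_bot, f2_bot, Subgroup.bot_prod_bot, if_true]
  · intro P hP
    have hPi : ∀ Q : Subgroup (Y × Y'), Q ∈ iv p (L : Set (Y × Y')) (X₁.prod X₂) →
        f1 Q ∈ iv p (f1 L : Set Y) X₁ ∧ f2 Q ∈ iv p (f2 L : Set Y') X₂ := by
      intro Q hQ
      rw [mem_iv] at hQ
      rw [mem_iv, mem_iv]
      refine ⟨⟨isPGroup_f1 hQ.1, (le_prod.mp hQ.2.1).1, ?_⟩, isPGroup_f2 hQ.1,
        (le_prod.mp hQ.2.1).2, ?_⟩
      · intro z hz
        obtain ⟨w, hw⟩ := mem_f1.mp hz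
        rw [← conj_f1 (z, w) Q, hQ.2.2 _ hw]
      · intro z hz
        obtain ⟨w, hw⟩ := mem_f2.mp hz
        rw [← conj_f2 (w, z) Q, hQ.2.2 _ hw]
    rw [← Finset.sum_filter]
    have e : ∑ Q ∈ ((iv p (L : Set (Y × Y')) (X₁.prod X₂)).filter
        (P ≤ ·)).filter (fun Q => Q = (f1 Q).prod (f2 Q)),
          alt (· ≤ ·) (SS p (f1 L : Set Y) X₁ (f1 Q)) *
            alt (· ≤ ·) (SS p (f2 L : Set Y') X₂ (f2 Q)) =
        ∑ R ∈ ((iv p (f1 L : Set Y) X₁).filter (f1 P ≤ ·)) ×ˢ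
          ((iv p (f2 L : Set Y') X₂).filter (f2 P ≤ ·)),
            alt (· ≤ ·) (SS p (f1 L : Set Y) X₁ R.1) *
            alt (· ≤ ·) (SS p (f2 L : Set Y') X₂ R.2) := by
      refine Finset.sum_bij' (fun Q _ => (f1 Q, f2 Q)) (fun R _ => R.1.prod R.2) ?_ ?_ ?_ ?_ ?_
      · intro Q hQ
        rw [Finset.mem_filter, Finset.mem_filter] at hQ
        obtain ⟨⟨a1, a2⟩, a3⟩ := hQ
        rw [a3] at a2
        have a4 := le_prod.mp a2
        rw [Finset.mem_product, Finset.mem_filter, Finset.mem_filter]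
        exact ⟨⟨(hPi Q a1).1, a4.1⟩, (hPi Q a1).2, a4.2⟩
      · rintro ⟨R₁, R₂⟩ hR
        rw [Finset.mem_product, Finset.mem_filter, Finset.mem_filter] at hR
        obtain ⟨⟨a1, a2⟩, a3, a4⟩ := hR
        simp only at a1 a2 a3 a4
        rw [mem_iv] at a1 a3
        rw [Finset.mem_filter, Finset.mem_filter, mem_iv, f1_prod, f2_prod]
        refine ⟨⟨⟨isPGroup_prod a1.1 a3.1, Subgroup.prod_mono a1.2.1 a3.2.1, ?_⟩,
          le_prod.mpr ⟨a2, a4⟩⟩, rfl⟩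
        rintro ⟨c, d⟩ hx
        rw [conj_prod, a1.2.2 c (mem_f1.mpr ⟨d, hx⟩), a3.2.2 d (mem_f2.mpr ⟨c, hx⟩)]
      · intro Q hQ
        rw [Finset.mem_filter] at hQ
        exact hQ.2.symm
      · rintro ⟨R₁, R₂⟩ _
        exact Prod.ext (f1_prod _ _) (f2_prod _ _)
      · intro Q _
        rfl
    rw [e, Finset.sum_product]
    simp only
    rw [← Finset.sum_mul_sum, w_one (hPi P hP).1, w_one (hPi P hP).2, one_mul]

variable {R : Type} [CommRing R]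

/-- **The sum over the chains of a direct product.** -/
theorem cs_prod (X₁ : Subgroup Y) (X₂ : Subgroup Y') (Φ : Subgroup (Y × Y') → R) :
    CS p (X₁.prod X₂) Φ = ∑ σ : ChX p X₁, ∑ τ : ChX p X₂, (-1 : R) ^ σ.1.ncard *
      ((-1 : R) ^ τ.1.ncard * Φ ((chainStabilizer σ.1).prod (chainStabilizer τ.1))) := by
  have : Fintype (Subgroup (Y × Y')) := Fintype.ofFinite _
  obtain ⟨c, hc⟩ := exists_moebius Φ
  rw [cs_eq _ hc]
  have key : ∀ L : Subgroup (Y × Y'), ∀ r : R,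
      ((alt (· ≤ ·) (SS p (L : Set (Y × Y')) (X₁.prod X₂) ⊥) : ℤ) : R) * r =
      ∑ σ : ChX p X₁, ∑ τ : ChX p X₂, (-1 : R) ^ σ.1.ncard * ((-1 : R) ^ τ.1.ncard *
        (if L ≤ (chainStabilizer σ.1).prod (chainStabilizer τ.1) then r else 0)) := by
    intro L r
    have e1 : ∑ σ : ChX p X₁, ∑ τ : ChX p X₂, (-1 : R) ^ σ.1.ncard * ((-1 : R) ^ τ.1.ncard *
        (if L ≤ (chainStabilizer σ.1).prod (chainStabilizer τ.1) then r else 0)) =
        (∑ σ : ChX p X₁, (-1 : R) ^ σ.1.ncard *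
          (if f1 L ≤ chainStabilizer σ.1 then (1 : R) else 0)) *
        ∑ τ : ChX p X₂, (-1 : R) ^ τ.1.ncard *
          (if f2 L ≤ chainStabilizer τ.1 then r else 0) := by
      rw [Finset.sum_mul_sum]
      refine Finset.sum_congr rfl fun σ _ => Finset.sum_congr rfl fun τ _ => ?_
      have h := le_prod (P := L) (H := chainStabilizer σ.1) (L := chainStabilizer τ.1)
      by_cases c1 : f1 L ≤ chainStabilizer σ.1
      · by_cases c2 : f2 L ≤ chainStabilizer τ.1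
        · rw [if_pos (h.mpr ⟨c1, c2⟩), if_pos c1, if_pos c2]
          ring
        · rw [if_neg (fun h' => c2 (h.mp h').2), if_neg c2]
          simp
      · rw [if_neg (fun h' => c1 (h.mp h').1), if_neg c1]
        simp
    rw [e1, chx_sum', chx_sum', alt_prod, mul_one]
    push_cast
    ring
  rw [Finset.sum_congr rfl fun L _ => key L (c L), Finset.sum_comm]
  refine Finset.sum_congr rfl fun σ _ => ?_
  rw [Finset.sum_comm]
  refine Finset.sum_congr rfl fun τ _ => ?_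
  rw [hc, Finset.mul_sum, Finset.mul_sum]

lemma cq_prod (M₁ : Subgroup Y) (M₂ : Subgroup Y') (Q : Subgroup (Y × Y')) :
    CQ (M₁.prod M₂) Q = (CQ M₁ (f1 Q)).prod (CQ M₂ (f2 Q)) := by
  ext ⟨a, b⟩
  rw [mem_CQ, Subgroup.mem_prod, Subgroup.mem_prod, mem_CQ, mem_CQ]
  constructor
  · rintro ⟨⟨h1, h2⟩, h3⟩
    refine ⟨⟨h1, fun q hq => ?_⟩, h2, fun q hq => ?_⟩
    · obtain ⟨w, hw⟩ := mem_f1.mp hq
      exact congrArg Prod.fst (h3 _ hw)
    · obtain ⟨w, hw⟩ := mem_f2.mp hq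
      exact congrArg Prod.snd (h3 _ hw)
  · rintro ⟨⟨h1, h3⟩, h2, h4⟩
    refine ⟨⟨h1, h2⟩, ?_⟩
    rintro ⟨q, r⟩ hq
    exact Prod.ext (h3 q (mem_f1.mpr ⟨r, hq⟩)) (h4 r (mem_f2.mpr ⟨q, hq⟩))

end prod

end Pool.Agent.H378.SF
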