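import Pool.Agent.H378.AC.Dz
import Pool.Agent.H378.AC.Loc
import Pool.Graph.R_seed8.Y63.NV.Infl

/-!
# Characters of defect zero of the fixed points of a `p`-group
-/

set_option autoImplicit false
set_option linter.unusedSectionVars false
set_option linter.unusedVariables false

open scoped Classical BigOperators
open Pool.Agent.Helper884.IC (IsIrrChar Irr mem_Irr)
open Pool.Agent.Y63.NV (IsClassFun IsBlock InZ centralValue redC conv sum_fixed)
open Pool.Agent.Y925.NV (kk md dz_iff cv_eq tr_z)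
open Pool.Agent.Y930.NV (Cf ind cv cv_eq_conv R)
open Pool.Agent.X209.PJ (HasDefect)
open Pool.Agent.H378.AC (dfc hasDefect_iff)

noncomputable section

namespace Pool.Agent.H378.SF

section

variable {p : ℕ} [hp : Fact p.Prime] {F : Type} [Field F] [CharP F p]
  {A Γ : Type} [Group A] [Finite A] [Group Γ] [Finite Γ] (a : Γ →* MulAut A)
  (hΓ : IsPGroup p Γ) {C : Subgroup A} (hC : ∀ x, x ∈ C ↔ ∀ g, a g x = x)

include hΓ hC in
lemma trans_mod (c c' : C) :
    (Nat.card {y : A // y * c * y⁻¹ = c'} : F) = (Nat.card {y : C // y * c * y⁻¹ = c'} : F) := by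
  have hc := (hC c).mp c.2
  have hc' := (hC c').mp c'.2
  let S := {y : A // y * c * y⁻¹ = c'}
  let _ : MulAction Γ S :=
    { smul := fun g y => ⟨a g y.1, by
        have h1 := congrArg (a g) y.2
        rw [map_mul, map_mul, map_inv, hc, hc'] at h1
        exact h1⟩
      one_smul := fun y => Subtype.ext (by
        change a 1 y.1 = y.1
        rw [map_one]
        rfl)
      mul_smul := fun g h y => Subtype.ext (by
        change a (g * h) y.1 = a g (a h y.1)
        rw [map_mul]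
        rfl) }
  have hsm : ∀ (g : Γ) (y : S), ((g • y : S) : A) = a g y.1 := fun _ _ => rfl
  have h1 := hΓ.card_modEq_card_fixedPoints S
  have h2 : Nat.card (MulAction.fixedPoints Γ S) = Nat.card {y : C // y * c * y⁻¹ = c'} := by
    refine Nat.card_congr
      { toFun := fun n => ⟨⟨n.1.1, (hC _).mpr fun g => ?_⟩, Subtype.ext n.1.2⟩
        invFun := fun n => ⟨⟨n.1, congrArg Subtype.val n.2⟩, fun g => ?_⟩
        left_inv := fun _ => rfl
        right_inv := fun _ => rfl }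
    · have h3 := congrArg Subtype.val (n.2 g)
      exact h3
    · apply Subtype.ext
      exact (hC _).mp n.1.2 g
  rw [← h2]
  exact (CharP.natCast_eq_natCast F p).mpr h1

include hΓ hC in
lemma kk_fix (c : C) : (kk (c : A) : F) = (kk c : F) := trans_mod a hΓ hC c c

lemma kk_cj (y x : A) : kk (y * x * y⁻¹) = kk x := by
  have _ := Fintype.ofFinite A
  exact Pool.Agent.Y925.NV.kk_conj y x

lemma card_trans {x x' y₀ : A} (h : y₀ * x * y₀⁻¹ = x') :
    Nat.card {y : A // y * x * y⁻¹ = x'} = kk x := by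
  unfold kk
  refine Nat.card_congr
    { toFun := fun y => ⟨y₀⁻¹ * y.1, ?_⟩
      invFun := fun n => ⟨y₀ * n.1, ?_⟩
      left_inv := fun y => Subtype.ext (by group)
      right_inv := fun y => Subtype.ext (by group) }
  · have h1 := y.2
    calc y₀⁻¹ * y.1 * x * (y₀⁻¹ * y.1)⁻¹ = y₀⁻¹ * (y.1 * x * y.1⁻¹) * y₀ := by group
      _ = y₀⁻¹ * (y₀ * x * y₀⁻¹) * y₀ := by rw [h1, h]
      _ = x := by group
  · calc y₀ * n.1 * x * (y₀ * n.1)⁻¹ = y₀ * (n.1 * x * n.1⁻¹) * y₀⁻¹ := by group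
      _ = y₀ * x * y₀⁻¹ := by rw [n.2]
      _ = x' := h

include hΓ hC in
lemma conj_fix {c c' : C} {y : A} (hy : y * c * y⁻¹ = c') (hk : (kk c : F) ≠ 0) :
    ∃ n : C, n * c * n⁻¹ = c' := by
  by_contra hn
  push Not at hn
  have h1 := trans_mod (F := F) a hΓ hC c c'
  rw [card_trans hy, kk_fix a hΓ hC c] at h1
  have : IsEmpty {y : C // y * c * y⁻¹ = c'} := ⟨fun n => hn n.1 n.2⟩
  rw [Nat.card_of_isEmpty, Nat.cast_zero] at h1
  exact hk h1

include hΓ hC in
/-- **Extension of a function.** -/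
theorem extend_fix {h : C → F} (hcl : IsClassFun h) (h0 : ∀ x, (kk x : F) = 0 → h x = 0) :
    ∃ z : A → F, IsClassFun z ∧ (∀ g x, z (a g x) = z x) ∧ (∀ x, (kk x : F) = 0 → z x = 0) ∧
      ∀ x : C, z x = h x := by
  let Rel : A → C → Prop := fun x c => (∃ y : A, x = y * c * y⁻¹) ∧ (kk c : F) ≠ 0
  have hwd : ∀ x c c', Rel x c → Rel x c' → h c = h c' := by
    rintro x c c' ⟨⟨g, hg⟩, hk⟩ ⟨⟨g', hg'⟩, hk'⟩
    have h1 : (g'⁻¹ * g) * (c : A) * (g'⁻¹ * g)⁻¹ = c' := by
      calc (g'⁻¹ * g) * (c : A) * (g'⁻¹ * g)⁻¹ = g'⁻¹ * (g * c * g⁻¹) * g' := by group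
        _ = g'⁻¹ * (g' * c' * g'⁻¹) * g' := by rw [← hg, hg']
        _ = c' := by group
    obtain ⟨n, hn⟩ := conj_fix (F := F) a hΓ hC h1 hk
    rw [← hn]
    exact (hcl n c).symm
  let z : A → F := fun x => if hx : ∃ c, Rel x c then h hx.choose else 0
  have hz : ∀ x c, Rel x c → z x = h c := by
    intro x c hc
    have hx : ∃ c, Rel x c := ⟨c, hc⟩
    have : z x = h hx.choose := dif_pos hx
    rw [this]
    exact hwd x _ _ hx.choose_spec hc
  have hz0 : ∀ x, (¬ ∃ c, Rel x c) → z x = 0 := fun x hx => dif_neg hx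
  have hRc : ∀ g x c, Rel (g * x * g⁻¹) c ↔ Rel x c := by
    intro g x c
    refine and_congr ⟨?_, ?_⟩ Iff.rfl
    · rintro ⟨k, hk⟩
      refine ⟨g⁻¹ * k, ?_⟩
      calc x = g⁻¹ * (g * x * g⁻¹) * g := by group
        _ = g⁻¹ * (k * c * k⁻¹) * g := by rw [hk]
        _ = _ := by group
    · rintro ⟨k, rfl⟩
      exact ⟨g * k, by group⟩
  have hRa : ∀ g x c, Rel x c → Rel (a g x) c := by
    rintro g x c ⟨⟨y, rfl⟩, hk⟩
    refine ⟨⟨a g y, ?_⟩, hk⟩
    rw [map_mul, map_mul, map_inv, (hC c).mp c.2 g]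
  have hRa' : ∀ g x c, Rel (a g x) c ↔ Rel x c := by
    intro g x c
    refine ⟨fun h => ?_, hRa g x c⟩
    have h1 := hRa g⁻¹ _ _ h
    have h2 : a g⁻¹ (a g x) = x := by
      rw [← MulAut.mul_apply, ← map_mul, inv_mul_cancel, map_one]
      rfl
    rwa [h2] at h1
  refine ⟨z, ?_, ?_, ?_, ?_⟩
  · intro g x
    by_cases hx : ∃ c, Rel x c
    · obtain ⟨c, hc⟩ := hx
      rw [hz x c hc, hz _ c ((hRc g x c).mpr hc)]
    · rw [hz0 x hx, hz0 _ (fun ⟨c, hc⟩ => hx ⟨c, (hRc g x c).mp hc⟩)]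
  · intro g x
    by_cases hx : ∃ c, Rel x c
    · obtain ⟨c, hc⟩ := hx
      rw [hz x c hc, hz _ c ((hRa' g x c).mpr hc)]
    · rw [hz0 x hx, hz0 _ (fun ⟨c, hc⟩ => hx ⟨c, (hRa' g x c).mp hc⟩)]
  · intro x hx
    apply hz0
    rintro ⟨c, ⟨g, rfl⟩, hk⟩
    apply hk
    rw [← kk_fix a hΓ hC c, ← hx, kk_cj]
  · intro x
    by_cases hk : (kk x : F) = 0
    · rw [h0 x hk]
      apply hz0
      rintro ⟨c, ⟨g, hg⟩, hkc⟩
      apply hkc
      rw [← kk_fix a hΓ hC c, ← hk, ← kk_fix a hΓ hC x, hg, kk_cj]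
    · exact hz x x ⟨⟨1, by group⟩, hk⟩

include hΓ hC in
/-- the restriction of the invariant class functions is multiplicative -/
lemma conv_fix {z z' : A → F} (h2 : ∀ g x, z (a g x) = z x) (h2' : ∀ g x, z' (a g x) = z' x)
    (c : C) : conv z z' c = conv (fun x : C => z x) (fun x : C => z' x) c := by
  have _ := Fintype.ofFinite A
  have _ := Fintype.ofFinite C
  unfold conv
  rw [finsum_eq_sum_of_fintype, finsum_eq_sum_of_fintype]
  let _ : MulAction Γ A :=
    { smul := fun g y => a g y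
      one_smul := fun y => by
        change a 1 y = y
        rw [map_one]
        rfl
      mul_smul := fun g h y => by
        change a (g * h) y = a g (a h y)
        rw [map_mul]
        rfl }
  have hsm : ∀ (g : Γ) (y : A), (g • y : A) = a g y := fun _ _ => rfl
  rw [sum_fixed hΓ (fun y => z y * z' (y⁻¹ * c)) (fun g y => by
    simp only [hsm]
    have e : (a g y)⁻¹ * (c : A) = a g (y⁻¹ * c) := by
      rw [map_mul, map_inv, (hC c).mp c.2 g]
    rw [e, h2, h2'])]
  refine Finset.sum_bij' (fun y hy => (⟨y, (hC y).mpr fun g => (Finset.mem_filter.mp hy).2 g⟩ : C))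
    (fun y _ => (y : A)) ?_ ?_ ?_ ?_ ?_
  · intro y hy
    exact Finset.mem_univ _
  · intro y hy
    exact Finset.mem_filter.mpr ⟨Finset.mem_univ _, fun g => (hC y).mp y.2 g⟩
  · intro y hy
    rfl
  · intro y hy
    rfl
  · intro y hy
    rfl

include hΓ hC in
/-- **Characters of defect zero of the fixed points.** -/
theorem ndz (red : integralClosure ℤ ℂ →+* F) {ψ : C → ℂ} (hψ : IsIrrChar ψ) (hd : dfc p ψ = 0) :
    ∃ χ : A → ℂ, IsIrrChar χ ∧ dfc p χ = 0 ∧ ∀ z : A → F, IsClassFun z →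
      (∀ g x, z (a g x) = z x) → centralValue red χ z = centralValue red ψ (fun c : C => z c) := by
  have _ := Fintype.ofFinite A
  have _ := Fintype.ofFinite C
  have hB : IsBlock (centralValue red ψ) := Pool.Agent.Y930.NV.cvh F red C _ hψ
  have hcl : ∀ {H : Type} [Group H] [Fintype H] (χ : H → ℂ), IsIrrChar χ →
      IsClassFun (fun g => redC red (χ g⁻¹)) := by
    intro H _ _ χ hχ g x
    have e : (g * x * g⁻¹)⁻¹ = g * x⁻¹ * g⁻¹ := by group
    simp only [e]
    rw [Pool.Agent.Y930.NV.irr_Cf hχ]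
  have hmdψ : (md ψ : F) ≠ 0 := by
    obtain ⟨n, hn, h1⟩ := (hasDefect_iff hψ).mpr hd
    rw [add_zero] at h1
    have h2 := (dz_iff (p := p) hψ).1 ⟨n, hn, h1⟩
    rwa [ne_eq, CharP.cast_eq_zero_iff F p]
  obtain ⟨z₀, hz1, hz2, hz3, hz4⟩ := extend_fix a hΓ hC (F := F) (hcl ψ hψ) (by
    intro x hx
    apply Pool.Agent.Y925.NV.red_zero red hψ hmdψ
    rw [Pool.Agent.R674.KB.kk_inv]
    exact hx)
  have hval : centralValue red ψ (fun c : C => z₀ c) = (md ψ : F) := by
    rw [show (fun c : C => z₀ c) = fun g => redC red (ψ g⁻¹) from funext hz4,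
      Pool.Agent.Y925.NV.orth red hψ hψ, if_pos rfl]
  -- the action on the characters
  let X := {χ : A → ℂ // IsIrrChar χ}
  have hXf : Finite X := Pool.Agent.Helper884.IC.irr_finite
  have _ : Fintype X := Fintype.ofFinite X
  let _ : MulAction Γ X :=
    { smul := fun g χ => ⟨fun x => χ.1 (a g⁻¹ x), Pool.Agent.Y63.AWC.irr_comp (a g⁻¹) χ.2⟩
      one_smul := fun χ => Subtype.ext (by
        funext x
        change χ.1 (a 1⁻¹ x) = χ.1 x
        rw [inv_one, map_one]
        rfl)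
      mul_smul := fun g h χ => Subtype.ext (by
        funext x
        change χ.1 (a (g * h)⁻¹ x) = χ.1 (a h⁻¹ (a g⁻¹ x))
        rw [mul_inv_rev, map_mul]
        rfl) }
  have hsm : ∀ (g : Γ) (χ : X) (x : A), (g • χ : X).1 x = χ.1 (a g⁻¹ x) := fun _ _ _ => rfl
  let w : X → F := fun χ => (md χ.1 : F)⁻¹ * centralValue red χ.1 z₀ * centralValue red χ.1 z₀
  have hw : ∀ (g : Γ) (χ : X), w (g • χ) = w χ := by
    intro g χ
    have h1 := Pool.Agent.Y624.NV.centralValue_comp red (a g⁻¹) χ.2 hz1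
    have h2 : (fun x => z₀ ((a g⁻¹) x)) = z₀ := funext (hz2 g⁻¹)
    rw [h2] at h1
    have h3 : centralValue red (g • χ : X).1 z₀ = centralValue red χ.1 z₀ := h1
    have h4 : md (g • χ : X).1 = md χ.1 := by
      have e1 := Pool.Agent.Y925.NV.md_spec χ.2
      have e2 := Pool.Agent.Y925.NV.md_spec (g • χ : X).2
      rw [hsm, map_one, ← e1] at e2
      have e3 := mul_right_cancel₀ (Pool.Agent.Y930.NV.irr_one_ne χ.2) e2
      exact_mod_cast e3
    simp only [w]
    rw [h3, h4]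
  have h1 : ∀ c : C, conv (fun x : C => z₀ x) (fun x : C => z₀ x) c =
      ∑ χ ∈ Finset.univ.filter (fun χ : X => ∀ g : Γ, g • χ = χ),
        w χ * redC red (χ.1 ((c : A))⁻¹) := by
    intro c
    rw [← conv_fix a hΓ hC hz2 hz2 c, cv_eq_conv, cv_eq red hz1 hz1 hz3 hz3,
      ← sum_fixed hΓ (fun χ : X => w χ * redC red (χ.1 ((c : A))⁻¹))]
    · refine Finset.sum_bij' (fun χ hχ => (⟨χ, mem_Irr.mp hχ⟩ : X)) (fun χ _ => χ.1)
        ?_ ?_ ?_ ?_ ?_
      · intro χ hχ
        exact Finset.mem_univ _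
      · intro χ hχ
        exact mem_Irr.mpr χ.2
      · intro χ hχ
        rfl
      · intro χ hχ
        rfl
      · intro χ hχ
        rfl
    · intro g χ
      rw [hw, hsm, map_inv, (hC c).mp c.2]
  have hclC : ∀ χ : X, IsClassFun (fun c : C => redC red (χ.1 ((c : A))⁻¹)) := by
    intro χ g x
    exact hcl χ.1 χ.2 (g : A) (x : A)
  have h2 : (md ψ : F) * (md ψ : F) =
      ∑ χ ∈ Finset.univ.filter (fun χ : X => ∀ g : Γ, g • χ = χ),
        w χ * centralValue red ψ (fun c : C => redC red (χ.1 ((c : A))⁻¹)) := by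
    have hzc : IsClassFun (fun x : C => z₀ x) := fun g x => hz1 g x
    rw [← hval, ← hB.mul _ _ hzc hzc, funext h1]
    exact (Pool.Agent.H378.AC.blk_sum hB _ _ _ fun χ _ => hclC χ).2
  have h3 : ∑ χ ∈ Finset.univ.filter (fun χ : X => ∀ g : Γ, g • χ = χ),
        w χ * centralValue red ψ (fun c : C => redC red (χ.1 ((c : A))⁻¹)) ≠ 0 := by
    rw [← h2]
    exact mul_ne_zero hmdψ hmdψ
  obtain ⟨χ, hχ, hne⟩ := Finset.exists_ne_zero_of_sum_ne_zero h3
  have hfix := (Finset.mem_filter.mp hχ).2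
  have hBu := right_ne_zero_of_mul hne
  have hmd : (md χ.1 : F) ≠ 0 := by
    have h4 := left_ne_zero_of_mul (left_ne_zero_of_mul (left_ne_zero_of_mul hne))
    exact fun h => h4 (by rw [h, inv_zero])
  refine ⟨χ.1, χ.2, ?_, fun z hz hzΓ => ?_⟩
  · obtain ⟨n, hn, hfac⟩ := (dz_iff (p := p) χ.2).2
      (fun h => hmd ((CharP.cast_eq_zero_iff F p _).2 h))
    exact (hasDefect_iff χ.2).mp ⟨n, hn, by rw [add_zero]; exact hfac⟩
  · have hu : ∀ g x, (fun y : A => redC red (χ.1 y⁻¹)) (a g x) =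
        (fun y : A => redC red (χ.1 y⁻¹)) x := by
      intro g x
      have h4 := congrArg (fun η : X => η.1 (x⁻¹)) (hfix g⁻¹)
      simp only [hsm, inv_inv] at h4
      change redC red (χ.1 (a g x)⁻¹) = redC red (χ.1 x⁻¹)
      rw [← map_inv, h4]
    have h4 : conv z (fun g => redC red (χ.1 g⁻¹)) =
        centralValue red χ.1 z • fun g => redC red (χ.1 g⁻¹) := by
      rw [cv_eq_conv]
      funext x
      have h5 := tr_z red χ.2 hz x⁻¹
      rw [Pi.smul_apply, smul_eq_mul, ← h5]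
      unfold cv
      refine Finset.sum_congr rfl fun y _ => ?_
      congr 3
      group
    have h5 : conv (fun x : C => z x) (fun c : C => redC red (χ.1 ((c : A))⁻¹)) =
        centralValue red χ.1 z • fun c : C => redC red (χ.1 ((c : A))⁻¹) := by
      funext c
      have h6 := conv_fix a hΓ hC hzΓ (z' := fun y => redC red (χ.1 y⁻¹)) hu c
      have h7 := congrFun h4 (c : A)
      rw [h6] at h7
      exact h7
    have hzc : IsClassFun (fun x : C => z x) := fun g x => hz g x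
    have h6 := hB.mul _ _ hzc (hclC χ)
    rw [h5, hB.smul _ _ (hclC χ)] at h6
    exact mul_right_cancel₀ hBu h6

end

end Pool.Agent.H378.SF
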