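import Pool.Agent.H378.AC.Fun
import Pool.Graph.R_pool_sql_team_seeded_63374d34.N22.DD.Cfp

/-!
# Posets of `p`-subgroups of an overgroup of a normal subgroup
-/

set_option autoImplicit false
set_option linter.unusedSectionVars false

open scoped Classical BigOperators

noncomputable section

namespace Pool.Agent.H378.SF

open Pool.Agent.Q100.IV Pool.Agent.Q100.PX Pool.Agent.Y63.KR Pool.Agent.H378.AC
open Pool.Agent.Q90.WR (exists_moebius)

variable {W : Type} [Group W] [Finite W] {p : ℕ} [hp : Fact p.Prime] {M : Subgroup W}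

lemma alt_upper {β : Type} [PartialOrder β] (S : Finset β) (P : β → Prop)
    (hP : ∀ x ∈ S, ∀ y ∈ S, x ≤ y → P x → P y) :
    alt (· ≤ ·) S = alt (· ≤ ·) (S.filter P) -
      ∑ x ∈ S.filter (fun x => ¬ P x), alt (· ≤ ·) (up (· ≤ ·) S x) := by
  rw [alt_least po_le S, alt_least po_le (S.filter P)]
  have h1 : ∀ x ∈ S.filter P, alt (· ≤ ·) (up (· ≤ ·) (S.filter P) x) =
      alt (· ≤ ·) (up (· ≤ ·) S x) := by
    intro x hx
    rw [Finset.mem_filter] at hx
    congr 1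
    ext y
    rw [mem_up, mem_up, Finset.mem_filter]
    exact ⟨fun h => ⟨h.1.1, h.2⟩, fun h => ⟨⟨h.1, hP x hx.1 y h.1 h.2.1 hx.2⟩, h.2⟩⟩
  rw [Finset.sum_congr rfl h1, ← Finset.sum_filter_add_sum_filter_not S P]
  ring

lemma exists_fix_grp {R Q : Subgroup W} (hR : IsPGroup p R) (hR1 : R ≠ ⊥) (hQ : IsPGroup p Q)
    (hQR : ∀ q ∈ Q, conjSub q R = R) : ∃ r ∈ R, r ≠ 1 ∧ ∀ q ∈ Q, q * r = r * q := by
  have hn : ∀ g ∈ Q, ∀ r ∈ R, g * r * g⁻¹ ∈ R := by
    intro g hg r hr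
    exact (Subgroup.mem_normalizer_iff.mp (conjSub_eq_iff.mp (hQR g hg)) r).mp hr
  let _ : MulAction Q R :=
    { smul := fun g r => ⟨g * r * (g : W)⁻¹, hn g g.2 r r.2⟩
      one_smul := fun r => Subtype.ext (by
        change (1 : W) * r * (1 : W)⁻¹ = r
        group)
      mul_smul := fun g h r => Subtype.ext (by
        change ((g : W) * h) * r * ((g : W) * h)⁻¹ = g * (h * r * (h : W)⁻¹) * (g : W)⁻¹
        group) }
  have hdvd : p ∣ Nat.card R := by
    obtain ⟨n, hn⟩ := hR.exists_card_eq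
    rw [hn]
    refine dvd_pow_self p fun h0 => hR1 ?_
    rw [h0, pow_zero] at hn
    exact Subgroup.card_eq_one.mp hn
  obtain ⟨b, hb, hne⟩ := hQ.exists_fixed_point_of_prime_dvd_card_of_fixed_point R hdvd
    (a := 1) (by
      intro g
      apply Subtype.ext
      change (g : W) * 1 * (g : W)⁻¹ = 1
      group)
  refine ⟨b, b.2, fun h => hne (Subtype.ext h.symm), fun q hq => ?_⟩
  have h1 := congrArg Subtype.val (hb ⟨q, hq⟩)
  change q * b * q⁻¹ = b at h1
  calc q * b = q * b * q⁻¹ * q := by group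
    _ = b * q := by rw [h1]

omit [Finite W] in
lemma norm_cent {Q : Subgroup W} {w : W} (hw : conjSub w Q = Q) :
    conjSub w (Subgroup.centralizer (Q : Set W)) = Subgroup.centralizer (Q : Set W) := by
  have key : ∀ w : W, conjSub w Q = Q → ∀ x, x ∈ Subgroup.centralizer (Q : Set W) →
      w * x * w⁻¹ ∈ Subgroup.centralizer (Q : Set W) := by
    intro w hw x hx
    rw [Subgroup.mem_centralizer_iff] at hx ⊢
    intro q hq
    have h1 : w⁻¹ * q * w ∈ (Q : Set W) := by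
      have : w⁻¹ * q * w ∈ Q := by
        rw [← mem_conjSub, hw]
        exact hq
      exact this
    have h2 := hx _ h1
    calc q * (w * x * w⁻¹) = w * ((w⁻¹ * q * w) * x) * w⁻¹ := by group
      _ = w * (x * (w⁻¹ * q * w)) * w⁻¹ := by rw [h2]
      _ = w * x * w⁻¹ * q := by group
  rw [conjSub_eq_iff, Subgroup.mem_normalizer_iff]
  intro x
  refine ⟨key w hw x, fun h => ?_⟩
  have hw' : conjSub w⁻¹ Q = Q := by
    conv_lhs => rw [← hw]
    rw [← conjSub_mul, inv_mul_cancel, conjSub_one]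
  have h1 := key w⁻¹ hw' _ h
  have e : w⁻¹ * (w * x * w⁻¹) * w⁻¹⁻¹ = x := by group
  rwa [e] at h1

/-- restriction to the centraliser -/
lemma alt_centQ {K : Set W} {Q : Subgroup W} (hQ : IsPGroup p Q)
    (hQK : ∀ x ∈ K, conjSub x Q = Q) :
    alt (· ≤ ·) (SS p (K ∪ Q) M ⊥) = alt (· ≤ ·) (SS p K (CQ M Q) ⊥) := by
  refine retract_down ?_ (fun R => R ⊓ Subgroup.centralizer (Q : Set W)) ?_ ?_ ?_ ?_
  · intro R hR
    rw [mem_SS] at hR ⊢
    refine ⟨hR.1, hR.2.1, hR.2.2.1.trans inf_le_left, ?_⟩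
    rintro w (hw | hw)
    · exact hR.2.2.2 w hw
    · exact conj_eq_self fun r hr => (mem_CQ.mp (hR.2.2.1 hr)).2 w hw
  · intro R hR
    rw [mem_SS] at hR ⊢
    refine ⟨hR.1.to_le inf_le_left, ?_, inf_le_inf_right _ hR.2.2.1, ?_⟩
    · obtain ⟨r, hr, hr1, hru⟩ := exists_fix_grp hR.1 hR.2.1.ne' hQ
        (fun q hq => hR.2.2.2 q (Or.inr hq))
      rw [bot_lt_iff_ne_bot]
      intro h
      apply hr1
      rw [← Subgroup.mem_bot, ← h]
      exact ⟨hr, (Subgroup.mem_centralizer_iff).mpr fun q hq => hru q hq⟩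
    · intro w hw
      rw [conjSub_inf, hR.2.2.2 w (Or.inl hw), norm_cent (hQK w hw)]
  · intro R _
    exact inf_le_left
  · intro R _ R' _ h
    exact inf_le_inf_right _ h
  · intro R hR
    rw [mem_SS] at hR
    exact inf_eq_left.mpr (hR.2.2.1.trans inf_le_right)

/-- the subgroups above `Q` which meet `M` nontrivially -/
lemma alt_overQ {K : Set W} {X Q : Subgroup W} (hXM : ∀ x ∈ X, conjSub x M = M)
    (hKM : ∀ x ∈ K, conjSub x M = M) (hMX : M ≤ X) (hQX : Q ≤ X) (hQ : IsPGroup p Q)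
    (hQM : Q ⊓ M = ⊥) (hQK : ∀ x ∈ K, conjSub x Q = Q) :
    alt (· ≤ ·) ((SS p K X Q).filter (fun P => ¬ P ⊓ M = ⊥)) =
      alt (· ≤ ·) (SS p K (CQ M Q) ⊥) := by
  rw [← alt_centQ hQ hQK]
  have hsup : ∀ R : Subgroup W, R ≤ M → (∀ q ∈ Q, conjSub q R = R) → (R ⊔ Q) ⊓ M = R := by
    intro R hRM hR
    have hZT : Q ≤ Subgroup.normalizer (R : Set W) := fun q hq => conjSub_eq_iff.mp (hR q hq)
    apply le_antisymm
    · rintro x ⟨hx, hxG⟩
      have h5 : x ∈ ((R ⊔ Q : Subgroup W) : Set W) := hx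
      rw [Subgroup.coe_mul_of_right_le_normalizer_left _ _ hZT] at h5
      obtain ⟨t, ht, v, hv, rfl⟩ := Set.mem_mul.mp h5
      have h6 : v ∈ Q ⊓ M := by
        refine ⟨hv, ?_⟩
        have h7 := M.mul_mem (M.inv_mem (hRM ht)) hxG
        rwa [inv_mul_cancel_left] at h7
      rw [hQM, Subgroup.mem_bot] at h6
      rw [h6, mul_one]
      exact ht
    · exact le_inf le_sup_left hRM
  -- retraction
  have h1 : alt (· ≤ ·) ((SS p K X Q).filter (fun P => ¬ P ⊓ M = ⊥)) =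
      alt (· ≤ ·) (((SS p K X Q).filter (fun P => ¬ P ⊓ M = ⊥)).filter
        (fun P => P ⊓ M ⊔ Q = P)) := by
    refine retract_down (Finset.filter_subset _ _) (fun P => P ⊓ M ⊔ Q) ?_ ?_ ?_ ?_
    · intro P hP
      rw [Finset.mem_filter, mem_SS] at hP
      have hle : P ⊓ M ⊔ Q ≤ P := sup_le inf_le_left hP.1.2.1.le
      have hinf : (P ⊓ M ⊔ Q) ⊓ M = P ⊓ M :=
        le_antisymm (inf_le_inf_right _ hle) (le_inf le_sup_left inf_le_right)
      rw [Finset.mem_filter, Finset.mem_filter, mem_SS, hinf]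
      refine ⟨⟨⟨hP.1.1.to_le hle, ?_, hle.trans hP.1.2.2.1, ?_⟩, hP.2⟩, rfl⟩
      · refine lt_of_le_of_ne le_sup_right fun h => hP.2 ?_
        rw [eq_bot_iff, ← hQM]
        exact le_inf (h ▸ le_sup_left) inf_le_right
      · intro x hx
        rw [conjSub_sup, conjSub_inf, hP.1.2.2.2 x hx, hQK x hx, hKM x hx]
    · intro P hP
      rw [Finset.mem_filter, mem_SS] at hP
      exact sup_le inf_le_left hP.1.2.1.le
    · intro P _ P' _ h
      exact sup_le_sup_right (inf_le_inf_right _ h) _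
    · intro P hP
      exact (Finset.mem_filter.mp hP).2
  rw [h1, ← alt_image_on (r := (· ≤ ·)) (r' := (· ≤ ·)) (fun R : Subgroup W => R ⊓ M)
    (((SS p K X Q).filter (fun P => ¬ P ⊓ M = ⊥)).filter (fun P => P ⊓ M ⊔ Q = P))]
  · congr 1
    ext R
    rw [Finset.mem_image, mem_SS]
    constructor
    · rintro ⟨P, hP, rfl⟩
      rw [Finset.mem_filter, Finset.mem_filter, mem_SS] at hP
      refine ⟨hP.1.1.1.to_le inf_le_left, bot_lt_iff_ne_bot.mpr hP.1.2, inf_le_right, ?_⟩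
      rintro x (hx | hx)
      · rw [conjSub_inf, hKM x hx, hP.1.1.2.2.2 x hx]
      · rw [conjSub_inf, hXM x (hQX hx),
          conjSub_eq_iff.mpr (Subgroup.le_normalizer (hP.1.1.2.1.le hx))]
    · rintro ⟨h2, h3, h4, h5⟩
      have hQR : ∀ q ∈ Q, conjSub q R = R := fun q hq => h5 q (Or.inr hq)
      have hZR : Q ≤ Subgroup.normalizer (R : Set W) := fun q hq => conjSub_eq_iff.mp (hQR q hq)
      have hinf : (R ⊔ Q) ⊓ M = R := hsup R h4 hQR
      refine ⟨R ⊔ Q, ?_, hinf⟩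
      rw [Finset.mem_filter, Finset.mem_filter, mem_SS, hinf]
      refine ⟨⟨⟨IsPGroup.to_sup_of_normal_left' h2 hQ hZR, ?_, sup_le (h4.trans hMX) hQX, ?_⟩,
        h3.ne'⟩, rfl⟩
      · refine lt_of_le_of_ne le_sup_right fun h => h3.ne' ?_
        rw [← h, hQM] at hinf
        exact hinf.symm
      · intro x hx
        rw [conjSub_sup, h5 x (Or.inl hx), hQK x hx]
  · intro P hP P' hP' h
    have e1 := (Finset.mem_filter.mp hP).2
    have e2 := (Finset.mem_filter.mp hP').2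
    have h' : P ⊓ M = P' ⊓ M := h
    rw [← e1, ← e2, h']
  · intro P hP P' hP'
    have e1 := (Finset.mem_filter.mp hP).2
    have e2 := (Finset.mem_filter.mp hP').2
    constructor
    · intro h
      exact inf_le_inf_right _ h
    · intro h
      rw [← e1, ← e2]
      exact sup_le_sup_right h _

omit [Finite W] in
lemma CQ_bot : CQ M (⊥ : Subgroup W) = M := by
  ext x
  rw [mem_CQ]
  refine ⟨fun h => h.1, fun h => ⟨h, fun q hq => ?_⟩⟩
  rw [Subgroup.mem_bot.mp hq, one_mul, mul_one]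

/-- the recursion -/
lemma alt_rec {K : Set W} {X Q : Subgroup W} (hXM : ∀ x ∈ X, conjSub x M = M)
    (hKM : ∀ x ∈ K, conjSub x M = M) (hMX : M ≤ X) (hQX : Q ≤ X) (hQ : IsPGroup p Q)
    (hQM : Q ⊓ M = ⊥) (hQK : ∀ x ∈ K, conjSub x Q = Q) :
    alt (· ≤ ·) (SS p K X Q) = alt (· ≤ ·) (SS p K (CQ M Q) ⊥) -
      ∑ R ∈ (SS p K X Q).filter (fun R => R ⊓ M = ⊥), alt (· ≤ ·) (SS p K X R) := by
  have h0 := alt_upper (SS p K X Q) (fun P => ¬ P ⊓ M = ⊥) (by
    intro x _ y _ hxy h1 h2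
    apply h1
    rw [eq_bot_iff, ← h2]
    exact inf_le_inf_right _ hxy)
  have h1 := alt_overQ (p := p) hXM hKM hMX hQX hQ hQM hQK
  rw [h0]
  congr 1
  · convert h1
  · simp only [not_not]
    refine Finset.sum_congr rfl fun R hR => ?_
    rw [up_SS (Finset.mem_filter.mp hR).1]

section

variable {R : Type} [CommRing R]

/-- **Comparison of the sums for `X` and for `M`.** -/
theorem cs_comp {X V : Subgroup W} (hXV : X ≤ V) (hVM : V ≤ Subgroup.normalizer (M : Set W))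
    (hMX : M ≤ X) (Φ : Subgroup W → R) (hΦ : ∀ S, Φ S = Φ (S ⊓ V))
    (h : ∀ Q : Subgroup W, Q ≤ X → IsPGroup p Q → Q ≠ ⊥ → Q ⊓ M = ⊥ → ∀ L : Subgroup W,
      CQ M Q ≤ L → L ≤ Subgroup.normalizer (Q : Set W) →
      CS p (CQ M Q) (fun S => Φ (S ⊓ L)) = 0) : CS p X Φ = CS p M Φ := by
  have : Fintype (Subgroup W) := Fintype.ofFinite _
  have hXM : ∀ x ∈ X, conjSub x M = M := fun x hx => conjSub_eq_iff.mpr (hVM (hXV hx))
  obtain ⟨c₀, hc₀⟩ := exists_moebius Φ
  obtain ⟨c, hcV, hc⟩ : ∃ c : Subgroup W → R, (∀ K, ¬ K ≤ V → c K = 0) ∧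
      ∀ H, Φ H = ∑ K : Subgroup W, if K ≤ H then c K else 0 := by
    refine ⟨fun K => if K ≤ V then c₀ K else 0, fun K hK => if_neg hK, fun H => ?_⟩
    rw [hΦ, hc₀]
    refine Finset.sum_congr rfl fun K _ => ?_
    rw [le_inf_iff]
    by_cases h2 : K ≤ H
    · by_cases h3 : K ≤ V
      · simp only [h2, h3, and_self, if_true]
      · simp only [h2, h3, and_false, if_false, if_true]
    · rw [if_neg (fun h => h2 h.1), if_neg h2]
  have hL : ∀ (Y L : Subgroup W), CS p Y (fun S => Φ (S ⊓ L)) =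
      ∑ K : Subgroup W, ((alt (· ≤ ·) (SS p (K : Set W) Y ⊥) : ℤ) : R) *
        (if K ≤ L then c K else 0) := by
    intro Y L
    apply cs_eq
    intro H
    rw [hc]
    refine Finset.sum_congr rfl fun K _ => ?_
    rw [le_inf_iff]
    by_cases h2 : K ≤ H
    · by_cases h3 : K ≤ L
      · rw [if_pos ⟨h2, h3⟩, if_pos h2, if_pos h3]
      · rw [if_neg (fun h => h3 h.2), if_pos h2, if_neg h3]
    · rw [if_neg (fun h => h2 h.1), if_neg h2]
  have hsw : ∀ (Q L : Subgroup W), Q ≤ X → IsPGroup p Q → Q ⊓ M = ⊥ →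
      L ≤ Subgroup.normalizer (Q : Set W) →
      ∑ K : Subgroup W, ((alt (· ≤ ·) (SS p (K : Set W) X Q) : ℤ) : R) *
        (if K ≤ L then c K else 0) = CS p (CQ M Q) (fun S => Φ (S ⊓ L)) -
      ∑ Q' ∈ fs {Q' : Subgroup W | IsPGroup p Q' ∧ Q < Q' ∧ Q' ≤ X ∧ Q' ⊓ M = ⊥},
        ∑ K : Subgroup W, ((alt (· ≤ ·) (SS p (K : Set W) X Q') : ℤ) : R) *
        (if K ≤ L ⊓ Subgroup.normalizer (Q' : Set W) then c K else 0) := by
    intro Q L hQX hQ hQM hLQ
    rw [hL, Finset.sum_comm (t := Finset.univ), ← Finset.sum_sub_distrib]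
    refine Finset.sum_congr rfl fun K _ => ?_
    by_cases hKV : K ≤ V
    swap
    · simp only [hcV K hKV, ite_self, mul_zero, Finset.sum_const_zero, sub_zero]
    by_cases hKL : K ≤ L
    · have hQK : ∀ x ∈ (K : Set W), conjSub x Q = Q := fun x hx =>
        conjSub_eq_iff.mpr (hLQ (hKL hx))
      have hKM : ∀ x ∈ (K : Set W), conjSub x M = M := fun x hx =>
        conjSub_eq_iff.mpr (hVM (hKV hx))
      rw [alt_rec hXM hKM hMX hQX hQ hQM hQK, if_pos hKL, Int.cast_sub, sub_mul, Int.cast_sum,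
        Finset.sum_mul]
      congr 1
      have e1 : (SS p (K : Set W) X Q).filter (fun R => R ⊓ M = ⊥) =
          (fs {Q' : Subgroup W | IsPGroup p Q' ∧ Q < Q' ∧ Q' ≤ X ∧ Q' ⊓ M = ⊥}).filter
            (fun Q' : Subgroup W => K ≤ L ⊓ Subgroup.normalizer (Q' : Set W)) := by
        ext Q'
        rw [Finset.mem_filter, mem_SS, Finset.mem_filter, mem_fs]
        constructor
        · rintro ⟨⟨h1, h2, h3, h4⟩, h5⟩
          exact ⟨⟨h1, h2, h3, h5⟩, le_inf hKL fun x hx => conjSub_eq_iff.mp (h4 x hx)⟩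
        · rintro ⟨⟨h1, h2, h3, h5⟩, h4⟩
          exact ⟨⟨h1, h2, h3, fun x hx => conjSub_eq_iff.mpr ((le_inf_iff.mp h4).2 hx)⟩, h5⟩
      rw [e1, Finset.sum_filter]
      refine Finset.sum_congr rfl fun Q' _ => ?_
      split_ifs
      · rfl
      · rw [mul_zero]
    · rw [if_neg hKL, mul_zero, mul_zero]
      rw [Finset.sum_eq_zero, sub_zero]
      intro Q' _
      rw [if_neg (fun h => hKL (le_inf_iff.mp h).1), mul_zero]
  have key : ∀ (n : ℕ) (Q : Subgroup W), Nat.card W - Nat.card Q = n → Q ≤ X → IsPGroup p Q →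
      Q ≠ ⊥ → Q ⊓ M = ⊥ → ∀ L : Subgroup W, CQ M Q ≤ L → L ≤ Subgroup.normalizer (Q : Set W) →
      ∑ K : Subgroup W, ((alt (· ≤ ·) (SS p (K : Set W) X Q) : ℤ) : R) *
        (if K ≤ L then c K else 0) = 0 := by
    intro n
    induction n using Nat.strong_induction_on with
    | _ n ih =>
    intro Q hn hQX hQ hQ1 hQM L h1 h2
    rw [hsw Q L hQX hQ hQM h2, h Q hQX hQ hQ1 hQM L h1 h2, zero_sub, neg_eq_zero]
    refine Finset.sum_eq_zero fun Q' hQ' => ?_
    rw [mem_fs] at hQ'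
    obtain ⟨h3, h4, h5, h6⟩ := hQ'
    have h7 : Nat.card Q < Nat.card Q' := by
      refine lt_of_le_of_ne (Subgroup.card_le_of_le h4.le) fun h8 => h4.ne ?_
      exact Subgroup.eq_of_le_of_card_ge h4.le h8.ge
    have h8 : Nat.card Q' ≤ Nat.card W := Nat.le_of_dvd Nat.card_pos Q'.card_subgroup_dvd_card
    refine ih (Nat.card W - Nat.card Q') (by omega) Q' rfl h5 h3
      (fun h9 => hQ1 (by rw [eq_bot_iff, ← h9]; exact h4.le)) h6 _ ?_ inf_le_right
    refine le_inf ?_ ?_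
    · refine le_trans ?_ h1
      intro x hx
      rw [mem_CQ] at hx ⊢
      exact ⟨hx.1, fun q hq => hx.2 q (h4.le hq)⟩
    · intro x hx
      rw [← conjSub_eq_iff]
      have hx' := (mem_CQ.mp hx).2
      refine conj_eq_self fun r hr => ?_
      exact (hx' r hr).symm
  have htop := hsw ⊥ ⊤ bot_le IsPGroup.of_bot (bot_inf_eq _) (by
    intro x _
    rw [← conjSub_eq_iff]
    exact conjSub_bot x)
  have e2 : CS p (CQ M (⊥ : Subgroup W)) (fun S => Φ (S ⊓ ⊤)) = CS p M Φ := by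
    rw [CQ_bot]
    simp only [inf_top_eq]
  have e3 := hL X ⊤
  simp only [inf_top_eq] at e3
  rw [e2] at htop
  rw [e3, htop, sub_eq_self]
  refine Finset.sum_eq_zero fun Q' hQ' => ?_
  rw [mem_fs] at hQ'
  obtain ⟨h3, h4, h5, h6⟩ := hQ'
  refine key _ Q' rfl h5 h3 h4.ne' h6 _ ?_ inf_le_right
  refine le_inf le_top ?_
  intro x hx
  rw [← conjSub_eq_iff]
  have hx' := (mem_CQ.mp hx).2
  refine conj_eq_self fun r hr => ?_
  exact (hx' r hr).symm

end

end Pool.Agent.H378.SF
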