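import Pool.Agent.H378.SF.Rel

/-!
# The induction step with a normal complement, and the induction
-/

set_option autoImplicit false
set_option linter.unusedSectionVars false
set_option linter.unusedVariables false

open scoped Classical BigOperators
open Pool.Agent.Helper884.IC Pool.Agent.Y63.AWC Pool.Agent.Y63.KR Pool.Agent.X209.EQ
open Pool.Agent.X209.PJ hiding push
open Pool.Agent.X209.DI Pool.Agent.X209.DQ Pool.Agent.H378.AC
open Pool.Agent.Y63.NV (IsClassFun IsBlock InZ centralValue redC conv)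

noncomputable section

namespace Pool.Agent.H378.SF

attribute [-instance] MonoidHom.fintypeRange MonoidHom.decidableMemRange

section gen

variable {A Y : Type} [Group A] [Group Y]

lemma map_conj (j : A →* Y) (hj : Function.Injective j) {α : A ≃* A} {y : Y}
    (h : ∀ a, j (α a) = y * j a * y⁻¹) (P : Subgroup A) :
    P.map α.toMonoidHom = P ↔ conjSub y (P.map j) = P.map j := by
  have h1 : conjSub y (P.map j) = (P.map α.toMonoidHom).map j := by
    unfold conjSub
    rw [Subgroup.map_map, Subgroup.map_map]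
    congr 1
    ext a
    exact (h a).symm
  rw [h1]
  exact ⟨fun h => by rw [h], fun h => Subgroup.map_injective hj h⟩

variable [Finite A] [Finite Y] {ι R : Type} [Finite ι] [AddCommMonoid R]

lemma zs_param (j : A →* Y) (hj : Function.Injective j) {G : Subgroup Y} (hG : j.range = G)
    (x₀ : ι → Y) (f : (ι → Y) → R) :
    ∑ x : ι → Y, (if ∀ i, (x₀ i)⁻¹ * x i ∈ G then f x else 0) =
      ∑ u : ι → A, f (fun i => x₀ i * j (u i)) := by
  rw [← Finset.sum_filter]
  symm
  refine Finset.sum_bij (fun u _ => fun i => x₀ i * j (u i)) ?_ ?_ ?_ ?_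
  · intro u _
    rw [Finset.mem_filter]
    refine ⟨Finset.mem_univ _, fun i => ?_⟩
    rw [inv_mul_cancel_left, ← hG]
    exact ⟨u i, rfl⟩
  · intro u _ v _ h
    funext i
    exact hj (mul_left_cancel (congrFun h i))
  · intro x hx
    rw [Finset.mem_filter] at hx
    have h1 : ∀ i, ∃ a, j a = (x₀ i)⁻¹ * x i := by
      intro i
      have := hx.2 i
      rw [← hG] at this
      exact this
    choose u hu using h1
    refine ⟨u, Finset.mem_univ _, ?_⟩
    funext i
    rw [hu, mul_inv_cancel_left]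
  · intro u _
    rfl

end gen

variable {F : Type} [Field F] (red : integralClosure ℤ ℂ →+* F) {W V : Type} [Group W] [Finite W]
  [Group V] [Finite V] {p : ℕ} [hp : Fact p.Prime]

section ff

lemma ff_iso (m : ℕ) {Z : Set ((W → F) × F)} {Z' : Set ((V → F) × F)} {T : Subgroup W}
    {T' : Subgroup V} (e : T ≃* T')
    (hcd : ∀ χ : T' → ℂ, IsIrrChar χ → (Cd red Z' T' χ ↔ Cd red Z T (fun a => χ (e a))))
    {y : W} {y' : V} (hy : ∀ h : y ∈ T, y' = (e ⟨y, h⟩ : T')) (hy' : y' ∈ T' → y ∈ T) :
    FF red p m Z T y = FF red p m Z' T' y' := by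
  have : Fintype T := Fintype.ofFinite _
  have : Fintype T' := Fintype.ofFinite _
  unfold FF
  by_cases h : y ∈ T
  · have h1 : y' ∈ T' := by
      rw [hy h]
      exact (e ⟨y, h⟩).2
    have h2 : (⟨y', h1⟩ : T') = e ⟨y, h⟩ := Subtype.ext (hy h)
    rw [dif_pos h, dif_pos h1]
    symm
    refine Finset.sum_bij' (fun χ _ => fun a => χ (e a)) (fun θ _ => fun b => θ (e.symm b))
      ?_ ?_ ?_ ?_ ?_
    · intro χ hχ
      rw [Finset.mem_filter, mem_IrF] at hχ ⊢
      exact ⟨irr_comp e hχ.1, (hcd χ hχ.1).mp hχ.2⟩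
    · intro θ hθ
      rw [Finset.mem_filter, mem_IrF] at hθ ⊢
      refine ⟨irr_comp e.symm hθ.1, (hcd _ (irr_comp e.symm hθ.1)).mpr ?_⟩
      have : (fun a => θ (e.symm (e a))) = θ := by
        funext a
        rw [e.symm_apply_apply]
      rw [this]
      exact hθ.2
    · intro χ _
      funext b
      simp
    · intro θ _
      funext a
      simp
    · intro χ hχ
      rw [Finset.mem_filter, mem_IrF] at hχ
      rw [rr_comp e hχ.1, Nat.card_congr e.toEquiv, h2]
      simp only [map_one]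
  · rw [dif_neg h, dif_neg (fun h1 => h (hy' h1))]

end ff

section zb

variable {G : Subgroup W} (i : G →* V)

/-- the function on `V` defined by a function on `G` -/
def zb (f : W → F) (v : V) : F := if h : ∃ g : G, i g = v then f h.choose else 0

lemma zb_apply (hi : Function.Injective i) (f : W → F) (g : G) : zb i f (i g) = f g := by
  unfold zb
  have h : ∃ g' : G, i g' = i g := ⟨g, rfl⟩
  rw [dif_pos h]
  rw [hi h.choose_spec]

lemma zb_zero (f : W → F) {v : V} (h : v ∉ i.range) : zb i f v = 0 := by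
  unfold zb
  rw [dif_neg]
  rintro ⟨g, hg⟩
  exact h ⟨g, hg⟩

/-- the functions on `V` -/
def Zb (Z : Set ((W → F) × F)) : Set ((V → F) × F) := {w | ∃ z ∈ Z, w = (zb i z.1, z.2)}

lemma cd_zb (hi : Function.Injective i) {Z : Set ((W → F) × F)} {T : Subgroup W}
    {T' : Subgroup V} (e : T ≃* T') (hTG : T ≤ G)
    (he : ∀ t : T, (e t : V) = i ⟨t, hTG t.2⟩)
    (hZ : ∀ z ∈ Z, ∀ h ∈ G, ∀ x, z.1 (h * x * h⁻¹) = z.1 x) {χ : T' → ℂ} (hχ : IsIrrChar χ) :
    Cd red (Zb i Z) T' χ ↔ Cd red Z T (fun a => χ (e a)) := by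
  have h1 : ∀ z ∈ Z, ∀ t : T, zb i z.1 (e t) = z.1 t := by
    intro z hz t
    rw [he, zb_apply i hi]
  have h2 : ∀ z ∈ Z, IsClassFun (fun t : T' => zb i z.1 t) := by
    intro z hz g x
    obtain ⟨a, rfl⟩ := e.surjective g
    obtain ⟨b, rfl⟩ := e.surjective x
    have e1 : e a * e b * (e a)⁻¹ = e (a * b * a⁻¹) := by
      rw [map_mul, map_mul, map_inv]
    change zb i z.1 ((e a * e b * (e a)⁻¹ : T') : V) = zb i z.1 (e b)
    rw [e1, h1 z hz, h1 z hz]
    exact hZ z hz a (hTG a.2) b
  have h3 : ∀ z ∈ Z, centralValue red χ (fun t : T' => zb i z.1 t) =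
      centralValue red (fun a => χ (e a)) (fun t : T => z.1 t) := by
    intro z hz
    have h4 := Pool.Agent.Y624.NV.centralValue_comp red e hχ (h2 z hz)
    rw [← h4]
    congr 1
    funext t
    exact h1 z hz t
  constructor
  · intro h z hz
    rw [← h3 z hz]
    exact h _ ⟨z, hz, rfl⟩
  · rintro h _ ⟨z, hz, rfl⟩
    change centralValue red χ (fun t : T' => zb i z.1 t) = z.2
    rw [h3 z hz]
    exact h z hz

end zb

section tr

variable {G N : Subgroup W} (hGN : G ≤ N) (hNG : N ≤ Subgroup.normalizer (G : Set W))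
  (π : N →* V) (hi : Function.Injective (π.comp (Subgroup.inclusion hGN)))
  {ι : Type} [Finite ι]

include hi hNG in
/-- the stabilisers -/
lemma stab_tr (σ : Set (Subgroup G)) (n : N) :
    (n : W) ∈ chainStabilizer (Subgroup.map G.subtype '' σ) ↔
      π n ∈ chainStabilizer (Subgroup.map (π.comp (Subgroup.inclusion hGN)) '' σ) := by
  let α : G ≃* G := Subgroup.normalizerMonoidHom G ⟨n, hNG n.2⟩
  have hα : ∀ a : G, ((α a : G) : W) = n * a * (n : W)⁻¹ := fun a =>
    Subgroup.normalizerMonoidHom_apply_apply_coe G _ a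
  have h1 : ∀ a : G, G.subtype (α a) = (n : W) * G.subtype a * (n : W)⁻¹ := hα
  have h2 : ∀ a : G, (π.comp (Subgroup.inclusion hGN)) (α a) =
      π n * (π.comp (Subgroup.inclusion hGN)) a * (π n)⁻¹ := by
    intro a
    change π _ = π n * π _ * (π n)⁻¹
    rw [← map_inv, ← map_mul, ← map_mul]
    congr 1
  rw [mem_chainStabilizer, mem_chainStabilizer]
  constructor
  · rintro h _ ⟨P, hP, rfl⟩
    exact (map_conj _ hi h2 P).mp ((map_conj _ G.subtype_injective h1 P).mpr (h _ ⟨P, hP, rfl⟩))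
  · rintro h _ ⟨P, hP, rfl⟩
    exact (map_conj _ G.subtype_injective h1 P).mp ((map_conj _ hi h2 P).mpr (h _ ⟨P, hP, rfl⟩))

include hi hNG in
lemma as_tr (m : ℕ) (w : FreeGroup ι) {Z : Set ((W → F) × F)}
    (hZ : ∀ z ∈ Z, ∀ h ∈ G, ∀ x, z.1 (h * x * h⁻¹) = z.1 x) (x : ι → N)
    (hw : ((ww w x : N) : W) ∈ G) :
    As red p m w Z G (fun j => (x j : W)) =
      As red p m w (Zb (π.comp (Subgroup.inclusion hGN)) Z)
        (π.comp (Subgroup.inclusion hGN)).range (fun j => π (x j)) := by
  set i := π.comp (Subgroup.inclusion hGN) with hidef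
  unfold As
  rw [cs_hom G.subtype G.subtype_injective (Subgroup.range_subtype G), cs_hom i hi rfl]
  refine Finset.sum_congr rfl fun σ _ => ?_
  congr 1
  have h1 : ∀ n : N, (n : W) ∈ chainStabilizer (Subgroup.map G.subtype '' σ.1) ↔
      π n ∈ chainStabilizer (Subgroup.map i '' σ.1) := stab_tr hGN hNG π hi σ.1
  have h2 : (∀ j, (x j : W) ∈ chainStabilizer (Subgroup.map G.subtype '' σ.1)) ↔
      ∀ j, π (x j) ∈ chainStabilizer (Subgroup.map i '' σ.1) := forall_congr' fun j => h1 (x j)
  have h3 : ww w (fun j => (x j : W)) = ((ww w x : N) : W) := (ww_map N.subtype w x).symm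
  have h4 : ww w (fun j => π (x j)) = π (ww w x) := (ww_map π w x).symm
  have h5 : FF red p m Z (chainStabilizer (Subgroup.map G.subtype '' σ.1) ⊓ G)
      (ww w (fun j => (x j : W))) = FF red p m (Zb i Z)
        (chainStabilizer (Subgroup.map i '' σ.1) ⊓ i.range) (ww w (fun j => π (x j))) := by
    rw [h3, h4]
    have hmem : ∀ g : G, (g : W) ∈ chainStabilizer (Subgroup.map G.subtype '' σ.1) ↔
        i g ∈ chainStabilizer (Subgroup.map i '' σ.1) := fun g => h1 (Subgroup.inclusion hGN g)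
    let e₀ : (chainStabilizer (Subgroup.map G.subtype '' σ.1) ⊓ G : Subgroup W) →*
        (chainStabilizer (Subgroup.map i '' σ.1) ⊓ i.range : Subgroup V) :=
      (i.comp (Subgroup.inclusion inf_le_right)).codRestrict _ (fun t =>
        ⟨(hmem ⟨t, t.2.2⟩).mp t.2.1, ⟨_, rfl⟩⟩)
    have he₀ : ∀ t, ((e₀ t : V)) = i ⟨t, t.2.2⟩ := fun t => rfl
    have hbij : Function.Bijective e₀ := by
      constructor
      · intro s t hst
        have := congrArg Subtype.val hst
        rw [he₀, he₀] at this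
        have h6 := congrArg Subtype.val (hi this)
        exact Subtype.ext h6
      · rintro ⟨v, hv, ⟨g, rfl⟩⟩
        exact ⟨⟨g, (hmem g).mpr hv, g.2⟩, rfl⟩
    let e := MulEquiv.ofBijective e₀ hbij
    have he : ∀ t, ((e t : V)) = i ⟨t, t.2.2⟩ := fun t => rfl
    refine ff_iso red m e (fun χ hχ => cd_zb red i hi e inf_le_right he hZ hχ) ?_ ?_
    · intro h
      rw [he]
      rfl
    · rintro ⟨h6, _⟩
      exact ⟨(h1 (ww w x)).mpr h6, hw⟩
  by_cases hc : ∀ j, (x j : W) ∈ chainStabilizer (Subgroup.map G.subtype '' σ.1)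
  · rw [if_pos hc, if_pos (h2.mp hc), h5]
  · rw [if_neg hc, if_neg (fun h => hc (h2.mpr h))]

include hi hNG in
lemma zs_tr (m : ℕ) (w : FreeGroup ι) {Z : Set ((W → F) × F)}
    (hZ : ∀ z ∈ Z, ∀ h ∈ G, ∀ x, z.1 (h * x * h⁻¹) = z.1 x) (x₀ : ι → N)
    (h : Zs red p m w (Zb (π.comp (Subgroup.inclusion hGN)) Z)
        (π.comp (Subgroup.inclusion hGN)).range (fun j => π (x₀ j)) = 0) :
    Zs red p m w Z G (fun j => (x₀ j : W)) = 0 := by
  set i := π.comp (Subgroup.inclusion hGN) with hidef
  have hwx : ∀ u : ι → G, ((ww w x₀ : N) : W)⁻¹ *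
      (ww w (fun j => x₀ j * Subgroup.inclusion hGN (u j)) : N) ∈ G := by
    intro u
    have hnorm : (G.subgroupOf N).Normal := by
      constructor
      intro g hg n
      rw [Subgroup.mem_subgroupOf] at hg ⊢
      exact (Subgroup.mem_normalizer_iff.mp (hNG n.2) _).mp hg
    have h1 := ww_map (QuotientGroup.mk' (G.subgroupOf N)) w x₀
    have h2 := ww_map (QuotientGroup.mk' (G.subgroupOf N)) w
      (fun j => x₀ j * Subgroup.inclusion hGN (u j))
    have h3 : (fun j => QuotientGroup.mk' (G.subgroupOf N)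
        (x₀ j * Subgroup.inclusion hGN (u j))) = fun j => QuotientGroup.mk' (G.subgroupOf N)
        (x₀ j) := by
      funext j
      exact (QuotientGroup.eq.mpr (by
        rw [Subgroup.mem_subgroupOf, inv_mul_cancel_left]
        exact (u j).2)).symm
    rw [h3, ← h1] at h2
    have h4 := QuotientGroup.eq.mp (h2.symm : (QuotientGroup.mk (ww w x₀) : N ⧸ G.subgroupOf N) =
      QuotientGroup.mk (ww w (fun j => x₀ j * Subgroup.inclusion hGN (u j))))
    exact Subgroup.mem_subgroupOf.mp h4
  unfold Zs at h ⊢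
  rw [zs_param i hi rfl] at h
  rw [zs_param G.subtype G.subtype_injective (Subgroup.range_subtype G)]
  by_cases hG : ((ww w x₀ : N) : W) ∈ G
  · rw [← h]
    refine Finset.sum_congr rfl fun u _ => ?_
    have h1 := as_tr red (p := p) hGN hNG π hi m w hZ
      (fun j => x₀ j * Subgroup.inclusion hGN (u j)) (by
        have := G.mul_mem hG (hwx u)
        rwa [mul_inv_cancel_left] at this)
    refine Eq.trans ?_ (h1.trans ?_)
    · rfl
    · congr 1
      funext j
      rw [map_mul]
      rfl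
  · refine Finset.sum_eq_zero fun u _ => ?_
    unfold As CS
    refine Finset.sum_eq_zero fun σ _ => ?_
    have h1 : ww w (fun j => (x₀ j : W) * G.subtype (u j)) =
        ((ww w (fun j => x₀ j * Subgroup.inclusion hGN (u j)) : N) : W) :=
      (ww_map N.subtype w (fun j => x₀ j * Subgroup.inclusion hGN (u j))).symm
    have h2 : ww w (fun j => (x₀ j : W) * G.subtype (u j)) ∉ chainStabilizer σ.1 ⊓ G := by
      rw [h1]
      rintro ⟨_, h3⟩
      apply hG
      have h4 := G.mul_mem h3 (G.inv_mem (hwx u))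
      rw [mul_inv_rev, inv_inv, mul_inv_cancel_left] at h4
      exact h4
    have h3 : FF red p m Z (chainStabilizer σ.1 ⊓ G)
        (ww w (fun j => (x₀ j : W) * G.subtype (u j))) = 0 := by
      unfold FF
      rw [dif_neg h2]
    simp only [h3, ite_self, mul_zero]

end tr

end Pool.Agent.H378.SF
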