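import Pool.Agent.H378.SF.Dlt
import Pool.Agent.H378.SF.Ndz

/-!
# The induction step without normal complements
-/

set_option autoImplicit false
set_option linter.unusedSectionVars false
set_option linter.unusedVariables false

open scoped Classical BigOperators
open Pool.Agent.Helper884.IC Pool.Agent.Y63.AWC Pool.Agent.Y63.KR Pool.Agent.X209.EQ
open Pool.Agent.X209.PJ hiding push
open Pool.Agent.X209.DI Pool.Agent.X209.DQ Pool.Agent.H378.AC
open Pool.Agent.Y63.NV (IsClassFun IsBlock InZ centralValue redC conv)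
open Pool.Agent.N22.DD (f1 f2 mem_f1 mem_f2 conj_f1)
open Pool.Agent.Q100.IV (conj_eq_self)

noncomputable section

namespace Pool.Agent.H378.SF

attribute [-instance] MonoidHom.fintypeRange MonoidHom.decidableMemRange

variable {F : Type} [Field F] (red : integralClosure ℤ ℂ →+* F) {W : Type} [Group W] [Finite W]
  {p : ℕ} [hp : Fact p.Prime] [CharP F p]

omit [Finite W] in
lemma dl_conj (g x : W) : dl F (g * x * g⁻¹) = dl F x := cf_one (F := F) g x

lemma sum_pair {ι R : Type} [Finite ι] [AddCommMonoid R] (f : (ι → W × W) → R) :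
    ∑ x : ι → W × W, f x = ∑ y : ι → W, ∑ x : ι → W, f (fun i => (x i, y i)) := by
  rw [Finset.sum_comm, ← Fintype.sum_prod_type']
  exact Fintype.sum_equiv (Equiv.arrowProdEquivProdArrow ι (fun _ => W) (fun _ => W)) _ _
    fun _ => rfl

/-- **Blocks of the centraliser without characters of defect zero.** -/
theorem rel_ndz {G Q : Subgroup W} (hQ : IsPGroup p Q)
    (hQG : Q ≤ Subgroup.normalizer (G : Set W)) {Z : Set ((W → F) × F)}
    (hZG : ∀ z ∈ Z, ∀ h ∈ G, ∀ x, z.1 (h * x * h⁻¹) = z.1 x)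
    (hZQ : ∀ z ∈ Z, ∀ h ∈ Q, ∀ x, z.1 (h * x * h⁻¹) = z.1 x)
    (hD : ∀ θ : G → ℂ, IsIrrChar θ → Cd red Z G θ → dfc p θ ≠ 0) :
    ∀ ψ : CQ G Q → ℂ, IsIrrChar ψ → Cd red Z (CQ G Q) ψ → dfc p ψ ≠ 0 := by
  intro ψ hψ hC h0
  let a : Q →* MulAut G := (Subgroup.normalizerMonoidHom G).comp (Subgroup.inclusion hQG)
  have ha : ∀ (q : Q) (x : G), ((a q x : G) : W) = q * x * (q : W)⁻¹ := fun q x =>
    Subgroup.normalizerMonoidHom_apply_apply_coe G _ x
  let C : Subgroup G := (CQ G Q).subgroupOf G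
  have hCm : ∀ x, x ∈ C ↔ ∀ q : Q, a q x = x := by
    intro x
    rw [Subgroup.mem_subgroupOf, mem_CQ]
    constructor
    · rintro ⟨_, h⟩ q
      apply Subtype.ext
      rw [ha]
      exact mul_inv_eq_iff_eq_mul.mpr (h q q.2)
    · intro h
      refine ⟨x.2, fun q hq => ?_⟩
      have h1 := congrArg Subtype.val (h ⟨q, hq⟩)
      rw [ha] at h1
      exact mul_inv_eq_iff_eq_mul.mp h1
  let ε : C ≃* CQ G Q := subEq inf_le_left (fun x => Subgroup.mem_subgroupOf)
  have hψ' : IsIrrChar (fun c : C => ψ (ε c)) := by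
    have : Fintype C := Fintype.ofFinite _
    have : Fintype (CQ G Q) := Fintype.ofFinite _
    exact irr_comp ε hψ
  have hd' : dfc p (fun c : C => ψ (ε c)) = 0 := by
    rw [dfc_comp' ε hψ]
    exact h0
  obtain ⟨χ, h1, h2, h3⟩ := ndz a hQ hCm red hψ' hd'
  refine hD χ h1 (fun z hz => ?_) h2
  rw [h3 (fun t : G => z.1 t) (fun g x => hZG z hz g g.2 x) (fun q x => by
    rw [ha]
    exact hZQ z hz q q.2 x)]
  have h4 := Pool.Agent.Y624.NV.centralValue_comp red ε hψ
    (f := fun x : CQ G Q => z.1 x) (fun g x => hZG z hz g ((mem_CQ.mp g.2).1) x)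
  exact h4.trans (hC z hz)

/-- **The step without normal complements.** -/
theorem step2 (hT : ∀ (A : Type) [Group A] [Finite A], TT p red A) {g : ℕ} (hg : 0 < g)
    (k₀ : Fin g) {G K N : Subgroup W} (hGK : G ≤ K) (hKN : K ≤ N)
    (hNG : N ≤ Subgroup.normalizer (G : Set W)) (hNK : N ≤ Subgroup.normalizer (K : Set W))
    (hpK : ∀ x ∈ K, ∃ k : ℕ, x ^ p ^ k ∈ G) {Z : Set ((W → F) × F)} (hZ : Zok Z G N)
    (hD : ∀ θ : G → ℂ, IsIrrChar θ → Cd red Z G θ → dfc p θ ≠ 0)
    (hno : ∀ Q : Subgroup W, Q ≤ K → IsPGroup p Q → Q ≠ ⊥ → Q ⊓ G = ⊥ →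
      ¬ N ≤ Subgroup.normalizer (Q : Set W))
    (ih : ∀ G' K' N' : Subgroup W, Nat.card N' < Nat.card N → G' ≤ K' → K' ≤ N' →
      N' ≤ Subgroup.normalizer (G' : Set W) → N' ≤ Subgroup.normalizer (K' : Set W) →
      (∀ x ∈ K', ∃ k : ℕ, x ^ p ^ k ∈ G') → Zok Z G' N' →
      (∀ θ : G' → ℂ, IsIrrChar θ → Cd red Z G' θ → dfc p θ ≠ 0) →
      ∀ x₀ : Fin g × Bool → W, (∀ i, x₀ i ∈ N') → (∀ i, i ≠ (k₀, false) → x₀ i ∈ K') →
        Zs red p (2 * g - 2) (wd' g) Z G' x₀ = 0)
    (x₀ : Fin g × Bool → W) (hx₀ : ∀ i, x₀ i ∈ N) (hx₁ : ∀ i, i ≠ (k₀, false) → x₀ i ∈ K) :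
    Zs red p (2 * g - 2) (wd' g) Z G x₀ = 0 := by
  have hKG : K ≤ Subgroup.normalizer (G : Set W) := hKN.trans hNG
  set e : W := x₀ (k₀, false) with he
  have heN : e ∈ N := hx₀ _
  have hZG : ∀ z ∈ Z, ∀ h ∈ G, ∀ x, z.1 (h * x * h⁻¹) = z.1 x := fun z hz h hh =>
    hZ.conj z hz h (hKN (hGK hh))
  have hZd : ∀ z ∈ Zd Z, ∀ h ∈ N, ∀ x, z.1 (h * x * h⁻¹) = z.1 x := by
    rintro _ ⟨z, hz, rfl⟩ h hh x
    change z.1 (h * x * h⁻¹)⁻¹ = z.1 x⁻¹
    have e1 : (h * x * h⁻¹)⁻¹ = h * x⁻¹ * h⁻¹ := by group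
    rw [e1, hZ.conj z hz h hh]
  set D := DK G K hKG with hDdef
  set M : Subgroup (W × W) := G.prod G with hM
  have hMD : M ≤ D := prod_le_DK hGK
  have hDV : D ≤ N.prod N := by
    rintro ⟨a, b⟩ hx
    exact Subgroup.mem_prod.mpr ⟨hKN hx.1, hKN hx.2.1⟩
  have hVM : N.prod N ≤ Subgroup.normalizer (M : Set (W × W)) := norm_prod hNG
  have heD : (e, e) ∈ Subgroup.normalizer (D : Set (W × W)) := norm_DK (hNG heN) (hNK heN)
  have hpD : ∀ x ∈ D, ∃ k : ℕ, x ^ p ^ k ∈ M := pow_DK hpK
  set ZZ := Zp Z (Zd Z) with hZZ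
  have hZok : Zok ZZ M D := by
    constructor
    · rintro _ (⟨z, hz, rfl⟩ | ⟨z, hz, rfl⟩) ⟨a, b⟩ hab ⟨x, y⟩
      · change z.1 (a * x * a⁻¹) * dl F (b * y * b⁻¹) = z.1 x * dl F y
        rw [hZ.conj z hz a (hKN hab.1), dl_conj]
      · change dl F (a * x * a⁻¹) * z.1 (b * y * b⁻¹) = dl F x * z.1 y
        rw [hZd z hz b (hKN hab.2.1), dl_conj]
    · rintro _ (⟨z, hz, rfl⟩ | ⟨z, hz, rfl⟩) ⟨x, y⟩ hxy hM'
      · change z.1 x * dl F y = 0
        by_cases hy : y = 1
        · rw [hZ.supp z hz x (hKN hxy.1) (fun h => hM' ?_), zero_mul]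
          rw [hM, Subgroup.mem_prod]
          exact ⟨h, by rw [hy]; exact G.one_mem⟩
        · unfold dl
          rw [if_neg hy, mul_zero]
      · obtain ⟨z', hz', rfl⟩ := hz
        change dl F x * z'.1 y⁻¹ = 0
        by_cases hx : x = 1
        · rw [hZ.supp z' hz' y⁻¹ (N.inv_mem (hKN hxy.2.1)) (fun h => hM' ?_), mul_zero]
          rw [hM, Subgroup.mem_prod]
          exact ⟨by rw [hx]; exact G.one_mem, G.inv_mem_iff.mp h⟩
        · unfold dl
          rw [if_neg hx, zero_mul]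
  -- the whole group
  have h1 := phi_zero red hg (hT D) heD k₀ hMD (hDV.trans hVM) hpD hZok
    (dz_prod red hZG (fun z hz h hh => hZd z hz h (hKN (hGK hh))) hD)
  -- comparison
  have h2 : CS p D (Phi red p D M (e, e) k₀ ZZ) = CS p M (Phi red p D M (e, e) k₀ ZZ) := by
    refine cs_comp hDV hVM hMD _ ?_ ?_
    · intro S
      unfold Phi
      refine Finset.sum_congr rfl fun x _ => ?_
      have h3 : S ⊓ N.prod N ⊓ M = S ⊓ M := by
        rw [inf_assoc, inf_eq_right.mpr (hMD.trans hDV)]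
      rw [h3]
      refine if_congr ?_ rfl rfl
      constructor
      · rintro ⟨h4, h5⟩
        exact ⟨fun i => ⟨h4 i, h5.mem hDV (Subgroup.mem_prod.mpr ⟨heN, heN⟩) i⟩, h5⟩
      · rintro ⟨h4, h5⟩
        exact ⟨fun i => (h4 i).1, h5⟩
    · intro Q hQD hQ hQ1 hQM L hL1 hL2
      have hQnM : ∀ q ∈ Q, q ∈ Subgroup.normalizer (M : Set (W × W)) := fun q hq =>
        hVM (hDV (hQD hq))
      have hML : CQ M Q = M ⊓ L := by
        apply le_antisymm (le_inf inf_le_left hL1)
        rintro x ⟨hxM, hxL⟩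
        refine mem_CQ.mpr ⟨hxM, fun q hq => ?_⟩
        have h4 : x * q * x⁻¹ * q⁻¹ ∈ Q ⊓ M := by
          refine ⟨Q.mul_mem ((Subgroup.mem_normalizer_iff.mp (hL2 hxL) q).mp hq)
            (Q.inv_mem hq), ?_⟩
          have h5 := (Subgroup.mem_normalizer_iff.mp (hQnM q hq) x⁻¹).mp (M.inv_mem hxM)
          have h6 := M.mul_mem hxM h5
          have e1 : x * (q * x⁻¹ * q⁻¹) = x * q * x⁻¹ * q⁻¹ := by group
          rwa [e1] at h6
        rw [hQM, Subgroup.mem_bot] at h4
        have h5 : x * q = q * x := by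
          calc x * q = x * q * x⁻¹ * q⁻¹ * (q * x) := by group
            _ = q * x := by rw [h4, one_mul]
        exact h5.symm
      rw [phi_L red D M (e, e) k₀ ZZ hML]
      set Q₁ := f1 Q with hQ₁
      have hQ₁K : Q₁ ≤ K := by
        intro q hq
        obtain ⟨b, hb⟩ := mem_f1.mp hq
        exact (hQD hb).1
      have hQ₁G : Q₁ ⊓ G = ⊥ := by
        rw [eq_bot_iff]
        rintro q ⟨hq, hqG⟩
        obtain ⟨b, hb⟩ := mem_f1.mp hq
        have h4 : b ∈ G := by
          have h5 := (hQD hb).2.2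
          have h6 := G.mul_mem hqG h5
          rwa [mul_inv_cancel_left] at h6
        have h5 : ((q, b) : W × W) ∈ Q ⊓ M := ⟨hb, Subgroup.mem_prod.mpr ⟨hqG, h4⟩⟩
        rw [hQM, Subgroup.mem_bot] at h5
        exact Subgroup.mem_bot.mpr (congrArg Prod.fst h5)
      have hQ₁p : IsPGroup p Q₁ := Pool.Agent.N22.DD.isPGroup_f1 hQ
      have hQ₁1 : Q₁ ≠ ⊥ := by
        intro h4
        apply hQ1
        rw [eq_bot_iff]
        rintro ⟨a, b⟩ hab
        have h5 : a = 1 := by
          have : a ∈ Q₁ := mem_f1.mpr ⟨b, hab⟩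
          rw [h4] at this
          exact Subgroup.mem_bot.mp this
        have h6 : ((a, b) : W × W) ∈ Q ⊓ M := by
          refine ⟨hab, Subgroup.mem_prod.mpr ⟨by rw [h5]; exact G.one_mem, ?_⟩⟩
          have h7 := (hQD hab).2.2
          change a⁻¹ * b ∈ G at h7
          rwa [h5, inv_one, one_mul] at h7
        rw [hQM] at h6
        exact h6
      set N' := N ⊓ Subgroup.normalizer (Q₁ : Set W) with hN'
      set K' := K ⊓ Subgroup.normalizer (Q₁ : Set W) with hK'
      set G' := CQ G Q₁ with hG'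
      have hGN' : G ⊓ Subgroup.normalizer (Q₁ : Set W) ≤ G' := by
        rintro x ⟨hxG, hxQ⟩
        refine mem_CQ.mpr ⟨hxG, fun q hq => ?_⟩
        have h4 : x * q * x⁻¹ * q⁻¹ ∈ Q₁ ⊓ G := by
          refine ⟨Q₁.mul_mem ((Subgroup.mem_normalizer_iff.mp hxQ q).mp hq)
            (Q₁.inv_mem hq), ?_⟩
          have h5 := (Subgroup.mem_normalizer_iff.mp (hKG (hQ₁K hq)) x⁻¹).mp (G.inv_mem hxG)
          have h6 := G.mul_mem hxG h5
          have e1 : x * (q * x⁻¹ * q⁻¹) = x * q * x⁻¹ * q⁻¹ := by group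
          rwa [e1] at h6
        rw [hQ₁G, Subgroup.mem_bot] at h4
        have h5 : x * q = q * x := by
          calc x * q = x * q * x⁻¹ * q⁻¹ * (q * x) := by group
            _ = q * x := by rw [h4, one_mul]
        exact h5.symm
      have hG'N : G' ≤ Subgroup.normalizer (Q₁ : Set W) := by
        intro x hx
        rw [← conjSub_eq_iff]
        exact conj_eq_self fun r hr => ((mem_CQ.mp hx).2 r hr).symm
      have hcard : Nat.card N' < Nat.card N := by
        have h4 : N' < N := by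
          refine lt_of_le_of_ne inf_le_left fun h5 => hno Q₁ hQ₁K hQ₁p hQ₁1 hQ₁G ?_
          rw [← h5]
          exact inf_le_right
        rcases lt_or_ge (Nat.card N') (Nat.card N) with h5 | h5
        · exact h5
        · exact absurd (Subgroup.eq_of_le_of_card_ge h4.le h5) h4.ne
      have hN'G' : N' ≤ Subgroup.normalizer (G' : Set W) := by
        intro n hn
        rw [← conjSub_eq_iff]
        change conjSub n (G ⊓ Subgroup.centralizer (Q₁ : Set W)) = _
        rw [conjSub_inf, conjSub_eq_iff.mpr (hNG hn.1), norm_cent (conjSub_eq_iff.mpr hn.2)]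
        rfl
      have hN'K' : N' ≤ Subgroup.normalizer (K' : Set W) := by
        intro n hn
        rw [← conjSub_eq_iff]
        change conjSub n (K ⊓ Subgroup.normalizer (Q₁ : Set W)) = _
        rw [conjSub_inf, conjSub_eq_iff.mpr (hNK hn.1),
          conjSub_eq_iff.mpr (Subgroup.le_normalizer hn.2)]
      have hIH := ih G' K' N' hcard (le_inf (inf_le_left.trans hGK) hG'N)
        (inf_le_inf_right _ hKN) hN'G' hN'K' (by
          intro x hx
          obtain ⟨k, hk⟩ := hpK x hx.1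
          exact ⟨k, hGN' ⟨hk, Subgroup.pow_mem _ hx.2 _⟩⟩)
        (hZ.mono inf_le_left (by
          rintro x ⟨h4, h5⟩
          exact hGN' ⟨h4, h5.2⟩))
        (rel_ndz red hQ₁p (hQ₁K.trans hKG) hZG
          (fun z hz h hh => hZ.conj z hz h (hKN (hQ₁K hh))) hD)
      rw [sum_pair]
      refine Finset.sum_eq_zero fun y _ => ?_
      have hsub₁ : G' ≤ N := inf_le_left.trans (hGK.trans hKN)
      have hsub₂ : CQ G (f2 Q) ≤ N := inf_le_left.trans (hGK.trans hKN)
      have e1 : ∀ x : Fin g × Bool → W, As red p (2 * g - 2) (wd' g) ZZ (CQ M Q)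
          (fun i => (x i, y i)) = As red p (2 * g - 2) (wd' g) Z G' x *
            As red p (2 * g - 2) (wd' g) (Zd Z) (CQ G (f2 Q)) y := by
        intro x
        rw [hM, cq_prod, hZZ]
        exact as_prod red (2 * g - 2) (wd' g) (fun z hz h hh => hZ.conj z hz h (hsub₁ hh))
          (fun z hz h hh => hZd z hz h (hsub₂ hh)) _
      by_cases hex : ∃ x₁ : Fin g × Bool → W, Pat D (e, e) k₀ (fun i => (x₁ i, y i)) ∧
          ∀ i, (x₁ i, y i) ∈ L
      · obtain ⟨x₁, h4, h5⟩ := hex
        have h6 : ∀ x : Fin g × Bool → W, (Pat D (e, e) k₀ (fun i => (x i, y i)) ∧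
            ∀ i, (x i, y i) ∈ L) ↔ ∀ i, (x₁ i)⁻¹ * x i ∈ G' := by
          intro x
          have hel : ∀ i, ((x₁ i, y i) : W × W)⁻¹ * (x i, y i) = ((x₁ i)⁻¹ * x i, 1) := by
            intro i
            exact Prod.ext rfl (inv_mul_cancel (y i))
          constructor
          · rintro ⟨h7, h8⟩ i
            have h9 : (((x₁ i)⁻¹ * x i, 1) : W × W) ∈ L := by
              rw [← hel]
              exact L.mul_mem (L.inv_mem (h5 i)) (h8 i)
            have h10 : (((x₁ i)⁻¹ * x i, 1) : W × W) ∈ D := by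
              rw [← hel]
              obtain ⟨k, b⟩ := i
              cases b
              · have h11 := D.mul_mem (D.inv_mem (h4.1 k)) (h7.1 k)
                have e2 : ∀ c u v : W × W, (c⁻¹ * u)⁻¹ * (c⁻¹ * v) = u⁻¹ * v := by
                  intro c u v
                  group
                rwa [e2] at h11
              · exact D.mul_mem (D.inv_mem (h4.2 k)) (h7.2 k)
            have h11 : (x₁ i)⁻¹ * x i ∈ G := by
              have h12 := h10.2.2
              change ((x₁ i)⁻¹ * x i)⁻¹ * 1 ∈ G at h12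
              rw [mul_one] at h12
              exact G.inv_mem_iff.mp h12
            have h12 : (((x₁ i)⁻¹ * x i, 1) : W × W) ∈ CQ M Q := by
              rw [hML]
              exact ⟨Subgroup.mem_prod.mpr ⟨h11, G.one_mem⟩, h9⟩
            rw [hM, cq_prod, Subgroup.mem_prod] at h12
            exact h12.1
          · intro h7
            have h8 : ∀ i, (((x₁ i)⁻¹ * x i, 1) : W × W) ∈ M ⊓ L := by
              intro i
              rw [← hML, hM, cq_prod, Subgroup.mem_prod]
              exact ⟨h7 i, Subgroup.one_mem _⟩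
            refine ⟨h4.mul hMD fun i => ?_, fun i => ?_⟩
            · rw [hel]
              exact (h8 i).1
            · have h9 := L.mul_mem (h5 i) (h8 i).2
              rw [← hel, mul_inv_cancel_left] at h9
              exact h9
        have h7 : ∀ i, x₁ i ∈ N' := by
          intro i
          have h8 := h4.mem hDV (Subgroup.mem_prod.mpr ⟨heN, heN⟩) i
          refine ⟨(Subgroup.mem_prod.mp h8).1, ?_⟩
          have h9 := conjSub_eq_iff.mpr (hL2 (h5 i))
          change x₁ i ∈ Subgroup.normalizer (Q₁ : Set W)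
          rw [← conjSub_eq_iff, hQ₁, ← conj_f1 (x₁ i, y i) Q, h9]
        have h8 : ∀ i, i ≠ (k₀, false) → x₁ i ∈ K' := by
          intro i hi
          refine ⟨?_, (h7 i).2⟩
          obtain ⟨k, b⟩ := i
          cases b
          · have h9 := h4.1 k
            have h10 : k ≠ k₀ := fun h => hi (by rw [h])
            unfold cc at h9
            rw [if_neg h10, inv_one, one_mul] at h9
            exact h9.1
          · exact (h4.2 k).1
        have h9 := hIH x₁ h7 h8
        unfold Zs at h9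
        have h10 : ∀ x : Fin g × Bool → W, (if Pat D (e, e) k₀ (fun i => (x i, y i)) ∧
            ∀ i, (x i, y i) ∈ L then As red p (2 * g - 2) (wd' g) ZZ (CQ M Q)
              (fun i => (x i, y i)) else 0) =
            (if ∀ i, (x₁ i)⁻¹ * x i ∈ G' then As red p (2 * g - 2) (wd' g) Z G' x else 0) *
              As red p (2 * g - 2) (wd' g) (Zd Z) (CQ G (f2 Q)) y := by
          intro x
          rw [e1]
          by_cases hc : ∀ i, (x₁ i)⁻¹ * x i ∈ G'
          · rw [if_pos hc, if_pos ((h6 x).mpr hc)]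
          · rw [if_neg hc, if_neg (fun h => hc ((h6 x).mp h)), zero_mul]
        have h11 : ∑ x : Fin g × Bool → W, (if ∀ i, (x₁ i)⁻¹ * x i ∈ G' then
            As red p (2 * g - 2) (wd' g) Z G' x else 0) = 0 := by
          convert h9
        rw [Finset.sum_congr rfl fun x _ => h10 x, ← Finset.sum_mul, h11, zero_mul]
      · refine Finset.sum_eq_zero fun x _ => ?_
        rw [if_neg]
        exact fun h => hex ⟨x, h⟩
  rw [h1] at h2
  rw [phi_as, sum_pair, Finset.sum_comm] at h2
  have hPat : ∀ x y : Fin g × Bool → W, Pat D (e, e) k₀ (fun i => (x i, y i)) ↔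
      Pat K e k₀ x ∧ ∀ i, (x i)⁻¹ * y i ∈ G := by
    intro x y
    have hcc : ∀ k, cc ((e, e) : W × W) k₀ k = (cc e k₀ k, cc e k₀ k) := by
      intro k
      unfold cc
      split_ifs
      · rfl
      · rfl
    constructor
    · rintro ⟨h3, h4⟩
      refine ⟨⟨fun k => ?_, fun k => (h4 k).1⟩, ?_⟩
      · have h5 := h3 k
        rw [hcc] at h5
        exact h5.1
      · rintro ⟨k, b⟩
        cases b
        · have h5 := h3 k
          rw [hcc] at h5
          have h6 := h5.2.2
          change ((cc e k₀ k)⁻¹ * x (k, false))⁻¹ * ((cc e k₀ k)⁻¹ * y (k, false)) ∈ G at h6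
          have e2 : ((cc e k₀ k)⁻¹ * x (k, false))⁻¹ * ((cc e k₀ k)⁻¹ * y (k, false)) =
            (x (k, false))⁻¹ * y (k, false) := by group
          rwa [e2] at h6
        · exact (h4 k).2.2
    · rintro ⟨⟨h3, h4⟩, h5⟩
      refine ⟨fun k => ?_, fun k => ?_⟩
      · rw [hcc]
        refine ⟨h3 k, ?_, ?_⟩
        · change (cc e k₀ k)⁻¹ * y (k, false) ∈ K
          have h6 := K.mul_mem (h3 k) (hGK (h5 (k, false)))
          have e2 : (cc e k₀ k)⁻¹ * x (k, false) * ((x (k, false))⁻¹ * y (k, false)) =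
            (cc e k₀ k)⁻¹ * y (k, false) := by group
          rwa [e2] at h6
        · change ((cc e k₀ k)⁻¹ * x (k, false))⁻¹ * ((cc e k₀ k)⁻¹ * y (k, false)) ∈ G
          have e2 : ((cc e k₀ k)⁻¹ * x (k, false))⁻¹ * ((cc e k₀ k)⁻¹ * y (k, false)) =
            (x (k, false))⁻¹ * y (k, false) := by group
          rw [e2]
          exact h5 _
      · refine ⟨h4 k, ?_, h5 (k, true)⟩
        have h6 := K.mul_mem (h4 k) (hGK (h5 (k, true)))
        rwa [mul_inv_cancel_left] at h6
  have hsq := sq_zero G (Pat K e k₀) (fun x y hxy hx => hx.mul hGK hxy)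
    (As red p (2 * g - 2) (wd' g) Z G) (by
      refine Eq.trans (Finset.sum_congr rfl fun x _ => ?_) h2.symm
      by_cases hx : Pat K e k₀ x
      · rw [if_pos hx, map_sum, Finset.mul_sum]
        refine Finset.sum_congr rfl fun y _ => ?_
        have h3 : As red p (2 * g - 2) (wd' g) ZZ M (fun i => (x i, y i)) =
            As red p (2 * g - 2) (wd' g) Z G x *
              (starRingEnd ℂ) (As red p (2 * g - 2) (wd' g) Z G y) := by
          rw [← as_dual red (2 * g - 2) (wd' g) hZG y]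
          exact as_prod red (2 * g - 2) (wd' g) hZG
            (fun z hz h hh => hZd z hz h (hKN (hGK hh))) _
        rw [h3]
        by_cases hxy : ∀ i, (x i)⁻¹ * y i ∈ G
        · rw [if_pos hxy, if_pos ((hPat x y).mpr ⟨hx, hxy⟩)]
        · rw [if_neg hxy, if_neg (fun h => hxy ((hPat x y).mp h).2), map_zero, mul_zero]
      · rw [if_neg hx]
        symm
        refine Finset.sum_eq_zero fun y _ => ?_
        rw [if_neg]
        exact fun h => hx ((hPat x y).mp h).1)
  refine hsq x₀ ⟨fun k => ?_, fun k => ?_⟩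
  · unfold cc
    by_cases hk : k = k₀
    · rw [if_pos hk, hk, he, inv_mul_cancel]
      exact K.one_mem
    · rw [if_neg hk, inv_one, one_mul]
      exact hx₁ _ (fun h => hk (congrArg Prod.fst h))
  · exact hx₁ _ (fun h => Bool.noConfusion (congrArg Prod.snd h))

end Pool.Agent.H378.SF
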