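import Pool.Agent.H378.SF.Dual
import Pool.Agent.H378.SF.Kun
import Pool.Agent.H378.SF.Ev
import Pool.Agent.H378.SF.Blk

/-!
# Sums over chains and tuples
-/

set_option autoImplicit false
set_option linter.unusedSectionVars false
set_option linter.unusedVariables false

open scoped Classical BigOperators
open Pool.Agent.Helper884.IC Pool.Agent.Y63.AWC Pool.Agent.Y63.KR Pool.Agent.X209.EQ
open Pool.Agent.X209.PJ hiding push
open Pool.Agent.X209.DI Pool.Agent.X209.DQ Pool.Agent.H378.AC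
open Pool.Agent.Y63.NV (IsClassFun IsBlock InZ centralValue redC conv)
open Pool.Agent.Q90.WR (box box_irr box_cover box_inj)

noncomputable section

namespace Pool.Agent.H378.SF

attribute [-instance] MonoidHom.fintypeRange MonoidHom.decidableMemRange

section cs

variable {W : Type} [Group W] [Finite W] {p : ℕ} {R : Type} [CommRing R]

lemma cs_sum {ι : Type} (s : Finset ι) (X : Subgroup W) (f : ι → Subgroup W → R) :
    CS p X (fun S => ∑ i ∈ s, f i S) = ∑ i ∈ s, CS p X (f i) := by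
  unfold CS
  rw [Finset.sum_comm]
  exact Finset.sum_congr rfl fun σ _ => Finset.mul_sum _ _ _

lemma cs_ite (X : Subgroup W) (c : Prop) [Decidable c] (f : Subgroup W → R) :
    CS p X (fun S => if c then f S else 0) = if c then CS p X f else 0 := by
  split_ifs
  · rfl
  · unfold CS
    simp

lemma cs_congr (X : Subgroup W) {f g : Subgroup W → R} (h : ∀ S, f S = g S) :
    CS p X f = CS p X g := by
  rw [funext h]

end cs

section sq

variable {ι W : Type} [Group W] [Finite W] [Finite ι]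

lemma sum_shift {R : Type} [AddCommMonoid R] (y : ι → W) (f : (ι → W) → R) :
    ∑ x : ι → W, f x = ∑ u : ι → W, f (fun i => y i * u i) :=
  (Fintype.sum_equiv (Equiv.mulLeft y) _ _ fun _ => rfl).symm

/-- **The square.** -/
theorem sq_zero (G : Subgroup W) (P : (ι → W) → Prop)
    (hP : ∀ x y, (∀ i, (x i)⁻¹ * y i ∈ G) → P x → P y) (f : (ι → W) → ℂ)
    (h : ∑ x : ι → W, (if P x then f x * (starRingEnd ℂ)
      (∑ y : ι → W, if ∀ i, (x i)⁻¹ * y i ∈ G then f y else 0) else 0) = 0) :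
    ∀ x, P x → ∑ y : ι → W, (if ∀ i, (x i)⁻¹ * y i ∈ G then f y else 0) = 0 := by
  set Zf : (ι → W) → ℂ := fun x => ∑ y : ι → W, if ∀ i, (x i)⁻¹ * y i ∈ G then f y else 0 with hZf
  have hsymm : ∀ x y : ι → W, (∀ i, (x i)⁻¹ * y i ∈ G) → ∀ i, (y i)⁻¹ * x i ∈ G := by
    intro x y h i
    have := G.inv_mem (h i)
    rwa [mul_inv_rev, inv_inv] at this
  have htr : ∀ x y z : ι → W, (∀ i, (x i)⁻¹ * y i ∈ G) → (∀ i, (y i)⁻¹ * z i ∈ G) →
      ∀ i, (x i)⁻¹ * z i ∈ G := by
    intro x y z h1 h2 i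
    have := G.mul_mem (h1 i) (h2 i)
    have e : (x i)⁻¹ * y i * ((y i)⁻¹ * z i) = (x i)⁻¹ * z i := by group
    rwa [e] at this
  have hZc : ∀ x y : ι → W, (∀ i, (x i)⁻¹ * y i ∈ G) → Zf x = Zf y := by
    intro x y hxy
    simp only [hZf]
    refine Finset.sum_congr rfl fun z _ => if_congr ?_ rfl rfl
    exact ⟨htr y x z (hsymm x y hxy), htr x y z hxy⟩
  set n : ℂ := ∑ u : ι → W, if ∀ i, (u i)⁻¹ ∈ G then 1 else 0 with hn
  have hcount : ∀ y : ι → W, ∑ x : ι → W, (if ∀ i, (x i)⁻¹ * y i ∈ G then (1 : ℂ) else 0) = n := by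
    intro y
    rw [sum_shift y, hn]
    refine Finset.sum_congr rfl fun u _ => if_congr (forall_congr' fun i => ?_) rfl rfl
    have e : (y i * u i)⁻¹ * y i = (u i)⁻¹ := by group
    rw [e]
  have h2 : ∑ x : ι → W, (if P x then Zf x * (starRingEnd ℂ) (Zf x) else 0) = 0 := by
    have e1 : ∀ x : ι → W, (if P x then Zf x * (starRingEnd ℂ) (Zf x) else 0) =
        ∑ y : ι → W, (if ∀ i, (x i)⁻¹ * y i ∈ G then (1 : ℂ) else 0) *
          (if P y then f y * (starRingEnd ℂ) (Zf y) else 0) := by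
      intro x
      by_cases hx : P x
      · rw [if_pos hx]
        conv_lhs => rw [hZf]
        simp only []
        rw [Finset.sum_mul]
        refine Finset.sum_congr rfl fun y _ => ?_
        by_cases hxy : ∀ i, (x i)⁻¹ * y i ∈ G
        · rw [if_pos hxy, if_pos hxy, if_pos (hP x y hxy hx), one_mul, ← hZc x y hxy]
        · rw [if_neg hxy, if_neg hxy, zero_mul, zero_mul]
      · rw [if_neg hx]
        symm
        refine Finset.sum_eq_zero fun y _ => ?_
        by_cases hxy : ∀ i, (x i)⁻¹ * y i ∈ G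
        · rw [if_neg (fun h => hx (hP y x (hsymm x y hxy) h)), mul_zero]
        · rw [if_neg hxy, zero_mul]
    rw [Finset.sum_congr rfl fun x _ => e1 x, Finset.sum_comm]
    have e2 : ∀ y : ι → W, ∑ x : ι → W, (if ∀ i, (x i)⁻¹ * y i ∈ G then (1 : ℂ) else 0) *
          (if P y then f y * (starRingEnd ℂ) (Zf y) else 0) =
        n * (if P y then f y * (starRingEnd ℂ) (Zf y) else 0) := by
      intro y
      rw [← Finset.sum_mul, hcount]
    rw [Finset.sum_congr rfl fun y _ => e2 y, ← Finset.mul_sum]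
    have e3 : ∑ y : ι → W, (if P y then f y * (starRingEnd ℂ) (Zf y) else 0) = 0 := h
    rw [e3, mul_zero]
  intro x hx
  have h3 : ∑ x : ι → W, (if P x then Complex.normSq (Zf x) else 0) = 0 := by
    have h4 : ((∑ x : ι → W, (if P x then Complex.normSq (Zf x) else 0) : ℝ) : ℂ) = 0 := by
      rw [← h2]
      push_cast
      refine Finset.sum_congr rfl fun y _ => ?_
      split_ifs
      · exact (Complex.mul_conj (Zf y)).symm
      · rfl
    exact_mod_cast h4
  have h5 := (Finset.sum_eq_zero_iff_of_nonneg (fun y _ => by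
    split_ifs
    · exact Complex.normSq_nonneg _
    · exact le_rfl)).mp h3 x (Finset.mem_univ _)
  rw [if_pos hx] at h5
  exact Complex.normSq_eq_zero.mp h5

end sq

section as

variable {F : Type} [Field F] (red : integralClosure ℤ ℂ →+* F) {ι W W' : Type} [Group W]
  [Finite W] [Group W'] [Finite W'] [Finite ι]

/-- the sum over the chains for one tuple -/
def As (p m : ℕ) (w : FreeGroup ι) (Z : Set ((W → F) × F)) (G : Subgroup W) (x : ι → W) : ℂ :=
  CS p G (fun S => if ∀ i, x i ∈ S then FF red p m Z (S ⊓ G) (ww w x) else 0)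

/-- the sum over the tuples of a coset -/
def Zs (p m : ℕ) (w : FreeGroup ι) (Z : Set ((W → F) × F)) (G : Subgroup W) (x₀ : ι → W) : ℂ :=
  ∑ x : ι → W, if ∀ i, (x₀ i)⁻¹ * x i ∈ G then As red p m w Z G x else 0

variable {p : ℕ} [hp : Fact p.Prime]

lemma as_dual (m : ℕ) (w : FreeGroup ι) {Z : Set ((W → F) × F)} {G : Subgroup W}
    (hZ : ∀ z ∈ Z, ∀ h ∈ G, ∀ x, z.1 (h * x * h⁻¹) = z.1 x) (x : ι → W) :
    As red p m w (Zd Z) G x = (starRingEnd ℂ) (As red p m w Z G x) := by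
  unfold As CS
  rw [map_sum]
  refine Finset.sum_congr rfl fun σ _ => ?_
  rw [map_mul, map_pow, map_neg, map_one]
  congr 1
  change (if ∀ i, x i ∈ chainStabilizer σ.1 then
    FF red p m (Zd Z) (chainStabilizer σ.1 ⊓ G) (ww w x) else 0) = (starRingEnd ℂ)
      (if ∀ i, x i ∈ chainStabilizer σ.1 then
        FF red p m Z (chainStabilizer σ.1 ⊓ G) (ww w x) else 0)
  split_ifs
  · exact ff_dual red m (T := chainStabilizer σ.1 ⊓ G) (fun z hz h hh x => hZ z hz h hh.2 x) _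
  · rw [map_zero]

lemma as_prod (m : ℕ) (w : FreeGroup ι) {Z₁ : Set ((W → F) × F)} {Z₂ : Set ((W' → F) × F)}
    {G₁ : Subgroup W} {G₂ : Subgroup W'}
    (hZ₁ : ∀ z ∈ Z₁, ∀ h ∈ G₁, ∀ x, z.1 (h * x * h⁻¹) = z.1 x)
    (hZ₂ : ∀ z ∈ Z₂, ∀ h ∈ G₂, ∀ x, z.1 (h * x * h⁻¹) = z.1 x) (x : ι → W × W') :
    As red p m w (Zp Z₁ Z₂) (G₁.prod G₂) x =
      As red p m w Z₁ G₁ (fun i => (x i).1) * As red p m w Z₂ G₂ (fun i => (x i).2) := by
  unfold As
  rw [cs_prod]
  unfold CS
  rw [Finset.sum_mul_sum]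
  refine Finset.sum_congr rfl fun σ _ => Finset.sum_congr rfl fun τ _ => ?_
  have h1 : (ww w x).1 = ww w (fun i => (x i).1) := ww_map (MonoidHom.fst W W') w x
  have h2 : (ww w x).2 = ww w (fun i => (x i).2) := ww_map (MonoidHom.snd W W') w x
  have h3 : (chainStabilizer σ.1).prod (chainStabilizer τ.1) ⊓ G₁.prod G₂ =
      (chainStabilizer σ.1 ⊓ G₁).prod (chainStabilizer τ.1 ⊓ G₂) := by
    ext y
    simp only [Subgroup.mem_inf, Subgroup.mem_prod]
    tauto
  rw [h3, ff_prod red m (T₁ := chainStabilizer σ.1 ⊓ G₁) (T₂ := chainStabilizer τ.1 ⊓ G₂)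
    (fun z hz h hh x => hZ₁ z hz h hh.2 x) (fun z hz h hh x => hZ₂ z hz h hh.2 x), h1, h2]
  change _ = (-1 : ℂ) ^ σ.1.ncard * (if ∀ i, (x i).1 ∈ chainStabilizer σ.1 then
      FF red p m Z₁ (chainStabilizer σ.1 ⊓ G₁) (ww w fun i => (x i).1) else 0) *
    ((-1 : ℂ) ^ τ.1.ncard * (if ∀ i, (x i).2 ∈ chainStabilizer τ.1 then
      FF red p m Z₂ (chainStabilizer τ.1 ⊓ G₂) (ww w fun i => (x i).2) else 0))
  have h4 : (∀ i, x i ∈ (chainStabilizer σ.1).prod (chainStabilizer τ.1)) ↔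
      (∀ i, (x i).1 ∈ chainStabilizer σ.1) ∧ ∀ i, (x i).2 ∈ chainStabilizer τ.1 := by
    simp only [Subgroup.mem_prod]
    exact forall_and
  by_cases c1 : ∀ i, (x i).1 ∈ chainStabilizer σ.1
  · by_cases c2 : ∀ i, (x i).2 ∈ chainStabilizer τ.1
    · rw [if_pos (h4.mpr ⟨c1, c2⟩), if_pos c1, if_pos c2]
      ring
    · rw [if_neg (fun h => c2 (h4.mp h).2), if_neg c2]
      ring
  · rw [if_neg (fun h => c1 (h4.mp h).1), if_neg c1]
    ring

end as

end Pool.Agent.H378.SF
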