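import Pool.Agent.H378.SF.Quo

/-!
# The induction
-/

set_option autoImplicit false
set_option linter.unusedSectionVars false
set_option linter.unusedVariables false

open scoped Classical BigOperators
open Pool.Agent.Helper884.IC Pool.Agent.Y63.AWC Pool.Agent.Y63.KR Pool.Agent.X209.EQ
open Pool.Agent.X209.PJ hiding push
open Pool.Agent.X209.DI Pool.Agent.X209.DQ Pool.Agent.H378.AC
open Pool.Agent.Y63.NV (IsClassFun IsBlock InZ centralValue redC conv)

noncomputable section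

namespace Pool.Agent.H378.SF

attribute [-instance] MonoidHom.fintypeRange MonoidHom.decidableMemRange

variable {F : Type} [Field F] (red : integralClosure ℤ ℂ →+* F) {p : ℕ} [hp : Fact p.Prime]
  [CharP F p]

/-- **The sums over the tuples vanish.** -/
theorem tz (hT : ∀ (A : Type) [Group A] [Finite A], TT p red A) {g : ℕ} (hg : 0 < g)
    (k₀ : Fin g) : ∀ (n : ℕ) (W : Type) [Group W] [Finite W] (G K N : Subgroup W),
      Nat.card N = n → G ≤ K → K ≤ N →
      N ≤ Subgroup.normalizer (G : Set W) → N ≤ Subgroup.normalizer (K : Set W) →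
      (∀ x ∈ K, ∃ k : ℕ, x ^ p ^ k ∈ G) → ∀ Z : Set ((W → F) × F), Zok Z G N →
      (∀ θ : G → ℂ, IsIrrChar θ → Cd red Z G θ → dfc p θ ≠ 0) →
      ∀ x₀ : Fin g × Bool → W, (∀ i, x₀ i ∈ N) → (∀ i, i ≠ (k₀, false) → x₀ i ∈ K) →
        Zs red p (2 * g - 2) (wd' g) Z G x₀ = 0 := by
  intro n
  induction n using Nat.strong_induction_on with
  | _ n ih =>
  intro W _ _ G K N hn hGK hKN hNG hNK hpK Z hZ hD x₀ hx₀ hx₁
  by_cases hno : ∀ Q : Subgroup W, Q ≤ K → IsPGroup p Q → Q ≠ ⊥ → Q ⊓ G = ⊥ →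
      ¬ N ≤ Subgroup.normalizer (Q : Set W)
  · refine step2 red hT hg k₀ hGK hKN hNG hNK hpK hZ hD hno ?_ x₀ hx₀ hx₁
    intro G' K' N' hc h1 h2 h3 h4 h5 h6 h7 x₁ h8 h9
    exact ih _ (by rw [← hn]; exact hc) W G' K' N' rfl h1 h2 h3 h4 h5 Z h6 h7 x₁ h8 h9
  push Not at hno
  obtain ⟨Q, hQK, hQp, hQ1, hQG, hQN⟩ := hno
  have hGN : G ≤ N := hGK.trans hKN
  have hQN' : Q ≤ N := hQK.trans hKN
  set P := Q.subgroupOf N with hP
  have hPn : P.Normal := by
    constructor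
    intro q hq x
    rw [Subgroup.mem_subgroupOf] at hq ⊢
    exact (Subgroup.mem_normalizer_iff.mp (hQN x.2) _).mp hq
  set π : N →* N ⧸ P := QuotientGroup.mk' P with hπ
  have hπs : Function.Surjective π := QuotientGroup.mk'_surjective P
  have hker : ∀ x y : N, π x = π y → ((x⁻¹ * y : N) : W) ∈ Q := by
    intro x y h
    exact Subgroup.mem_subgroupOf.mp (QuotientGroup.eq.mp h)
  have hi : Function.Injective (π.comp (Subgroup.inclusion hGN)) := by
    intro a b hab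
    have h1 := hker _ _ hab
    have h2 : (a⁻¹ * b : G) = 1 := by
      apply Subtype.ext
      have h3 : ((a⁻¹ * b : G) : W) ∈ Q ⊓ G := ⟨h1, (a⁻¹ * b).2⟩
      rw [hQG] at h3
      exact Subgroup.mem_bot.mp h3
    exact (inv_mul_eq_one.mp h2)
  refine zs_tr red hGN hNG π hi (2 * g - 2) (wd' g)
    (fun z hz h hh => hZ.conj z hz h (hGN hh)) (fun j => ⟨x₀ j, hx₀ j⟩) ?_
  set i := π.comp (Subgroup.inclusion hGN) with hidef
  set K₁ := (K.subgroupOf N).map π with hK₁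
  have hcard : Nat.card (⊤ : Subgroup (N ⧸ P)) < n := by
    rw [Subgroup.card_top, ← hn, Subgroup.card_eq_card_quotient_mul_card_subgroup P]
    have h1 : 1 < Nat.card P := by
      rw [hP, Nat.card_congr (Subgroup.subgroupOfEquivOfLe hQN').toEquiv]
      have h2 : Nat.card Q ≠ 1 := fun h => hQ1 (Subgroup.card_eq_one.mp h)
      have h3 : 0 < Nat.card Q := Nat.card_pos
      omega
    have h2 : 0 < Nat.card (N ⧸ P) := Nat.card_pos
    exact lt_mul_of_one_lt_right h2 h1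
  have hiK : i.range ≤ K₁ := by
    rintro _ ⟨a, rfl⟩
    exact ⟨Subgroup.inclusion hGN a, Subgroup.mem_subgroupOf.mpr (hGK a.2), rfl⟩
  have hconj : ∀ (x : N) (a : G), ∃ b : G, (b : W) = x * a * (x : W)⁻¹ ∧
      i b = π x * i a * (π x)⁻¹ := by
    intro x a
    refine ⟨⟨x * a * (x : W)⁻¹, (Subgroup.mem_normalizer_iff.mp (hNG x.2) a).mp a.2⟩, rfl, ?_⟩
    rw [← map_inv]
    change π _ = π x * π _ * π x⁻¹
    rw [← map_mul, ← map_mul]
    rfl
  have hnorm : ∀ (x v : N ⧸ P), v ∈ i.range → x * v * x⁻¹ ∈ i.range := by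
    rintro x _ ⟨a, rfl⟩
    obtain ⟨y, rfl⟩ := hπs x
    obtain ⟨b, _, hb⟩ := hconj y a
    exact ⟨b, hb⟩
  have hnorm' : ∀ (x v : N ⧸ P), x * v * x⁻¹ ∈ i.range → v ∈ i.range := by
    intro x v h
    have := hnorm x⁻¹ _ h
    have e : x⁻¹ * (x * v * x⁻¹) * x⁻¹⁻¹ = v := by group
    rwa [e] at this
  refine ih _ hcard (N ⧸ P) i.range K₁ ⊤ rfl hiK le_top ?_ ?_ ?_ (Zb i Z) ?_ ?_ _
    (fun j => Subgroup.mem_top _) ?_
  · intro x _
    rw [Subgroup.mem_normalizer_iff]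
    exact fun v => ⟨hnorm x v, hnorm' x v⟩
  · intro x _
    have hnK : (K.subgroupOf N).Normal := by
      constructor
      intro q hq x
      rw [Subgroup.mem_subgroupOf] at hq ⊢
      exact (Subgroup.mem_normalizer_iff.mp (hNK x.2) _).mp hq
    have hnK₁ : K₁.Normal := hnK.map π hπs
    rw [Subgroup.normalizer_eq_top_iff.mpr hnK₁]
    exact Subgroup.mem_top _
  · rintro _ ⟨x, hx, rfl⟩
    obtain ⟨k, hk⟩ := hpK x (Subgroup.mem_subgroupOf.mp hx)
    refine ⟨k, ⟨⟨(x : W) ^ p ^ k, hk⟩, ?_⟩⟩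
    rw [← map_pow]
    rfl
  · constructor
    · rintro _ ⟨z, hz, rfl⟩ x _ v
      change zb i z.1 (x * v * x⁻¹) = zb i z.1 v
      by_cases hv : v ∈ i.range
      · obtain ⟨a, rfl⟩ := hv
        obtain ⟨y, rfl⟩ := hπs x
        obtain ⟨b, hb1, hb2⟩ := hconj y a
        rw [← hb2, zb_apply i hi, zb_apply i hi, hb1]
        exact hZ.conj z hz y y.2 a
      · rw [zb_zero i z.1 hv, zb_zero i z.1 (fun h => hv (hnorm' x v h))]
    · rintro _ ⟨z, hz, rfl⟩ v _ hv
      exact zb_zero i z.1 hv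
  · intro θ hθ hC h0
    let e : G ≃* i.range := MonoidHom.ofInjective hi
    have : Fintype G := Fintype.ofFinite _
    have : Fintype i.range := Fintype.ofFinite _
    refine hD (fun a => θ (e a)) (irr_comp e hθ) ?_ ?_
    · exact (cd_zb red i hi e le_rfl (fun t => rfl)
        (fun z hz h hh => hZ.conj z hz h (hGN hh)) hθ).mp hC
    · rw [dfc_comp' e hθ]
      exact h0
  · intro j hj
    exact ⟨⟨x₀ j, hx₀ j⟩, Subgroup.mem_subgroupOf.mpr (hx₁ j hj), rfl⟩

end Pool.Agent.H378.SF
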